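import Mathlib

/-! The residues of `a * b ^ n` modulo powers of two. -/

set_option autoImplicit false

namespace Pool.Agent.Y967.CM

open Finset

theorem odd_four {b : ℤ} (hb : b % 2 = 1) : (4 : ℤ) ∣ b ^ 2 - 1 := by
  obtain ⟨c, hc⟩ : ∃ c, b = 2 * c + 1 := ⟨b / 2, by omega⟩
  exact ⟨c ^ 2 + c, by rw [hc]; ring⟩

theorem pow_dvd_index {b : ℤ} (hb : b % 2 = 1) (hb1 : b ^ 2 ≠ 1) : ∃ w : ℕ, ∀ j s : ℕ,
    (2 : ℤ) ^ s ∣ b ^ j - 1 → 2 ^ (s - w) ∣ j := by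
  have hne : b ^ 2 - 1 ≠ 0 := sub_ne_zero.2 hb1
  have hfin : FiniteMultiplicity (2 : ℤ) (b ^ 2 - 1) :=
    Int.finiteMultiplicity_iff.2 ⟨by norm_num, hne⟩
  refine ⟨multiplicity (2 : ℤ) (b ^ 2 - 1), fun j s h => ?_⟩
  have h1 : (2 : ℤ) ^ s ∣ (b ^ 2) ^ j - 1 ^ j := by
    have e : (b ^ 2) ^ j - 1 ^ j = (b ^ j - 1) * (b ^ j + 1) := by
      rw [one_pow, ← pow_mul, mul_comm 2 j, pow_mul]; ring
    rw [e]
    exact Dvd.dvd.mul_right h _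
  have hodd : ¬ (2 : ℤ) ∣ b ^ 2 := by
    intro h2
    have := Int.prime_two.dvd_of_dvd_pow h2
    omega
  have h2 := Int.two_pow_sub_pow' (x := b ^ 2) (y := 1) j (odd_four hb) hodd
  have h3 : (s : ℕ∞) ≤ emultiplicity 2 ((b ^ 2) ^ j - 1 ^ j) := le_emultiplicity_of_pow_dvd h1
  rw [h2, hfin.emultiplicity_eq_multiplicity] at h3
  have h4 : ((s - multiplicity (2 : ℤ) (b ^ 2 - 1) : ℕ) : ℕ∞) ≤ emultiplicity (2 : ℤ) (j : ℤ) := by
    rw [ENat.coe_sub]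
    exact tsub_le_iff_left.2 h3
  have h5 := pow_dvd_of_le_emultiplicity h4
  exact_mod_cast h5

/-- The constant. -/
theorem pow_residue {a b : ℤ} (ha : a ≠ 0) (hb : b % 2 = 1) (hb1 : b ^ 2 ≠ 1) : ∃ K : ℕ, ∀ T n m : ℕ,
    n ≤ m → a * b ^ n ≡ a * b ^ m [ZMOD 2 ^ T] → 2 ^ (T - K) ∣ m - n := by
  obtain ⟨w, hw⟩ := pow_dvd_index hb hb1
  have hfin : FiniteMultiplicity (2 : ℤ) a := Int.finiteMultiplicity_iff.2 ⟨by norm_num, ha⟩
  refine ⟨multiplicity (2 : ℤ) a + w, fun T n m hnm h => ?_⟩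
  set v := multiplicity (2 : ℤ) a with hv
  obtain ⟨d, rfl⟩ : ∃ d, m = n + d := ⟨m - n, by omega⟩
  have h1 := h.dvd
  have e : a * b ^ (n + d) - a * b ^ n = b ^ n * (a * (b ^ d - 1)) := by rw [pow_add]; ring
  rw [e] at h1
  have hcop : IsCoprime ((2 : ℤ) ^ T) (b ^ n) := by
    apply IsCoprime.pow
    rw [Int.isCoprime_iff_gcd_eq_one]
    have h2 : ¬ (2 : ℤ) ∣ b := by omega
    rw [← Int.isCoprime_iff_gcd_eq_one]
    exact (Int.prime_two.coprime_iff_not_dvd).2 h2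
  have h2 : (2 : ℤ) ^ T ∣ a * (b ^ d - 1) := hcop.dvd_of_dvd_mul_left h1
  rw [show n + d - n = d by omega, show T - (v + w) = (T - v) - w by omega]
  apply hw
  by_cases hd : b ^ d - 1 = 0
  · rw [hd]; exact dvd_zero _
  have h3 : (T : ℕ∞) ≤ emultiplicity 2 (a * (b ^ d - 1)) := le_emultiplicity_of_pow_dvd h2
  rw [emultiplicity_mul Int.prime_two, hfin.emultiplicity_eq_multiplicity] at h3
  apply pow_dvd_of_le_emultiplicity
  rw [ENat.coe_sub]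
  exact tsub_le_iff_left.2 h3

open Classical in
theorem pow_count {a b : ℤ} (ha : a ≠ 0) (hb : b % 2 = 1) (hb1 : b ^ 2 ≠ 1) : ∃ C : ℝ, 0 < C ∧
    ∀ (N T : ℕ) (c : ℤ), 2 ^ T ≤ N →
      (#{n ∈ Icc 1 N | a * b ^ n ≡ c [ZMOD 2 ^ T]} : ℝ) ≤ C * (N / 2 ^ T) := by
  obtain ⟨K, hK⟩ := pow_residue ha hb hb1
  refine ⟨2 ^ K + 1, by positivity, fun N T c hN => ?_⟩
  have hNr : (2 : ℝ) ^ T ≤ N := by exact_mod_cast hN
  have h2T : (0 : ℝ) < 2 ^ T := by positivity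
  have h1 : #{n ∈ Icc 1 N | a * b ^ n ≡ c [ZMOD 2 ^ T]} ≤ N / 2 ^ (T - K) + 1 := by
    have h2 : #(range (N / 2 ^ (T - K) + 1)) = N / 2 ^ (T - K) + 1 := card_range _
    rw [← h2]
    apply card_le_card_of_injOn (fun n => n / 2 ^ (T - K))
    · intro n hn
      rw [mem_coe, mem_filter, mem_Icc] at hn
      rw [mem_coe, mem_range]
      exact Nat.lt_succ_of_le (Nat.div_le_div_right hn.1.2)
    · have key : ∀ n m : ℕ, n ≤ m → a * b ^ n ≡ c [ZMOD 2 ^ T] → a * b ^ m ≡ c [ZMOD 2 ^ T] →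
          n / 2 ^ (T - K) = m / 2 ^ (T - K) → n = m := by
        intro n m hnm h1 h2 h3
        obtain ⟨q, hq⟩ := hK T n m hnm (h1.trans h2.symm)
        have h4 : m = n + 2 ^ (T - K) * q := by omega
        rw [h4, Nat.add_mul_div_left _ _ (by positivity)] at h3
        have : q = 0 := by omega
        rw [h4, this]; simp
      intro n hn m hm h
      rw [mem_coe, mem_filter] at hn hm
      rcases le_total n m with hnm | hnm
      · exact key n m hnm hn.2 hm.2 h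
      · exact (key m n hnm hm.2 hn.2 h.symm).symm
  have h2 : ((N / 2 ^ (T - K) : ℕ) : ℝ) ≤ 2 ^ K * (N / 2 ^ T) := by
    have h3 : ((N / 2 ^ (T - K) : ℕ) : ℝ) ≤ (N : ℝ) / ((2 ^ (T - K) : ℕ) : ℝ) := Nat.cast_div_le
    refine h3.trans ?_
    push_cast
    rw [mul_div_assoc', div_le_div_iff₀ (by positivity) h2T]
    have h4 : (2 : ℝ) ^ T ≤ 2 ^ K * 2 ^ (T - K) := by
      rw [← pow_add]
      exact pow_le_pow_right₀ (by norm_num) (by omega)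
    calc (N : ℝ) * 2 ^ T ≤ N * (2 ^ K * 2 ^ (T - K)) := mul_le_mul_of_nonneg_left h4 (by positivity)
      _ = 2 ^ K * N * 2 ^ (T - K) := by ring
  have h3 : (1 : ℝ) ≤ N / 2 ^ T := by rw [le_div_iff₀ h2T]; linarith
  have h4 : (#{n ∈ Icc 1 N | a * b ^ n ≡ c [ZMOD 2 ^ T]} : ℝ) ≤ ((N / 2 ^ (T - K) : ℕ) : ℝ) + 1 := by
    exact_mod_cast h1
  linarith

open Classical in
/-- From classes to periodic sets. -/
theorem periodic_count (x : ℕ → ℤ) (s : Finset ℕ) {T : ℕ} {B : ℝ}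
    (h : ∀ c : ℤ, (#{n ∈ s | x n ≡ c [ZMOD 2 ^ T]} : ℝ) ≤ B) (P : ℤ → Prop)
    (hP : ∀ y m : ℤ, P (y + m * 2 ^ T) ↔ P y) :
    (#{n ∈ s | P (x n)} : ℝ) ≤ B * #{c ∈ range (2 ^ T) | P ((c : ℕ) : ℤ)} := by
  have hsub : ({n ∈ s | P (x n)} : Finset ℕ) ⊆
      ({c ∈ range (2 ^ T) | P ((c : ℕ) : ℤ)} : Finset ℕ).biUnion
        (fun c => {n ∈ s | x n ≡ ((c : ℕ) : ℤ) [ZMOD 2 ^ T]}) := by
    intro n hn
    rw [mem_filter] at hn
    rw [mem_biUnion]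
    have h2T : (0 : ℤ) < 2 ^ T := by positivity
    have h0 := Int.emod_nonneg (x n) h2T.ne'
    have h1 := Int.emod_lt_of_pos (x n) h2T
    have e : (((x n % 2 ^ T).toNat : ℕ) : ℤ) = x n % 2 ^ T := Int.toNat_of_nonneg h0
    refine ⟨(x n % 2 ^ T).toNat, ?_, ?_⟩
    · rw [mem_filter, mem_range]
      refine ⟨?_, ?_⟩
      · have : (((x n % 2 ^ T).toNat : ℕ) : ℤ) < ((2 ^ T : ℕ) : ℤ) := by rw [e]; push_cast; exact h1
        exact_mod_cast this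
      · rw [e, ← hP _ (x n / 2 ^ T)]
        have := Int.emod_add_mul_ediv (x n) (2 ^ T)
        rw [mul_comm] at this
        rw [this]; exact hn.2
    · rw [mem_filter, e]
      exact ⟨hn.1, (Int.mod_modEq _ _).symm⟩
  calc (#{n ∈ s | P (x n)} : ℝ) ≤ ∑ c ∈ ({c ∈ range (2 ^ T) | P ((c : ℕ) : ℤ)} : Finset ℕ),
        (#{n ∈ s | x n ≡ ((c : ℕ) : ℤ) [ZMOD 2 ^ T]} : ℝ) := by
        exact_mod_cast (card_le_card hsub).trans card_biUnion_le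
    _ ≤ ∑ c ∈ ({c ∈ range (2 ^ T) | P ((c : ℕ) : ℤ)} : Finset ℕ), B := sum_le_sum (fun c _ => h c)
    _ = B * #{c ∈ range (2 ^ T) | P ((c : ℕ) : ℤ)} := by rw [sum_const, nsmul_eq_mul]; ring

end Pool.Agent.Y967.CM
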