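import Mathlib
import Pool.Agent.Y967.CM.P

/-! Sequences spread modulo powers of two. -/

set_option autoImplicit false

namespace Pool.Agent.Y967.CM

open Finset

open Classical in
/-- The sequence `x` is spread modulo powers of two. -/
def Spread (x : ℕ → ℤ) : Prop :=
  ∃ δ : ℝ, 0 < δ ∧ ∀ ε : ℝ, 0 < ε → ∃ η : ℝ, 0 < η ∧ ∃ N₀ : ℕ, ∀ N : ℕ, N₀ ≤ N →
    ∀ T : ℕ, (2 : ℝ) ^ T ≤ (N : ℝ) ^ δ → ∀ A : Finset ℤ, (#A : ℝ) ≤ η * 2 ^ T →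
      (#{n ∈ Icc 1 N | ∃ a ∈ A, x n ≡ a [ZMOD 2 ^ T]} : ℝ) ≤ ε * N

open Classical in
/-- The same with periodic sets. -/
def Spr (δ : ℝ) (x : ℕ → ℤ) : Prop :=
  ∀ ε : ℝ, 0 < ε → ∃ η : ℝ, 0 < η ∧ ∃ N₀ : ℕ, ∀ N : ℕ, N₀ ≤ N →
    ∀ T : ℕ, (2 : ℝ) ^ T ≤ (N : ℝ) ^ δ → ∀ P : ℤ → Prop, (∀ y m : ℤ, P (y + m * 2 ^ T) ↔ P y) →
      (#{c ∈ range (2 ^ T) | P ((c : ℕ) : ℤ)} : ℝ) ≤ η * 2 ^ T →
      (#{n ∈ Icc 1 N | P (x n)} : ℝ) ≤ ε * N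

theorem exists_class (T : ℕ) (y : ℤ) : ∃ c ∈ range (2 ^ T), ∃ m : ℤ, y = ((c : ℕ) : ℤ) + m * 2 ^ T := by
  have h2T : (0 : ℤ) < 2 ^ T := by positivity
  have h0 := Int.emod_nonneg y h2T.ne'
  have h1 := Int.emod_lt_of_pos y h2T
  have e : (((y % 2 ^ T).toNat : ℕ) : ℤ) = y % 2 ^ T := Int.toNat_of_nonneg h0
  refine ⟨(y % 2 ^ T).toNat, ?_, y / 2 ^ T, ?_⟩
  · rw [mem_range]
    have : (((y % 2 ^ T).toNat : ℕ) : ℤ) < ((2 ^ T : ℕ) : ℤ) := by rw [e]; push_cast; exact h1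
    exact_mod_cast this
  · rw [e]
    have := Int.emod_add_mul_ediv y (2 ^ T)
    rw [mul_comm] at this
    exact this.symm

theorem Spread.spr {x : ℕ → ℤ} (h : Spread x) : ∃ δ : ℝ, 0 < δ ∧ Spr δ x := by
  classical
  obtain ⟨δ, hδ, h1⟩ := h
  refine ⟨δ, hδ, fun ε hε => ?_⟩
  obtain ⟨η, hη, N0, h2⟩ := h1 ε hε
  refine ⟨η, hη, N0, fun N hN T hT P hP hc => ?_⟩
  have h3 := h2 N hN T hT (({c ∈ range (2 ^ T) | P ((c : ℕ) : ℤ)} : Finset ℕ).image (fun c : ℕ => (c : ℤ)))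
    (by
      refine le_trans ?_ hc
      exact_mod_cast card_image_le)
  refine le_trans ?_ h3
  have h4 : ({n ∈ Icc 1 N | P (x n)} : Finset ℕ) ⊆ {n ∈ Icc 1 N | ∃ a ∈
      (({c ∈ range (2 ^ T) | P ((c : ℕ) : ℤ)} : Finset ℕ).image (fun c : ℕ => (c : ℤ))), x n ≡ a [ZMOD 2 ^ T]} := by
    intro n hn
    rw [mem_filter] at hn ⊢
    refine ⟨hn.1, ?_⟩
    obtain ⟨c, hc, m, hm⟩ := exists_class T (x n)
    refine ⟨(c : ℤ), ?_, ?_⟩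
    · rw [mem_image]
      refine ⟨c, ?_, rfl⟩
      rw [mem_filter]
      refine ⟨hc, ?_⟩
      have := hn.2
      rw [hm] at this
      exact (hP _ _).1 this
    · rw [hm]
      exact (Int.modEq_iff_dvd.2 ⟨-m, by ring⟩)
  exact_mod_cast card_le_card h4

theorem Spr.spread {δ : ℝ} (hδ : 0 < δ) {x : ℕ → ℤ} (h : Spr δ x) : Spread x := by
  classical
  refine ⟨δ, hδ, fun ε hε => ?_⟩
  obtain ⟨η, hη, N0, h2⟩ := h ε hε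
  refine ⟨η, hη, N0, fun N hN T hT A hA => ?_⟩
  have hper : ∀ y m : ℤ, (∃ a ∈ A, y + m * 2 ^ T ≡ a [ZMOD 2 ^ T]) ↔ (∃ a ∈ A, y ≡ a [ZMOD 2 ^ T]) := by
    intro y m
    have e : y + m * 2 ^ T ≡ y [ZMOD 2 ^ T] := Int.modEq_iff_dvd.2 ⟨-m, by ring⟩
    constructor
    · rintro ⟨a, ha, h3⟩; exact ⟨a, ha, e.symm.trans h3⟩
    · rintro ⟨a, ha, h3⟩; exact ⟨a, ha, e.trans h3⟩
  have h3 := h2 N hN T hT (fun y => ∃ a ∈ A, y ≡ a [ZMOD 2 ^ T]) hper (by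
    refine le_trans ?_ hA
    have h4 : #({c ∈ range (2 ^ T) | ∃ a ∈ A, ((c : ℕ) : ℤ) ≡ a [ZMOD 2 ^ T]} : Finset ℕ) ≤ #A := by
      have h5 : ({c ∈ range (2 ^ T) | ∃ a ∈ A, ((c : ℕ) : ℤ) ≡ a [ZMOD 2 ^ T]} : Finset ℕ) ⊆
          A.image (fun a => (a % 2 ^ T).toNat) := by
        intro c hc
        rw [mem_filter, mem_range] at hc
        obtain ⟨hc1, a, ha, hca⟩ := hc
        rw [mem_image]
        refine ⟨a, ha, ?_⟩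
        have h6 : ((c : ℕ) : ℤ) % 2 ^ T = a % 2 ^ T := hca
        rw [← h6, Int.emod_eq_of_lt (by positivity) (by exact_mod_cast hc1)]
        simp
      exact (card_le_card h5).trans card_image_le
    exact_mod_cast h4)
  refine le_trans (le_of_eq ?_) h3
  congr!

theorem Spr.mono {δ δ' : ℝ} {x : ℕ → ℤ} (h : Spr δ x) (h1 : δ' ≤ δ) : Spr δ' x := by
  intro ε hε
  obtain ⟨η, hη, N0, h2⟩ := h ε hε
  refine ⟨η, hη, max N0 1, fun N hN T hT P hP hc => ?_⟩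
  refine h2 N ((le_max_left _ _).trans hN) T (hT.trans ?_) P hP hc
  have h3 : (1 : ℝ) ≤ N := by exact_mod_cast (le_max_right _ _).trans hN
  exact Real.rpow_le_rpow_of_exponent_le h3 h1

open Classical in
/-- Spread by counting in classes. -/
theorem Spr.of_count {δ : ℝ} {x : ℕ → ℤ} {C : ℝ} (hC : 0 < C) {N₀ : ℕ}
    (h : ∀ N : ℕ, N₀ ≤ N → ∀ T : ℕ, (2 : ℝ) ^ T ≤ (N : ℝ) ^ δ → ∀ c : ℤ,
      (#{n ∈ Icc 1 N | x n ≡ c [ZMOD 2 ^ T]} : ℝ) ≤ C * (N / 2 ^ T)) : Spr δ x := by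
  intro ε hε
  refine ⟨ε / C, by positivity, N₀, fun N hN T hT P hP hc => ?_⟩
  have h1 := periodic_count x (Icc 1 N) (h N hN T hT) P hP
  have h2T : (0 : ℝ) < 2 ^ T := by positivity
  calc (#{n ∈ Icc 1 N | P (x n)} : ℝ) ≤ C * (N / 2 ^ T) * #{c ∈ range (2 ^ T) | P ((c : ℕ) : ℤ)} := h1
    _ ≤ C * (N / 2 ^ T) * (ε / C * 2 ^ T) := mul_le_mul_of_nonneg_left hc (by positivity)
    _ = ε * N := by field_simp

theorem nat_of_rpow {N T : ℕ} {δ : ℝ} (hδ1 : δ ≤ 1) (hN : 1 ≤ N) (hT : (2 : ℝ) ^ T ≤ (N : ℝ) ^ δ) :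
    2 ^ T ≤ N := by
  have h1 : (1 : ℝ) ≤ N := by exact_mod_cast hN
  have h2 : (N : ℝ) ^ δ ≤ N := by
    calc (N : ℝ) ^ δ ≤ (N : ℝ) ^ (1 : ℝ) := Real.rpow_le_rpow_of_exponent_le h1 hδ1
      _ = N := Real.rpow_one _
  exact_mod_cast hT.trans h2

/-- The sequence `a b ^ n`. -/
theorem spr_pow {a b : ℤ} (ha : a ≠ 0) (hb : b % 2 = 1) (hb1 : b ^ 2 ≠ 1) : Spr 1 (fun n => a * b ^ n) := by
  obtain ⟨C, hC, h⟩ := pow_count ha hb hb1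
  exact Spr.of_count hC (N₀ := 1) (fun N hN T hT c => h N T c (nat_of_rpow le_rfl hN hT))

/-- The integers. -/
theorem spr_id : Spr 1 (fun n => (n : ℤ)) := by
  classical
  refine Spr.of_count (C := 2) (by norm_num) (N₀ := 1) (fun N hN T hT c => ?_)
  have hN2 := nat_of_rpow le_rfl hN hT
  have hNr : (2 : ℝ) ^ T ≤ N := by exact_mod_cast hN2
  have h2T : (0 : ℝ) < 2 ^ T := by positivity
  have h1 : #{n ∈ Icc 1 N | ((n : ℕ) : ℤ) ≡ c [ZMOD 2 ^ T]} ≤ N / 2 ^ T + 1 := by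
    have h2 : #(range (N / 2 ^ T + 1)) = N / 2 ^ T + 1 := card_range _
    rw [← h2]
    apply card_le_card_of_injOn (fun n => n / 2 ^ T)
    · intro n hn
      rw [mem_coe, mem_filter, mem_Icc] at hn
      rw [mem_coe, mem_range]
      exact Nat.lt_succ_of_le (Nat.div_le_div_right hn.1.2)
    · intro n hn m hm h
      rw [mem_coe, mem_filter] at hn hm
      have h3 : ((n : ℕ) : ℤ) ≡ ((m : ℕ) : ℤ) [ZMOD ((2 ^ T : ℕ) : ℤ)] := by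
        push_cast; exact hn.2.trans hm.2.symm
      have h4 := (Int.natCast_modEq_iff).1 h3
      simp only at h
      rw [← Nat.div_add_mod n (2 ^ T), ← Nat.div_add_mod m (2 ^ T), h, h4]
  have h2 : ((N / 2 ^ T : ℕ) : ℝ) ≤ N / 2 ^ T := by
    have h3 : ((N / 2 ^ T : ℕ) : ℝ) ≤ (N : ℝ) / ((2 ^ T : ℕ) : ℝ) := Nat.cast_div_le
    push_cast at h3
    exact h3
  have h3 : (1 : ℝ) ≤ N / 2 ^ T := by rw [le_div_iff₀ h2T, one_mul]; exact hNr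
  have h4 : (#{n ∈ Icc 1 N | ((n : ℕ) : ℤ) ≡ c [ZMOD 2 ^ T]} : ℝ) ≤ ((N / 2 ^ T : ℕ) : ℝ) + 1 := by
    exact_mod_cast h1
  linarith

end Pool.Agent.Y967.CM
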