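import Pool.Agent.Y927.CP.C
import Pool.Agent.Y967.CM.S

/-! Polynomial values of spread sequences. -/

set_option autoImplicit false

namespace Pool.Agent.Y967.CM

open Finset Polynomial

theorem eval_add_mul (f : ℤ[X]) (y m M : ℤ) : ∃ m' : ℤ, f.eval (y + m * M) = f.eval y + m' * M := by
  have h := f.sub_dvd_eval_sub (y + m * M) y
  have e : y + m * M - y = m * M := by ring
  rw [e] at h
  obtain ⟨q, hq⟩ := h
  exact ⟨m * q, by linear_combination hq⟩

open Classical in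
/-- Elements where the derivative is not divisible by `2 ^ j`. -/
theorem fibre_count {f : ℤ[X]} {T j : ℕ} (hjT : j ≤ T) (P : ℤ → Prop)
    (hP : ∀ y m : ℤ, P (y + m * 2 ^ T) ↔ P y) :
    #{c ∈ range (2 ^ T) | ¬ ((2 : ℤ) ^ j ∣ f.derivative.eval ((c : ℕ) : ℤ)) ∧ P (f.eval ((c : ℕ) : ℤ))} ≤
      #{c ∈ range (2 ^ T) | P ((c : ℕ) : ℤ)} * (2 ^ j * 2 ^ j) := by
  have h0 : #(({c ∈ range (2 ^ T) | P ((c : ℕ) : ℤ)} : Finset ℕ) ×ˢ (range (2 ^ j) ×ˢ range (2 ^ j))) =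
      #{c ∈ range (2 ^ T) | P ((c : ℕ) : ℤ)} * (2 ^ j * 2 ^ j) := by
    rw [card_product, card_product, card_range]
  rw [← h0]
  have h2T : (0 : ℤ) < 2 ^ T := by positivity
  have hval : ∀ y : ℤ, (((y % 2 ^ T).toNat : ℕ) : ℤ) = y % 2 ^ T := fun y =>
    Int.toNat_of_nonneg (Int.emod_nonneg y h2T.ne')
  apply card_le_card_of_injOn (fun c : ℕ => ((f.eval ((c : ℕ) : ℤ) % 2 ^ T).toNat, (c % 2 ^ j, c / 2 ^ (T - j))))
  · intro c hc
    rw [mem_coe, mem_filter, mem_range] at hc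
    obtain ⟨hc1, -, hc2⟩ := hc
    rw [mem_coe, mem_product, mem_product, mem_filter, mem_range, mem_range, mem_range]
    refine ⟨⟨?_, ?_⟩, ?_, ?_⟩
    · have h1 := Int.emod_lt_of_pos (f.eval ((c : ℕ) : ℤ)) h2T
      rw [← hval] at h1
      have : (((f.eval ((c : ℕ) : ℤ) % 2 ^ T).toNat : ℕ) : ℤ) < ((2 ^ T : ℕ) : ℤ) := by push_cast; exact h1
      exact_mod_cast this
    · simp only
      rw [hval, ← hP _ (f.eval ((c : ℕ) : ℤ) / 2 ^ T)]
      have := Int.emod_add_mul_ediv (f.eval ((c : ℕ) : ℤ)) (2 ^ T)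
      rw [mul_comm] at this
      rw [this]; exact hc2
    · exact Nat.mod_lt _ (by positivity)
    · rw [Nat.div_lt_iff_lt_mul (by positivity), ← pow_add, show j + (T - j) = T by omega]
      exact hc1
  · have key : ∀ c d : ℕ, c < d → ¬ ((2 : ℤ) ^ j ∣ f.derivative.eval ((c : ℕ) : ℤ)) →
        (f.eval ((c : ℕ) : ℤ) % 2 ^ T).toNat = (f.eval ((d : ℕ) : ℤ) % 2 ^ T).toNat →
        c % 2 ^ j = d % 2 ^ j → c / 2 ^ (T - j) = d / 2 ^ (T - j) → False := by
      intro c d hcd h1 h2 h3 h4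
      apply h1
      refine Pool.Agent.Y927.CP.rigid hjT hcd ?_ ?_ ?_
      · have h5 := Nat.div_add_mod c (2 ^ (T - j))
        have h6 := Nat.div_add_mod d (2 ^ (T - j))
        have h7 := Nat.mod_lt d (show 0 < 2 ^ (T - j) by positivity)
        rw [h4] at h5
        generalize 2 ^ (T - j) * (d / 2 ^ (T - j)) = q at h5 h6
        omega
      · have h5 := (Nat.modEq_iff_dvd.1 (show c ≡ d [MOD 2 ^ j] from h3))
        exact_mod_cast h5
      · have h5 : f.eval ((c : ℕ) : ℤ) % 2 ^ T = f.eval ((d : ℕ) : ℤ) % 2 ^ T := by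
          have a1 := hval (f.eval ((c : ℕ) : ℤ))
          have a2 := hval (f.eval ((d : ℕ) : ℤ))
          rw [← a1, ← a2, h2]
        exact (Int.modEq_iff_dvd.1 h5)
    intro c hc d hd h
    rw [mem_coe, mem_filter] at hc hd
    simp only [Prod.mk.injEq] at h
    obtain ⟨e1, e2, e3⟩ := h
    rcases lt_trichotomy c d with h | h | h
    · exact (key c d h hc.2.1 e1 e2 e3).elim
    · exact h
    · exact (key d c h hd.2.1 e1.symm e2.symm e3.symm).elim

theorem Spr.poly {δ : ℝ} {x : ℕ → ℤ} (h : Spr δ x) {f : ℤ[X]} (hf : 1 ≤ f.natDegree) :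
    Spr δ (fun n => f.eval (x n)) := by
  classical
  intro ε hε
  obtain ⟨η, hη, N0, h2⟩ := h ε hε
  have hg : f.derivative ≠ 0 := by
    intro h0
    have := derivative_eq_zero.1 h0
    omega
  set g := f.derivative with hgdef
  set m := g.natDegree with hm
  obtain ⟨L, hL⟩ := exists_nat_gt ((4 * m : ℝ) / η + 1)
  have hLr : (4 * m : ℝ) / η + 1 < L := hL
  have hL1 : 1 ≤ L := by
    have h1 : (0 : ℝ) ≤ (4 * m : ℝ) / η := by positivity
    have : (1 : ℝ) ≤ L := by linarith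
    exact_mod_cast this
  have hLm : (m : ℝ) / L ≤ η / 4 := by
    have h1 : (4 * m : ℝ) / η ≤ L := by linarith
    rw [div_le_iff₀ hη] at h1
    have h3 : (0 : ℝ) < L := by exact_mod_cast hL1
    rw [div_le_iff₀ h3]; linarith
  obtain ⟨j, hj⟩ : ∃ j : ℕ, (L : ℤ) ^ ((m + 1) * (m + 1)) * |g.leadingCoeff| < (2 : ℤ) ^ j := by
    obtain ⟨j, hj⟩ := pow_unbounded_of_one_lt ((L : ℤ) ^ ((m + 1) * (m + 1)) * |g.leadingCoeff|)
      (show (1 : ℤ) < 2 by norm_num)
    exact ⟨j, hj⟩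
  obtain ⟨T1, hT1⟩ := pow_unbounded_of_one_lt ((4 * (m + 1) : ℝ) / η) (show (1 : ℝ) < 2 by norm_num)
  set T0 := max T1 j with hT0
  have hT0' : (m : ℝ) + 1 ≤ η / 4 * 2 ^ T0 := by
    have h1 : (2 : ℝ) ^ T1 ≤ 2 ^ T0 := pow_le_pow_right₀ (by norm_num) (le_max_left _ _)
    rw [div_lt_iff₀ hη] at hT1
    nlinarith
  set η' : ℝ := min (η / 2 / 4 ^ j) (1 / 2 ^ (T0 + 1)) with hη'
  have hη'0 : 0 < η' := lt_min (by positivity) (by positivity)
  refine ⟨η', hη'0, N0, fun N hN T hT P hP hc => ?_⟩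
  refine h2 N hN T hT (fun y => P (f.eval y)) ?_ ?_
  · intro y k
    obtain ⟨k', hk'⟩ := eval_add_mul f y k (2 ^ T)
    rw [hk']
    exact hP _ _
  · rcases lt_or_ge T T0 with hTT | hTT
    · -- no class at all
      have h3 : (#{c ∈ range (2 ^ T) | P ((c : ℕ) : ℤ)} : ℝ) < 1 := by
        refine lt_of_le_of_lt hc ?_
        have h4 : (2 : ℝ) ^ T < 2 ^ (T0 + 1) := pow_lt_pow_right₀ (by norm_num) (by omega)
        calc η' * 2 ^ T ≤ 1 / 2 ^ (T0 + 1) * 2 ^ T :=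
              mul_le_mul_of_nonneg_right (min_le_right _ _) (by positivity)
          _ < 1 / 2 ^ (T0 + 1) * 2 ^ (T0 + 1) := mul_lt_mul_of_pos_left h4 (by positivity)
          _ = 1 := by field_simp
      have h4 : #{c ∈ range (2 ^ T) | P ((c : ℕ) : ℤ)} = 0 := by
        have : #{c ∈ range (2 ^ T) | P ((c : ℕ) : ℤ)} < 1 := by exact_mod_cast h3
        omega
      have h5 : ∀ y : ℤ, ¬ P y := by
        intro y hy
        obtain ⟨c, hc, k, hk⟩ := exists_class T y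
        rw [hk, hP] at hy
        have h6 : c ∈ ({c ∈ range (2 ^ T) | P ((c : ℕ) : ℤ)} : Finset ℕ) := mem_filter.2 ⟨hc, hy⟩
        rw [card_eq_zero] at h4
        rw [h4] at h6
        simp at h6
      have h6 : ({c ∈ range (2 ^ T) | P (f.eval ((c : ℕ) : ℤ))} : Finset ℕ) = ∅ := by
        apply filter_eq_empty_iff.2
        intro c _; exact h5 _
      rw [h6]
      simp only [card_empty, Nat.cast_zero]
      positivity
    · have hjT : j ≤ T := (le_max_right _ _).trans hTT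
      have h3 : ({c ∈ range (2 ^ T) | P (f.eval ((c : ℕ) : ℤ))} : Finset ℕ) ⊆
          ({0} ∪ (Ioc 0 (0 + 2 ^ T)).filter (fun n : ℕ => (2 : ℤ) ^ j ∣ g.eval (n : ℤ))) ∪
          {c ∈ range (2 ^ T) | ¬ ((2 : ℤ) ^ j ∣ g.eval ((c : ℕ) : ℤ)) ∧ P (f.eval ((c : ℕ) : ℤ))} := by
        intro c hc
        rw [mem_filter, mem_range] at hc
        rw [mem_union, mem_union, mem_filter, mem_filter, mem_singleton, mem_Ioc, mem_range]
        by_cases h4 : (2 : ℤ) ^ j ∣ g.eval ((c : ℕ) : ℤ)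
        · left
          rcases Nat.eq_zero_or_pos c with h5 | h5
          · left; exact h5
          · right; exact ⟨⟨h5, by omega⟩, h4⟩
        · right; exact ⟨hc.1, h4, hc.2⟩
      have h4 := Pool.Agent.Y927.CP.count1 hg hm.symm (D := 2 ^ j) hL1 hj 0 (2 ^ T)
      have h5 := fibre_count (f := f) hjT P hP
      have h6 := (card_le_card h3).trans (card_union_le _ _)
      have h7 := card_union_le ({0} : Finset ℕ) ((Ioc 0 (0 + 2 ^ T)).filter (fun n : ℕ => (2 : ℤ) ^ j ∣ g.eval (n : ℤ)))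
      rw [card_singleton] at h7
      have h8 : #({c ∈ range (2 ^ T) | P (f.eval ((c : ℕ) : ℤ))} : Finset ℕ) ≤
          1 + m * (2 ^ T / L + 1) + #{c ∈ range (2 ^ T) | P ((c : ℕ) : ℤ)} * (2 ^ j * 2 ^ j) := by
        rw [← hgdef] at h5
        omega
      have h9 : (#({c ∈ range (2 ^ T) | P (f.eval ((c : ℕ) : ℤ))} : Finset ℕ) : ℝ) ≤
          1 + m * (((2 ^ T / L : ℕ) : ℝ) + 1) + #{c ∈ range (2 ^ T) | P ((c : ℕ) : ℤ)} * (2 ^ j * 2 ^ j) := by
        exact_mod_cast h8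
      have h10 : ((2 ^ T / L : ℕ) : ℝ) ≤ 2 ^ T / L := by
        have := Nat.cast_div_le (α := ℝ) (m := 2 ^ T) (n := L)
        push_cast at this
        exact this
      have h11 : (m : ℝ) * ((2 ^ T / L : ℕ) : ℝ) ≤ η / 4 * 2 ^ T := by
        calc (m : ℝ) * ((2 ^ T / L : ℕ) : ℝ) ≤ m * (2 ^ T / L) := mul_le_mul_of_nonneg_left h10 (by positivity)
          _ = m / L * 2 ^ T := by ring
          _ ≤ η / 4 * 2 ^ T := mul_le_mul_of_nonneg_right hLm (by positivity)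
      have h12 : (#{c ∈ range (2 ^ T) | P ((c : ℕ) : ℤ)} : ℝ) * (2 ^ j * 2 ^ j) ≤ η / 2 * 2 ^ T := by
        have e : (2 : ℝ) ^ j * 2 ^ j = 4 ^ j := by rw [← mul_pow]; norm_num
        rw [e]
        calc (#{c ∈ range (2 ^ T) | P ((c : ℕ) : ℤ)} : ℝ) * 4 ^ j ≤ (η / 2 / 4 ^ j * 2 ^ T) * 4 ^ j := by
              apply mul_le_mul_of_nonneg_right _ (by positivity)
              exact hc.trans (mul_le_mul_of_nonneg_right (min_le_left _ _) (by positivity))
          _ = η / 2 * 2 ^ T := by field_simp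
      have h13 : (m : ℝ) + 1 ≤ η / 4 * 2 ^ T := by
        have h14 : (2 : ℝ) ^ T0 ≤ 2 ^ T := pow_le_pow_right₀ (by norm_num) hTT
        nlinarith
      have e : (1 : ℝ) + m * (((2 ^ T / L : ℕ) : ℝ) + 1) = (m + 1) + m * ((2 ^ T / L : ℕ) : ℝ) := by ring
      rw [e] at h9
      linarith

theorem Spread.poly {x : ℕ → ℤ} (h : Spread x) {f : ℤ[X]} (hf : 1 ≤ f.natDegree) :
    Spread (fun n => f.eval (x n)) := by
  obtain ⟨δ, hδ, h1⟩ := h.spr
  exact (h1.poly hf).spread hδ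

end Pool.Agent.Y967.CM
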