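import Pool.Agent.W38.PRc
import Pool.Agent.Y967.CM.S

/-! The primes are spread. -/

set_option autoImplicit false

namespace Pool.Agent.Y967.CM

open Finset

theorem primeCounting_nth (N : ℕ) : Nat.primeCounting (Nat.nth Nat.Prime N) = N + 1 := by
  rw [Nat.primeCounting, Nat.primeCounting', Nat.count_succ,
    Nat.count_nth_of_infinite Nat.infinite_setOfPred_prime, if_pos (Nat.nth_mem_of_infinite Nat.infinite_setOfPred_prime N)]

open Classical in
theorem spr_prime : Spr (1 / 2) (fun n => ((Nat.nth Nat.Prime n : ℕ) : ℤ)) := by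
  obtain ⟨c0, hc0, hcheb⟩ := Pool.Agent.W38.PR.cheb
  refine Spr.of_count (C := 320 / c0 + 1) (by positivity) (N₀ := 1) (fun N hN T hT c => ?_)
  set X : ℝ := ((Nat.nth Nat.Prime N : ℕ) : ℝ) with hX
  have hNr : (1 : ℝ) ≤ N := by exact_mod_cast hN
  have h2T : (0 : ℝ) < 2 ^ T := by positivity
  have hXN : (N : ℝ) ≤ X := by
    have h1 : N ≤ Nat.nth Nat.Prime N := Nat.le_nth (fun hf => absurd hf Nat.infinite_setOfPred_prime)
    rw [hX]; exact_mod_cast h1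
  have hprime : (Nat.nth Nat.Prime N).Prime := Nat.nth_mem_of_infinite Nat.infinite_setOfPred_prime N
  have hX2 : 2 ≤ X := by
    rw [hX]; exact_mod_cast hprime.two_le
  have hfl : ⌊X⌋₊ = Nat.nth Nat.Prime N := by rw [hX]; exact Nat.floor_natCast _
  rcases Nat.eq_zero_or_pos T with hT0 | hT0
  · have h1 : (#{n ∈ Icc 1 N | ((Nat.nth Nat.Prime n : ℕ) : ℤ) ≡ c [ZMOD 2 ^ T]} : ℝ) ≤ N := by
      have := card_filter_le (Icc 1 N) (fun n => ((Nat.nth Nat.Prime n : ℕ) : ℤ) ≡ c [ZMOD 2 ^ T])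
      rw [Nat.card_Icc, Nat.add_sub_cancel] at this
      exact_mod_cast this
    refine h1.trans ?_
    rw [hT0, pow_zero, div_one]
    have : (0 : ℝ) ≤ 320 / c0 * N := by positivity
    linarith
  · have hTX : (2 : ℝ) ^ T ≤ X ^ (1 / 2 : ℝ) :=
      hT.trans (Real.rpow_le_rpow (by positivity) hXN (by norm_num))
    have h1 := Pool.Agent.W38.PR.prime_classes hX2 hT0 hTX (fun y => y ≡ c [ZMOD 2 ^ T]) (by
      intro y m
      have e : y + m * 2 ^ T ≡ y [ZMOD 2 ^ T] := Int.modEq_iff_dvd.2 ⟨-m, by ring⟩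
      exact ⟨fun h => e.symm.trans h, fun h => e.trans h⟩)
    rw [hfl] at h1
    have h2 : #{a ∈ range (2 ^ T) | ((a : ℕ) : ℤ) ≡ c [ZMOD 2 ^ T]} ≤ 1 := by
      rw [card_le_one]
      intro a ha b hb
      rw [mem_filter, mem_range] at ha hb
      have h3 : ((a : ℕ) : ℤ) ≡ ((b : ℕ) : ℤ) [ZMOD ((2 ^ T : ℕ) : ℤ)] := by
        push_cast; exact ha.2.trans hb.2.symm
      have h4 : a % 2 ^ T = b % 2 ^ T := (Int.natCast_modEq_iff).1 h3
      rwa [Nat.mod_eq_of_lt ha.1, Nat.mod_eq_of_lt hb.1] at h4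
    have h3 : #{n ∈ Icc 1 N | ((Nat.nth Nat.Prime n : ℕ) : ℤ) ≡ c [ZMOD 2 ^ T]} ≤
        #{p ∈ Icc 1 (Nat.nth Nat.Prime N) | p.Prime ∧ ((p : ℕ) : ℤ) ≡ c [ZMOD 2 ^ T]} := by
      apply card_le_card_of_injOn (fun n => Nat.nth Nat.Prime n)
      · intro n hn
        rw [mem_coe, mem_filter, mem_Icc] at hn
        rw [mem_coe, mem_filter, mem_Icc]
        have hp : (Nat.nth Nat.Prime n).Prime := Nat.nth_mem_of_infinite Nat.infinite_setOfPred_prime n
        exact ⟨⟨hp.one_lt.le, Nat.nth_monotone Nat.infinite_setOfPred_prime hn.1.2⟩, hp, hn.2⟩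
      · intro n _ n' _ h
        exact Nat.nth_injective Nat.infinite_setOfPred_prime h
    have h4 := hcheb X hX2
    rw [hfl, primeCounting_nth] at h4
    have h5 : X / Real.log X ≤ 2 * N / c0 := by
      rw [le_div_iff₀ hc0]
      push_cast at h4
      linarith
    have hL : 0 < Real.log X := Real.log_pos (by linarith)
    have h6 : (#{a ∈ range (2 ^ T) | ((a : ℕ) : ℤ) ≡ c [ZMOD 2 ^ T]} : ℝ) ≤ 1 := by exact_mod_cast h2
    have h7 : (#{n ∈ Icc 1 N | ((Nat.nth Nat.Prime n : ℕ) : ℤ) ≡ c [ZMOD 2 ^ T]} : ℝ) ≤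
        #{p ∈ Icc 1 (Nat.nth Nat.Prime N) | p.Prime ∧ ((p : ℕ) : ℤ) ≡ c [ZMOD 2 ^ T]} := by
      exact_mod_cast h3
    calc (#{n ∈ Icc 1 N | ((Nat.nth Nat.Prime n : ℕ) : ℤ) ≡ c [ZMOD 2 ^ T]} : ℝ)
        ≤ 160 * (X / Real.log X) / 2 ^ T * #{a ∈ range (2 ^ T) | ((a : ℕ) : ℤ) ≡ c [ZMOD 2 ^ T]} := by
          refine h7.trans (le_trans (le_of_eq ?_) (h1.trans (le_of_eq ?_))) <;> congr!
      _ ≤ 160 * (X / Real.log X) / 2 ^ T * 1 := mul_le_mul_of_nonneg_left h6 (by positivity)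
      _ ≤ 160 * (2 * N / c0) / 2 ^ T * 1 := by gcongr
      _ = 320 / c0 * (N / 2 ^ T) := by field_simp; norm_num
      _ ≤ (320 / c0 + 1) * (N / 2 ^ T) := by
          apply mul_le_mul_of_nonneg_right _ (by positivity)
          linarith

end Pool.Agent.Y967.CM
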