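import Pool.Agent.Y967.CM.L
import Pool.Agent.W26.HN.B

/-! Merging of Syracuse orbits along spread sequences of integers. -/

set_option autoImplicit false

namespace Pool.Agent.Y967.CM.Z

open Finset Filter Topology Pool.Agent.Y967.CM

open Pool.Agent.H499R2.CO (Tz)
open Pool.Agent.H499R2.ND (Td)
open Pool.Agent.H499R2.LT (od od_add)
open Pool.Agent.W26.HN (Sy En E En_of_E E_of_En E_unique exists_E step Sy_odd od_even od_step)

theorem Tz_eq : Tz 1 = Td 1 := rfl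

theorem od_nonneg (k : ℕ) : ∀ x : ℤ, 0 ≤ od 1 k x := by
  induction k with
  | zero => intro x; simp [od]
  | succ k ih =>
    intro x
    rw [od]
    have := ih (Td 1 x)
    split_ifs <;> omega

theorem od_le (k : ℕ) : ∀ x : ℤ, od 1 k x ≤ k := by
  induction k with
  | zero => intro x; simp [od]
  | succ k ih =>
    intro x
    rw [od]
    have := ih (Td 1 x)
    push_cast
    split_ifs <;> omega

/-- the affine formula -/
theorem aff (k : ℕ) : ∀ x : ℤ, ∃ c : ℤ, 0 ≤ c ∧ c < 3 ^ k ∧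
    2 ^ k * (Td 1)^[k] x = 3 ^ (od 1 k x).toNat * x + c := by
  induction k with
  | zero => intro x; exact ⟨0, le_rfl, by norm_num, by simp [od]⟩
  | succ k ih =>
    intro x
    obtain ⟨c, h0, h1, h2⟩ := ih (Td 1 x)
    have hk : (od 1 k (Td 1 x)).toNat ≤ k := by have := od_le k (Td 1 x); omega
    rw [Function.iterate_succ_apply, pow_succ]
    rcases Int.emod_two_eq_zero_or_one x with hx | hx
    · have e1 : 2 * Td 1 x = x := by unfold Td; rw [if_pos hx]; omega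
      have e2 : od 1 (k + 1) x = od 1 k (Td 1 x) := by rw [od, if_pos hx, zero_add]
      refine ⟨2 * c, by omega, by omega, ?_⟩
      rw [e2]
      calc 2 ^ k * 2 * (Td 1)^[k] (Td 1 x) = 2 * (2 ^ k * (Td 1)^[k] (Td 1 x)) := by ring
        _ = 2 * (3 ^ (od 1 k (Td 1 x)).toNat * Td 1 x + c) := by rw [h2]
        _ = 3 ^ (od 1 k (Td 1 x)).toNat * (2 * Td 1 x) + 2 * c := by ring
        _ = _ := by rw [e1]
    · have e1 : 2 * Td 1 x = 3 * x + 1 := by unfold Td; rw [if_neg (by omega)]; omega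
      have e2 : (od 1 (k + 1) x).toNat = (od 1 k (Td 1 x)).toNat + 1 := by
        rw [od, if_neg (by omega)]
        have := od_nonneg k (Td 1 x)
        omega
      have h3 : (3 : ℤ) ^ (od 1 k (Td 1 x)).toNat ≤ 3 ^ k := pow_le_pow_right₀ (by norm_num) hk
      have h4 : (0 : ℤ) < 3 ^ (od 1 k (Td 1 x)).toNat := by positivity
      refine ⟨2 * c + 3 ^ (od 1 k (Td 1 x)).toNat, by omega, by omega, ?_⟩
      rw [e2]
      calc 2 ^ k * 2 * (Td 1)^[k] (Td 1 x) = 2 * (2 ^ k * (Td 1)^[k] (Td 1 x)) := by ring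
        _ = 2 * (3 ^ (od 1 k (Td 1 x)).toNat * Td 1 x + c) := by rw [h2]
        _ = 3 ^ (od 1 k (Td 1 x)).toNat * (2 * Td 1 x) + 2 * c := by ring
        _ = 3 ^ (od 1 k (Td 1 x)).toNat * (3 * x + 1) + 2 * c := by rw [e1]
        _ = _ := by ring

/-- the numbers of odd terms until the merging -/
theorem od_link {T i : ℕ} {x r : ℤ} (hm : (Td 1)^[T] (3 ^ i * x + r) = (Td 1)^[T] x)
    (hx : 3 ^ T * (1 + |r|) < |x|) : od 1 T (3 ^ i * x + r) + i = od 1 T x := by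
  obtain ⟨c, h0, h1, h2⟩ := aff T (3 ^ i * x + r)
  obtain ⟨c', h0', h1', h2'⟩ := aff T x
  rw [hm, h2'] at h2
  set a := (od 1 T (3 ^ i * x + r)).toNat with ha
  set b := (od 1 T x).toNat with hb
  have ha' : (a : ℤ) = od 1 T (3 ^ i * x + r) := by
    rw [ha]; have := od_nonneg T (3 ^ i * x + r); omega
  have hb' : (b : ℤ) = od 1 T x := by
    rw [hb]; have := od_nonneg T x; omega
  have haT : a ≤ T := by have := od_le T (3 ^ i * x + r); omega
  rw [← ha', ← hb']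
  by_contra hne
  have hne' : a + i ≠ b := by
    intro h; apply hne; exact_mod_cast h
  have key : (3 ^ (a + i) - 3 ^ b) * x = c' - c - 3 ^ a * r := by
    rw [pow_add]; linear_combination -h2
  have h3 : 1 ≤ |((3 : ℤ) ^ (a + i) - 3 ^ b)| := by
    apply Int.one_le_abs
    intro h
    have h4 : (3 : ℤ) ^ (a + i) = 3 ^ b := by linarith
    have h5 : (3 : ℕ) ^ (a + i) = 3 ^ b := by exact_mod_cast h4
    exact hne' (Nat.pow_right_injective (by norm_num) h5)
  have h4 : |(3 ^ (a + i) - 3 ^ b) * x| ≤ 3 ^ T * (1 + |r|) := by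
    rw [key]
    have h5 : |c' - c| ≤ 3 ^ T := by rw [abs_le]; constructor <;> omega
    have h6 : |(3 : ℤ) ^ a * r| ≤ 3 ^ T * |r| := by
      rw [abs_mul, abs_of_nonneg (by positivity : (0 : ℤ) ≤ 3 ^ a)]
      exact mul_le_mul_of_nonneg_right (pow_le_pow_right₀ (by norm_num) haT) (abs_nonneg _)
    calc |c' - c - 3 ^ a * r| ≤ |c' - c| + |3 ^ a * r| := abs_sub _ _
      _ ≤ 3 ^ T + 3 ^ T * |r| := add_le_add h5 h6
      _ = _ := by ring
  rw [abs_mul] at h4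
  have h7 : 1 * |x| ≤ |((3 : ℤ) ^ (a + i) - 3 ^ b)| * |x| := mul_le_mul_of_nonneg_right h3 (abs_nonneg _)
  linarith

/-- lower bound for the terms -/
theorem low {T : ℕ} {x : ℤ} {B : ℤ} (hx : 3 ^ T * (B + 1) ≤ |x|) (hB : 0 ≤ B) :
    ∀ j, j ≤ T → B < |(Td 1)^[j] x| ∨ B = |(Td 1)^[j] x| := by
  intro j hj
  obtain ⟨c, h0, h1, h2⟩ := aff j x
  have h3 : (1 : ℤ) ≤ 3 ^ (od 1 j x).toNat := one_le_pow₀ (by norm_num)
  have h4 : |x| ≤ |3 ^ (od 1 j x).toNat * x| := by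
    rw [abs_mul, abs_of_nonneg (by positivity : (0 : ℤ) ≤ 3 ^ (od 1 j x).toNat)]
    nlinarith [abs_nonneg x]
  have h5 : |3 ^ (od 1 j x).toNat * x| - c ≤ |2 ^ j * (Td 1)^[j] x| := by
    rw [h2]
    have := abs_sub_abs_le_abs_sub (3 ^ (od 1 j x).toNat * x) (-c)
    rw [sub_neg_eq_add, abs_neg, abs_of_nonneg h0] at this
    exact this
  rw [abs_mul (2 ^ j : ℤ) _, abs_of_nonneg (by positivity : (0 : ℤ) ≤ 2 ^ j)] at h5
  have h6 : (3 : ℤ) ^ j ≤ 3 ^ T := pow_le_pow_right₀ (by norm_num) hj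
  have h7 : (2 : ℤ) ^ j ≤ 3 ^ T := (pow_le_pow_left₀ (by norm_num) (by norm_num) j).trans h6
  have h8 : 3 ^ T * B ≤ 2 ^ j * |(Td 1)^[j] x| := by nlinarith
  have h9 : (0 : ℤ) < 2 ^ j := by positivity
  have h10 : 2 ^ j * B ≤ 2 ^ j * |(Td 1)^[j] x| := (mul_le_mul_of_nonneg_right h7 hB).trans h8
  have h11 := le_of_mul_le_mul_left h10 h9
  exact lt_or_eq_of_le h11

/-- The data at `n`. -/
def DZ (κ : ℝ) (x : ℕ → ℤ) (n : ℕ) : Prop :=
  ∃ T : ℕ, (T : ℝ) ≤ κ * Real.log n ∧ 3 ^ T * (3 + Real.exp (kap n)) ≤ |(x n : ℝ)| ∧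
    ∀ (i : ℕ) (r : ℤ), (i : ℝ) ≤ kap n → |(r : ℝ)| ≤ Real.exp (kap n) →
      (Td 1)^[T] (3 ^ i * x n + r) = (Td 1)^[T] (x n)

theorem size3 {δ : ℝ} (hδ : 0 < δ) : ∀ᶠ N : ℕ in atTop, ∀ (n T : ℕ), √ (N : ℝ) ≤ n → n ≤ N →
    (T : ℝ) ≤ δ / 16 * Real.log N →
    (3 : ℝ) ^ T * (3 + Real.exp (kap n)) ≤ 2 ^ ⌊δ / 2 * Real.log N⌋₊ := by
  have hll : Tendsto (fun N : ℕ => Real.log (Real.log N)) atTop atTop :=
    Real.tendsto_log_atTop.comp log_nat_tendsto
  filter_upwards [log_nat_tendsto.eventually_ge_atTop 16, log_nat_tendsto.eventually_ge_atTop ((40 / δ) ^ 2),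
    log_nat_tendsto.eventually_ge_atTop (80 / δ), hll.eventually_ge_atTop 2] with N h1 h2 h3 h4
  intro n T hn1 hn2 hT
  set L := Real.log N with hL
  have hN0 : (0 : ℝ) < N := by
    by_contra hcon
    have hN0' : (N : ℝ) = 0 := le_antisymm (not_lt.1 hcon) (Nat.cast_nonneg N)
    rw [hL, hN0', Real.log_zero] at h1
    norm_num at h1
  have hn0 : (0 : ℝ) < n := lt_of_lt_of_le (Real.sqrt_pos.2 hN0) hn1
  have hlogn1 : L / 2 ≤ Real.log n := by
    have := Real.log_le_log (Real.sqrt_pos.2 hN0) hn1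
    rw [Real.log_sqrt hN0.le] at this
    exact this
  have hlogn2 : Real.log n ≤ L := Real.log_le_log hn0 (by exact_mod_cast hn2)
  have hll1 : 1 ≤ Real.log (Real.log n) := by
    have h8 : √ L ≤ Real.log n := by
      refine le_trans ?_ hlogn1
      rw [Real.sqrt_le_left (by linarith)]
      nlinarith
    have h9 := Real.log_le_log (Real.sqrt_pos.2 (by linarith)) h8
    rw [Real.log_sqrt (by linarith)] at h9
    linarith
  have hk0 := kap_nonneg hll1
  have hk1 : kap n ≤ √ L := (kap_le hll1).trans (Real.sqrt_le_sqrt hlogn2)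
  have hsq : √ L * √ L = L := Real.mul_self_sqrt (by linarith)
  have hs40 : 40 / δ ≤ √ L := Real.le_sqrt_of_sq_le h2
  have hs0 : 0 ≤ √ L := Real.sqrt_nonneg _
  have h40 : 40 * √ L ≤ δ * L := by
    rw [div_le_iff₀ hδ] at hs40
    calc 40 * √ L ≤ (√ L * δ) * √ L := mul_le_mul_of_nonneg_right hs40 hs0
      _ = δ * (√ L * √ L) := by ring
      _ = δ * L := by rw [hsq]
  have h80 : 80 ≤ δ * L := by
    rw [div_le_iff₀ hδ] at h3
    linarith
  have e3 : (3 : ℝ) ^ T ≤ Real.exp (2 * (δ / 16 * L)) := by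
    have h5 : (3 : ℝ) ≤ Real.exp 2 := by
      have h6 := Real.exp_one_gt_d9
      have h7 : Real.exp 2 = Real.exp 1 * Real.exp 1 := by rw [← Real.exp_add]; norm_num
      rw [h7]; nlinarith
    calc (3 : ℝ) ^ T ≤ Real.exp 2 ^ T := pow_le_pow_left₀ (by norm_num) h5 T
      _ = Real.exp (T * 2) := (Real.exp_nat_mul 2 T).symm
      _ ≤ Real.exp (2 * (δ / 16 * L)) := Real.exp_le_exp.2 (by linarith)
  have hfl : δ / 2 * L < ⌊δ / 2 * L⌋₊ + 1 := Nat.lt_floor_add_one _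
  have l2 := Real.log_two_gt_d9
  have hR : Real.exp ((δ / 2 * L - 1) * Real.log 2) ≤ 2 ^ ⌊δ / 2 * L⌋₊ := by
    have e : (2 : ℝ) ^ ⌊δ / 2 * L⌋₊ = Real.exp ((⌊δ / 2 * L⌋₊ : ℝ) * Real.log 2) := by
      rw [Real.exp_nat_mul, Real.exp_log (by norm_num)]
    rw [e]
    apply Real.exp_le_exp.2
    apply mul_le_mul_of_nonneg_right _ (by linarith)
    linarith
  refine le_trans ?_ hR
  have g3 : (4 : ℝ) ≤ Real.exp 2 := by
    have h6 := Real.exp_one_gt_d9
    have h7 : Real.exp 2 = Real.exp 1 * Real.exp 1 := by rw [← Real.exp_add]; norm_num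
    rw [h7]; nlinarith
  have g4 : 3 + Real.exp (kap n) ≤ Real.exp (2 + √ L) := by
    rw [Real.exp_add]
    have h5 : Real.exp (kap n) ≤ Real.exp (√ L) := Real.exp_le_exp.2 hk1
    have h6 : 1 ≤ Real.exp (√ L) := Real.one_le_exp hs0
    nlinarith
  calc (3 : ℝ) ^ T * (3 + Real.exp (kap n)) ≤ Real.exp (2 * (δ / 16 * L)) * Real.exp (2 + √ L) :=
        mul_le_mul e3 g4 (by positivity) (Real.exp_pos _).le
    _ = Real.exp (2 * (δ / 16 * L) + (2 + √ L)) := (Real.exp_add _ _).symm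
    _ ≤ Real.exp ((δ / 2 * L - 1) * Real.log 2) := by
        apply Real.exp_le_exp.2
        nlinarith

open Classical in
theorem dz_small {δ : ℝ} (hδ : 0 < δ) {x : ℕ → ℤ} (h : Spr δ x) {κ : ℝ} (hκ : 0 < κ)
    {ε : ℝ} (hε : 0 < ε) : ∀ᶠ N : ℕ in atTop, (#{n ∈ Icc 1 N | ¬ DZ κ x n} : ℝ) ≤ ε * N := by
  set κ' : ℝ := min κ (δ / 16) with hκ'
  have hκ'0 : 0 < κ' := lt_min hκ (by positivity)
  filter_upwards [all_forms hδ h hκ'0 (show 0 < ε / 3 by positivity), h.large hδ (show 0 < ε / 3 by positivity),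
    sqrt_small (show 0 < ε / 3 by positivity), size3 hδ, eventually_ge_atTop 1] with N h1 h2 h3 h4 h5
  have hL : 0 ≤ Real.log N := Real.log_nonneg (by exact_mod_cast h5)
  have hsub : ({n ∈ Icc 1 N | ¬ DZ κ x n} : Finset ℕ) ⊆
      ({n ∈ Icc 1 N | ¬ ∀ (i : ℕ) (r : ℤ), (i : ℝ) ≤ kap n → |(r : ℝ)| ≤ Real.exp (kap n) →
        (Tz 1)^[⌊κ' * Real.log n⌋₊] (3 ^ i * x n + r) = (Tz 1)^[⌊κ' * Real.log n⌋₊] (x n)} ∪
      {n ∈ Icc 1 N | ¬ (2 ^ ⌊δ / 2 * Real.log N⌋₊ ≤ x n ∨ x n < -2 ^ ⌊δ / 2 * Real.log N⌋₊)}) ∪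
      {n ∈ Icc 1 N | ((n : ℕ) : ℝ) < √ (N : ℝ)} := by
    intro n hn
    rw [mem_filter] at hn
    rw [mem_union, mem_union, mem_filter, mem_filter, mem_filter]
    by_contra hcon
    rw [not_or, not_or] at hcon
    obtain ⟨⟨g1, g2⟩, g3⟩ := hcon
    have g1' : ∀ (i : ℕ) (r : ℤ), (i : ℝ) ≤ kap n → |(r : ℝ)| ≤ Real.exp (kap n) →
        (Tz 1)^[⌊κ' * Real.log n⌋₊] (3 ^ i * x n + r) = (Tz 1)^[⌊κ' * Real.log n⌋₊] (x n) := by
      by_contra hh
      exact g1 ⟨hn.1, hh⟩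
    have g2' : 2 ^ ⌊δ / 2 * Real.log N⌋₊ ≤ x n ∨ x n < -2 ^ ⌊δ / 2 * Real.log N⌋₊ := by
      by_contra hh
      exact g2 ⟨hn.1, hh⟩
    have g3' : √ (N : ℝ) ≤ n := by
      by_contra hh
      exact g3 ⟨hn.1, not_le.1 hh⟩
    have hnN : n ≤ N := (mem_Icc.1 hn.1).2
    have hn1 : 1 ≤ n := (mem_Icc.1 hn.1).1
    have hln : 0 ≤ Real.log n := Real.log_nonneg (by exact_mod_cast hn1)
    have hlnN : Real.log n ≤ Real.log N :=
      Real.log_le_log (by exact_mod_cast hn1) (by exact_mod_cast hnN)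
    have hTle : (⌊κ' * Real.log n⌋₊ : ℝ) ≤ κ' * Real.log n := Nat.floor_le (by positivity)
    apply hn.2
    refine ⟨⌊κ' * Real.log n⌋₊, hTle.trans (mul_le_mul_of_nonneg_right (min_le_left _ _) hln), ?_, g1'⟩
    have g4 := h4 n ⌊κ' * Real.log n⌋₊ g3' hnN (by
      refine hTle.trans ?_
      calc κ' * Real.log n ≤ δ / 16 * Real.log n := mul_le_mul_of_nonneg_right (min_le_right _ _) hln
        _ ≤ δ / 16 * Real.log N := mul_le_mul_of_nonneg_left hlnN (by positivity))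
    refine g4.trans ?_
    have g5 : (2 : ℤ) ^ ⌊δ / 2 * Real.log N⌋₊ ≤ |x n| := by
      rcases g2' with g | g
      · exact g.trans (le_abs_self _)
      · have := neg_le_abs (x n)
        linarith
    exact_mod_cast g5
  have h6 := ((card_le_card hsub).trans (card_union_le _ _)).trans (Nat.add_le_add_right (card_union_le _ _) _)
  have h7 : (#({n ∈ Icc 1 N | ¬ DZ κ x n} : Finset ℕ) : ℝ) ≤
      ((#{n ∈ Icc 1 N | ¬ ∀ (i : ℕ) (r : ℤ), (i : ℝ) ≤ kap n → |(r : ℝ)| ≤ Real.exp (kap n) →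
        (Tz 1)^[⌊κ' * Real.log n⌋₊] (3 ^ i * x n + r) = (Tz 1)^[⌊κ' * Real.log n⌋₊] (x n)} : ℝ) +
      #{n ∈ Icc 1 N | ¬ (2 ^ ⌊δ / 2 * Real.log N⌋₊ ≤ x n ∨ x n < -2 ^ ⌊δ / 2 * Real.log N⌋₊)}) +
      #{n ∈ Icc 1 N | ((n : ℕ) : ℝ) < √ (N : ℝ)} := by exact_mod_cast h6
  have h8 := small_card N
  linarith

/-! ### Syracuse orbits -/

/-- the odd number reached from `y` -/
theorem odd_part {y : ℤ} (hy : y ≠ 0) : ∃ (v : ℕ), (Td 1)^[v] y % 2 = 1 ∧
    (∀ i < v, (Td 1)^[i] y % 2 = 0) := by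
  obtain ⟨v, M, h1, h2⟩ := Pool.Agent.W26.HN.exists_pow _ y hy le_rfl
  refine ⟨v, ?_, fun i hi => ?_⟩
  · rw [h1, Pool.Agent.W26.HN.Td_pow v M v le_rfl, Nat.sub_self, pow_zero, one_mul]; exact h2
  · rw [h1, Pool.Agent.W26.HN.Td_pow v M i hi.le]
    obtain ⟨d, hd⟩ : ∃ d, v - i = d + 1 := ⟨v - i - 1, by omega⟩
    rw [hd, pow_succ]
    have : (2 : ℤ) ^ d * 2 * M = 2 * (2 ^ d * M) := by ring
    omega

/-- an odd term of the trajectory of an odd number is a term of its Syracuse orbit -/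
theorem Sy_of_Td (k : ℕ) : ∀ x : ℤ, x % 2 = 1 → (Td 1)^[k] x % 2 = 1 →
    Sy^[(od 1 k x).toNat] x = (Td 1)^[k] x := by
  induction k using Nat.strong_induction_on with
  | _ k ih =>
    intro x hx hk
    rcases Nat.eq_zero_or_pos k with h0 | h0
    · subst h0; simp [od]
    · obtain ⟨v, hv, h1, h2, h3⟩ := step hx
      have hvk : v ≤ k := by
        by_contra hlt
        have h4 := h2 k h0 (by omega)
        omega
      have e : k = v + (k - v) := by omega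
      have h5 := ih (k - v) (by omega) (Sy x) h3 (by
        rw [← h1, ← Function.iterate_add_apply, Nat.sub_add_cancel hvk]; exact hk)
      have h6 : od 1 k x = 1 + od 1 (k - v) (Sy x) := by
        conv_lhs => rw [e]
        rw [od_add, od_step hx hv h2, h1]
      have h7 := od_nonneg (k - v) (Sy x)
      have h8 : (od 1 k x).toNat = (od 1 (k - v) (Sy x)).toNat + 1 := by omega
      rw [h8, Function.iterate_succ_apply, h5, ← h1, ← Function.iterate_add_apply,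
        Nat.sub_add_cancel hvk]

/-- merging of the Syracuse orbits -/
theorem Sy_merge {x z : ℤ} (hx : x % 2 = 1) (hz : z % 2 = 1) {a b : ℕ}
    (h : (Td 1)^[a] z = (Td 1)^[b] x) (h0 : (Td 1)^[b] x ≠ 0) :
    Sy^[(od 1 a z).toNat] z = Sy^[(od 1 b x).toNat] x := by
  obtain ⟨v, h1, h2⟩ := odd_part h0
  have e1 : od 1 (a + v) z = od 1 a z := by
    rw [od_add, h, od_even v _ h2, add_zero]
  have e2 : od 1 (b + v) x = od 1 b x := by
    rw [od_add, od_even v _ h2, add_zero]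
  have e3 := Sy_of_Td (a + v) z hz (by rw [Nat.add_comm, Function.iterate_add_apply, h]; exact h1)
  have e4 := Sy_of_Td (b + v) x hx (by rw [Nat.add_comm, Function.iterate_add_apply]; exact h1)
  rw [e1] at e3
  rw [e2] at e4
  rw [e3, e4, Nat.add_comm a v, Nat.add_comm b v, Function.iterate_add_apply,
    Function.iterate_add_apply, h]

theorem pass_Z {κ : ℝ} {x : ℕ → ℤ} {n : ℕ} (hD : DZ κ x n) : ∃ T : ℕ, (T : ℝ) ≤ κ * Real.log n ∧
    Real.exp (kap n) < |(((Td 1)^[T] (x n) : ℤ) : ℝ)| ∧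
    ∀ (z : ℤ) (k i : ℕ) (r : ℤ), (i : ℝ) ≤ kap n → |(r : ℝ)| ≤ Real.exp (kap n) →
      (Td 1)^[k] z = 3 ^ i * x n + r → (Td 1)^[k + T] z = (Td 1)^[T] (x n) ∧
        od 1 (k + T) z + i = od 1 k z + od 1 T (x n) := by
  obtain ⟨T, hT, hsize, hm⟩ := hD
  set E := ⌊Real.exp (kap n)⌋ with hE
  have hE0 : 0 ≤ E := Int.floor_nonneg.2 (Real.exp_pos _).le
  have hE1 : (E : ℝ) ≤ Real.exp (kap n) := Int.floor_le _
  have hE2 : Real.exp (kap n) < E + 1 := Int.lt_floor_add_one _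
  have hx : 3 ^ T * (E + 3) ≤ |x n| := by
    have h3 : (0 : ℝ) < 3 ^ T := by positivity
    have : (3 : ℝ) ^ T * (E + 3) ≤ |(x n : ℝ)| := by
      refine le_trans ?_ hsize
      apply mul_le_mul_of_nonneg_left _ h3.le
      linarith
    exact_mod_cast this
  have hlow := low (T := T) (x := x n) (B := E + 2) (by
    have e : E + 2 + 1 = E + 3 := by ring
    rw [e]; exact hx) (by omega) T le_rfl
  have hlow' : E + 2 ≤ |(Td 1)^[T] (x n)| := by rcases hlow with h | h <;> omega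
  refine ⟨T, hT, ?_, fun z k i r hi hr hz => ?_⟩
  · have : ((E + 2 : ℤ) : ℝ) ≤ |(((Td 1)^[T] (x n) : ℤ) : ℝ)| := by exact_mod_cast hlow'
    push_cast at this
    linarith
  · have h1 := hm i r hi hr
    have hrE : |r| ≤ E := by
      rw [hE, Int.le_floor]
      push_cast
      exact hr
    have h2 := od_link h1 (by
      have h3 : (0 : ℤ) < 3 ^ T := by positivity
      nlinarith)
    constructor
    · rw [Nat.add_comm, Function.iterate_add_apply, hz, h1]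
    · rw [od_add, hz, add_assoc, h2]

theorem abs_Td_even {x : ℤ} (hx : x % 2 = 0) : |Td 1 x| ≤ |x| := by
  unfold Td
  rw [if_pos hx]
  rcases abs_cases x with ⟨h1, h2⟩ | ⟨h1, h2⟩ <;> rcases abs_cases (x / 2) with ⟨h3, h4⟩ | ⟨h3, h4⟩ <;> omega

theorem abs_Td (x : ℤ) : |Td 1 x| ≤ 2 * |x| + 1 := by
  unfold Td
  split_ifs
  · rcases abs_cases x with ⟨h1, h2⟩ | ⟨h1, h2⟩ <;> rcases abs_cases (x / 2) with ⟨h3, h4⟩ | ⟨h3, h4⟩ <;>
      omega
  · rcases abs_cases x with ⟨h1, h2⟩ | ⟨h1, h2⟩ <;>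
      rcases abs_cases ((3 * x + 1) / 2) with ⟨h3, h4⟩ | ⟨h3, h4⟩ <;> omega

/-- the trajectories of the elements of a finite closed set are bounded -/
theorem orbit_bound {F : Finset ℤ} (hF : ∀ y ∈ F, y % 2 = 1) (hS : ∀ y ∈ F, Sy y ∈ F) :
    ∃ B : ℤ, 0 ≤ B ∧ ∀ j : ℕ, ∀ y ∈ F, |(Td 1)^[j] y| ≤ B := by
  refine ⟨2 * ∑ f ∈ F, |f| + 1, by
    have : 0 ≤ ∑ f ∈ F, |f| := Finset.sum_nonneg fun f _ => abs_nonneg f
    omega, fun j => ?_⟩
  induction j using Nat.strong_induction_on with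
  | _ j ih =>
    intro y hy
    have hyB : |y| ≤ ∑ f ∈ F, |f| := Finset.single_le_sum (f := fun f : ℤ => |f|) (fun f _ => abs_nonneg f) hy
    obtain ⟨v, hv, h1, h2, h3⟩ := step (hF y hy)
    rcases Nat.lt_or_ge j v with h4 | h4
    · have key : ∀ i : ℕ, i < v → |(Td 1)^[i] y| ≤ 2 * |y| + 1 := by
        intro i
        induction i with
        | zero => intro _; rw [Function.iterate_zero, id]; have := abs_nonneg y; omega
        | succ i ihi =>
          intro hi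
          rw [Function.iterate_succ_apply']
          rcases Nat.eq_zero_or_pos i with h0 | h0
          · subst h0; exact abs_Td y
          · exact (abs_Td_even (h2 i h0 (by omega))).trans (ihi (by omega))
      have := key j h4
      omega
    · have h5 := ih (j - v) (by omega) (Sy y) (hS y hy)
      rw [← h1, ← Function.iterate_add_apply, Nat.sub_add_cancel h4] at h5
      exact h5

/-- entrance into `F` after a point outside the orbits of `F` -/
theorem En_iff {F : Finset ℤ} (hF : ∀ y ∈ F, y % 2 = 1) {B : ℤ} (hB : ∀ j : ℕ, ∀ y ∈ F, |(Td 1)^[j] y| ≤ B)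
    {z : ℤ} (hz : z % 2 = 1) {k : ℕ} (hk : B < |(Td 1)^[k] z|) (J : ℕ) :
    En F J z ↔ ∃ j : ℕ, (J : ℤ) = od 1 k z + od 1 j ((Td 1)^[k] z) ∧ E F j ((Td 1)^[k] z) := by
  have hno : ∀ l : ℕ, l ≤ k → (Td 1)^[l] z ∉ F := by
    intro l hl hlF
    have h1 := hB (k - l) _ hlF
    rw [← Function.iterate_add_apply, Nat.sub_add_cancel hl] at h1
    omega
  constructor
  · intro h
    obtain ⟨k', h1, h2⟩ := E_of_En hF J z hz h
    have hkk : k ≤ k' := by
      by_contra hc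
      exact hno k' (by omega) h2.1
    obtain ⟨j, rfl⟩ := Nat.exists_eq_add_of_le hkk
    refine ⟨j, by rw [h1, od_add], ?_, fun i hi => ?_⟩
    · have := h2.1
      rw [Nat.add_comm, Function.iterate_add_apply] at this
      exact this
    · have := h2.2 (k + i) (by omega)
      rw [Nat.add_comm, Function.iterate_add_apply] at this
      exact this
  · rintro ⟨j, h1, h2⟩
    have h3 : E F (k + j) z := by
      refine ⟨?_, fun i hi => ?_⟩
      · rw [Nat.add_comm, Function.iterate_add_apply]; exact h2.1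
      · rcases Nat.lt_or_ge i k with h4 | h4
        · exact hno i h4.le
        · obtain ⟨l, rfl⟩ := Nat.exists_eq_add_of_le h4
          rw [Nat.add_comm, Function.iterate_add_apply]
          exact h2.2 l (by omega)
    obtain ⟨j', h4, h5⟩ := En_of_E hF (k + j) z hz h3
    rw [od_add, ← h1] at h4
    have : j' = J := by exact_mod_cast h4
    rw [← this]; exact h5

theorem E_transfer {F : Finset ℤ} {j j' : ℕ} {y : ℤ} (h : E F j y) (h' : E F j' y) : j = j' :=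
  E_unique h h'

/-- the beginning of the trajectory of `2 ^ m c - 1` -/
theorem iter_ferm (c : ℤ) (m : ℕ) : ∀ j l : ℕ,
    (Td 1)^[j] (3 ^ l * 2 ^ (m + j) * c - 1) = 3 ^ (l + j) * 2 ^ m * c - 1 ∧
      od 1 j (3 ^ l * 2 ^ (m + j) * c - 1) = j := by
  intro j
  induction j with
  | zero => intro l; exact ⟨rfl, rfl⟩
  | succ j ih =>
    intro l
    have h2 : (3 : ℤ) ^ l * 2 ^ (m + (j + 1)) * c = 2 * (3 ^ l * 2 ^ (m + j) * c) := by ring
    have h3 : (3 : ℤ) ^ (l + 1) * 2 ^ (m + j) * c = 3 * (3 ^ l * 2 ^ (m + j) * c) := by ring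
    have e : Td 1 (3 ^ l * 2 ^ (m + (j + 1)) * c - 1) = 3 ^ (l + 1) * 2 ^ (m + j) * c - 1 := by
      rw [h2, h3]
      unfold Td
      rw [if_neg (by omega)]
      omega
    obtain ⟨g1, g2⟩ := ih (l + 1)
    constructor
    · rw [Function.iterate_succ_apply, e, g1, show l + 1 + j = l + (j + 1) by omega]
    · rw [od, e, g2, h2, if_neg (by omega)]
      push_cast
      ring

theorem ferm (c : ℤ) (m : ℕ) : (Td 1)^[m] (2 ^ m * c - 1) = 3 ^ m * c - 1 ∧ od 1 m (2 ^ m * c - 1) = m := by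
  have h := iter_ferm c 0 m 0
  simpa using h

end Pool.Agent.Y967.CM.Z
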