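import Pool.Agent.Y967.CM.U

/-! Farther neighbours of spread sequences have not merged. -/

set_option autoImplicit false

namespace Pool.Agent.Y967.CM

open Finset Filter Topology Pool.Agent.H499R2.CO Pool.Agent.W38.CR Pool.Agent.W38.AF

theorem level_eq {q : ℤ} (hq : 1 ≤ q ∨ q ≤ -2) {j1 j2 : ℕ} {c1 c2 : ℤ} (h1 : 0 ≤ c1)
    (h1' : c1 ≤ 3 ^ j1) (h2 : 0 ≤ c2) (h2' : c2 ≤ 3 ^ j2)
    (h : (3 : ℤ) ^ j1 * q + c1 = 3 ^ j2 * q + c2) : j1 = j2 := by
  have key : ∀ (j1 j2 : ℕ) (c1 c2 : ℤ), 0 ≤ c1 → c1 ≤ 3 ^ j1 → 0 ≤ c2 → c2 ≤ 3 ^ j2 →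
      (3 : ℤ) ^ j1 * q + c1 = 3 ^ j2 * q + c2 → ¬ j1 < j2 := by
    intro j1 j2 c1 c2 h1 h1' h2 h2' h hlt
    have p1 : (0 : ℤ) < 3 ^ j1 := by positivity
    have h3 : (3 : ℤ) ^ (j1 + 1) ≤ 3 ^ j2 := pow_le_pow_right₀ (by norm_num) hlt
    rw [pow_succ] at h3
    rcases hq with hq | hq
    · nlinarith
    · nlinarith
  rcases lt_trichotomy j1 j2 with hlt | heq | hgt
  · exact absurd hlt (key j1 j2 c1 c2 h1 h1' h2 h2' h)
  · exact heq
  · exact absurd hgt (key j2 j1 c2 c1 h2 h2' h1 h1' h.symm)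

/-- different levels: not merged -/
theorem nmz {k : ℕ} {y : ℤ} (hy : 2 ^ k ≤ y ∨ y < -2 ^ k) {A : ℕ × ℤ}
    (hA0 : 0 ≤ ev A (bv (cb k y))) (hA1 : ev A (-2 ^ k + bv (cb k y)) ≤ 0)
    (hne : (fl (cb k y) (0, 0)).1 ≠ (fl (cb k y) A).1) :
    (Tz 1)^[k] (ev A y) ≠ (Tz 1)^[k] y := by
  have hbv0 := bv_nonneg (cb k y)
  have hbv1 := bv_lt (cb k y)
  have hlen := length_cb k y
  rw [hlen] at hbv1
  have b1 := bounds (l := cb k y) (A := A) hA0 (by rw [hlen]; exact hA1)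
  have b0 := bounds (l := cb k y) (A := (0, 0)) (by rw [ev_zero]; exact hbv0)
    (by rw [ev_zero, hlen]; linarith)
  intro hcon
  apply hne
  have h2k : (0 : ℤ) < 2 ^ k := by positivity
  have hq : 1 ≤ y / 2 ^ k ∨ y / 2 ^ k ≤ -2 := by
    rcases hy with h | h
    · left
      rw [Int.le_ediv_iff_mul_le h2k]; linarith
    · right
      have h3 : y / 2 ^ k < -1 := by
        rw [Int.ediv_lt_iff_lt_mul h2k]; linarith
      omega
  have e0 := iter_cb k y (0, 0)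
  rw [ev_zero] at e0
  rw [iter_cb, e0] at hcon
  unfold ev at hcon
  exact level_eq hq b0.1 b0.2 b1.1 b1.2 hcon.symm

/-- close to zero modulo `2 ^ T` -/
def Near (k T : ℕ) (y : ℤ) : Prop := y % 2 ^ T < 2 ^ k ∨ 2 ^ T - 2 ^ k ≤ y % 2 ^ T

theorem near_periodic (k T : ℕ) (y m : ℤ) : Near k T (y + m * 2 ^ T) ↔ Near k T y := by
  unfold Near
  rw [Int.add_mul_emod_self_right]

theorem near_of {k T : ℕ} (hkT : k ≤ T) {y : ℤ} (h : ¬ (2 ^ k ≤ y ∨ y < -2 ^ k)) : Near k T y := by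
  rw [not_or, not_le, not_lt] at h
  obtain ⟨h1, h2⟩ := h
  have h2k : (0 : ℤ) < 2 ^ k := by positivity
  have h3 : (2 : ℤ) ^ k ≤ 2 ^ T := pow_le_pow_right₀ (by norm_num) hkT
  unfold Near
  by_cases h0 : 0 ≤ y
  · left
    rw [Int.emod_eq_of_lt h0 (by linarith)]
    exact h1
  · right
    have e : y % 2 ^ T = y + 2 ^ T := by
      rw [← Int.add_emod_right, Int.emod_eq_of_lt (by linarith) (by linarith)]
    rw [e]; linarith

open Classical in
theorem near_count {k T : ℕ} (hkT : k ≤ T) :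
    (#{c ∈ range (2 ^ T) | Near k T ((c : ℕ) : ℤ)} : ℝ) ≤ 2 * 2 ^ k := by
  have hk : 2 ^ k ≤ 2 ^ T := Nat.pow_le_pow_right (by norm_num) hkT
  have hsub : ({c ∈ range (2 ^ T) | Near k T ((c : ℕ) : ℤ)} : Finset ℕ) ⊆
      range (2 ^ k) ∪ Ico (2 ^ T - 2 ^ k) (2 ^ T) := by
    intro c hc
    rw [mem_filter, mem_range] at hc
    obtain ⟨hc1, hc2⟩ := hc
    rw [mem_union, mem_range, mem_Ico]
    unfold Near at hc2
    rw [Int.emod_eq_of_lt (by positivity) (by exact_mod_cast hc1)] at hc2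
    rcases hc2 with h | h
    · left; exact_mod_cast h
    · right
      refine ⟨?_, hc1⟩
      have h5 : ((2 ^ T : ℕ) : ℤ) - ((2 ^ k : ℕ) : ℤ) ≤ (c : ℤ) := by push_cast; exact h
      omega
  have h1 := (card_le_card hsub).trans (card_union_le _ _)
  rw [card_range, Nat.card_Ico] at h1
  have h2 : #({c ∈ range (2 ^ T) | Near k T ((c : ℕ) : ℤ)} : Finset ℕ) ≤ 2 * 2 ^ k := by omega
  exact_mod_cast h2

open Classical in
/-- Few of the `x n` are small. -/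
theorem Spr.large {δ : ℝ} (hδ : 0 < δ) {x : ℕ → ℤ} (h : Spr δ x) {ε : ℝ} (hε : 0 < ε) :
    ∀ᶠ N : ℕ in atTop, (#{n ∈ Icc 1 N | ¬ (2 ^ ⌊δ / 2 * Real.log N⌋₊ ≤ x n ∨
      x n < -2 ^ ⌊δ / 2 * Real.log N⌋₊)} : ℝ) ≤ ε * N := by
  obtain ⟨η, hη, N0, h1⟩ := h ε hε
  obtain ⟨a, ha⟩ := pow_unbounded_of_one_lt (2 / η) (show (1 : ℝ) < 2 by norm_num)
  rw [div_lt_iff₀ hη] at ha
  filter_upwards [eventually_ge_atTop N0, eventually_ge_atTop 1,
    log_nat_tendsto.eventually_ge_atTop (2 * a / δ)] with N hN hN1 hlog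
  rw [div_le_iff₀ hδ] at hlog
  set k := ⌊δ / 2 * Real.log N⌋₊ with hk
  have hL : 0 ≤ Real.log N := Real.log_nonneg (by exact_mod_cast hN1)
  have hkle : (k : ℝ) ≤ δ / 2 * Real.log N := Nat.floor_le (by positivity)
  have hT : (2 : ℝ) ^ (k + a) ≤ (N : ℝ) ^ δ := by
    apply two_pow_le hN1
    push_cast
    linarith
  have h2 := h1 N hN (k + a) hT (Near k (k + a)) (near_periodic k (k + a)) (by
    refine (near_count (Nat.le_add_right k a)).trans ?_
    rw [pow_add]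
    have : (0 : ℝ) < 2 ^ k := by positivity
    nlinarith)
  refine le_trans ?_ h2
  have h3 : ({n ∈ Icc 1 N | ¬ (2 ^ k ≤ x n ∨ x n < -2 ^ k)} : Finset ℕ) ⊆
      {n ∈ Icc 1 N | Near k (k + a) (x n)} := by
    intro n hn
    rw [mem_filter] at hn ⊢
    exact ⟨hn.1, near_of (Nat.le_add_right k a) hn.2⟩
  exact_mod_cast card_le_card h3

theorem sm3_nonneg (b : ℕ) (l : List Bool) : 0 ≤ sm3 b l := by unfold sm3; split_ifs <;> norm_num

theorem sm3_one {b : ℕ} {l : List Bool} (h : sm3 b l ≠ 0) : 1 ≤ sm3 b l := by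
  unfold sm3 at h ⊢
  split_ifs at h ⊢ with h1
  · exact le_rfl
  · exact (h rfl).elim

theorem same_one {u : ℕ} {l : List Bool} (h : same u l ≠ 0) : 1 ≤ same u l := by
  unfold same at h ⊢
  split_ifs at h ⊢ with h1
  · exact le_rfl
  · exact (h rfl).elim

open Classical in
/-- Powers of three far away. -/
theorem far3 {δ : ℝ} (hδ : 0 < δ) {x : ℕ → ℤ} (h : Spr δ x) {ε : ℝ} (hε : 0 < ε) :
    ∃ K : ℝ, 0 < K ∧ ∃ N₀ : ℕ, ∀ N : ℕ, N₀ ≤ N → ∀ i : ℕ, K * √ (Real.log N) ≤ i →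
      (#{n ∈ Icc 1 N | ∃ t : ℕ, t ≤ ⌊δ / 2 * Real.log N⌋₊ ∧
        (Tz 1)^[t] (3 ^ i * x n) = (Tz 1)^[t] (x n)} : ℝ) ≤ ε * N := by
  obtain ⟨η, hη, N0, h1⟩ := h.tr (show 0 < ε / 2 by positivity)
  obtain ⟨N1, hN1⟩ := eventually_atTop.1 (h.large hδ (show 0 < ε / 2 by positivity))
  refine ⟨1 + δ / η, by positivity, max (max N0 N1) 3, fun N hN i hi => ?_⟩
  have hNN0 : N0 ≤ N := (le_max_left _ _).trans ((le_max_left _ _).trans hN)
  have hNN1 : N1 ≤ N := (le_max_right _ _).trans ((le_max_left _ _).trans hN)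
  have hN3 : 3 ≤ N := (le_max_right _ _).trans hN
  have hNr : (3 : ℝ) ≤ N := by exact_mod_cast hN3
  set L := Real.log N with hL
  have hL0 : 0 < L := Real.log_pos (by linarith)
  set k := ⌊δ / 2 * L⌋₊ with hk
  have hkle : (k : ℝ) ≤ δ / 2 * L := Nat.floor_le (by positivity)
  have hT : (2 : ℝ) ^ k ≤ (N : ℝ) ^ δ := by
    apply two_pow_le (by omega)
    have : 0 < δ * L := by positivity
    linarith
  have hsq : √ L * √ L = L := Real.mul_self_sqrt hL0.le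
  have hsL : 0 < √ L := Real.sqrt_pos.2 hL0
  have hir : 0 < (i : ℝ) := lt_of_lt_of_le (by positivity) hi
  have hi1 : 1 ≤ i := by exact_mod_cast hir
  have hi2 : (1 + δ / η) * L ≤ (i : ℝ) ^ 2 := by
    have h5 : ((1 + δ / η) * √ L) ^ 2 ≤ (i : ℝ) ^ 2 := pow_le_pow_left₀ (by positivity) hi 2
    refine le_trans ?_ h5
    have h6 : 1 + δ / η ≤ (1 + δ / η) ^ 2 := by
      have : 0 < δ / η := by positivity
      nlinarith
    calc (1 + δ / η) * L ≤ (1 + δ / η) ^ 2 * L := mul_le_mul_of_nonneg_right h6 hL0.le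
      _ = ((1 + δ / η) * √ L) ^ 2 := by rw [mul_pow, sq (√ L), hsq]
  have hav : av k (sm3 i) ≤ η := by
    refine (av_sm3 hi1).trans ?_
    rw [div_le_iff₀ (by positivity)]
    have h5 : η * ((1 + δ / η) * L) ≤ η * (i : ℝ) ^ 2 := mul_le_mul_of_nonneg_left hi2 hη.le
    have h6 : η * ((1 + δ / η) * L) = η * L + δ * L := by field_simp
    have h7 : 0 < η * L := by positivity
    have h8 : 0 < δ * L := by positivity
    linarith
  have h2 := h1 N hNN0 k hT (sm3 i) (sm3_nonneg i) (fun l => sm3_one) hav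
  have h3 := hN1 N hNN1
  have hsub : ({n ∈ Icc 1 N | ∃ t : ℕ, t ≤ k ∧ (Tz 1)^[t] (3 ^ i * x n) = (Tz 1)^[t] (x n)} : Finset ℕ) ⊆
      {n ∈ Icc 1 N | sm3 i (cb k (x n)) ≠ 0} ∪ {n ∈ Icc 1 N | ¬ (2 ^ k ≤ x n ∨ x n < -2 ^ k)} := by
    intro n hn
    rw [mem_filter] at hn
    obtain ⟨hn1, t, ht, heq⟩ := hn
    rw [mem_union, mem_filter, mem_filter]
    by_contra hcon
    rw [not_or] at hcon
    obtain ⟨h4, h5⟩ := hcon
    have h4' : sm3 i (cb k (x n)) = 0 := by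
      by_contra h6
      exact h4 ⟨hn1, h6⟩
    have h5' : 2 ^ k ≤ x n ∨ x n < -2 ^ k := by
      by_contra h6
      exact h5 ⟨hn1, h6⟩
    have hne : (fl (cb k (x n)) (0, 0)).1 ≠ (fl (cb k (x n)) (i, 0)).1 := by
      intro h6
      unfold sm3 at h4'
      rw [if_pos h6] at h4'
      norm_num at h4'
    have hb0 := bv_nonneg (cb k (x n))
    have hb1 := bv_lt (cb k (x n))
    rw [length_cb] at hb1
    have h3u : (0 : ℤ) < 3 ^ i := by positivity
    have e1 : ∀ y : ℤ, ev ((i, 0) : ℕ × ℤ) y = 3 ^ i * y := fun y => by unfold ev; simp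
    refine nmz h5' (A := (i, 0)) (by rw [e1]; positivity) ?_ hne ?_
    · rw [e1]
      apply mul_nonpos_of_nonneg_of_nonpos h3u.le
      linarith
    · rw [e1]
      exact persist heq ht
  have h4 := (card_le_card hsub).trans (card_union_le _ _)
  have h5 : (#({n ∈ Icc 1 N | ∃ t : ℕ, t ≤ k ∧ (Tz 1)^[t] (3 ^ i * x n) = (Tz 1)^[t] (x n)} : Finset ℕ) : ℝ) ≤
      (#{n ∈ Icc 1 N | sm3 i (cb k (x n)) ≠ 0} : ℝ) + #{n ∈ Icc 1 N | ¬ (2 ^ k ≤ x n ∨ x n < -2 ^ k)} := by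
    exact_mod_cast h4
  linarith

theorem bv_append (l1 l2 : List Bool) : bv (l1 ++ l2) = bv l1 + 2 ^ l1.length * bv l2 := by
  induction l1 with
  | nil => simp [bv]
  | cons b l1 ih =>
    simp only [List.cons_append, bv, List.length_cons, ih, pow_succ]
    ring

open Classical in
/-- Shifts. -/
theorem farr {δ : ℝ} (hδ : 0 < δ) {x : ℕ → ℤ} (h : Spr δ x) {ε : ℝ} (hε : 0 < ε) :
    ∃ K : ℝ, 0 < K ∧ ∃ N₀ : ℕ, ∀ N : ℕ, N₀ ≤ N →
      (#{n ∈ Icc 1 N | ¬ ∃ r : ℕ, (r : ℝ) ≤ Real.exp (K * √ (Real.log N)) ∧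
        ∀ t : ℕ, t ≤ ⌊δ / 2 * Real.log N⌋₊ → (Tz 1)^[t] (x n + r) ≠ (Tz 1)^[t] (x n)} : ℝ) ≤ ε * N := by
  obtain ⟨η, hη, N0, h1⟩ := h.tr (show 0 < ε / 2 by positivity)
  obtain ⟨N1, hN1⟩ := eventually_atTop.1 (h.large hδ (show 0 < ε / 2 by positivity))
  obtain ⟨K, hK⟩ : ∃ K : ℝ, K = 2 + 8 * δ / η := ⟨_, rfl⟩
  have hK0 : 0 < K := by rw [hK]; positivity
  have hev : ∀ᶠ N : ℕ in atTop, (2 * (K + 2) / δ) ^ 2 + 1 ≤ Real.log N := log_nat_tendsto.eventually_ge_atTop _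
  obtain ⟨N2, hN2⟩ := eventually_atTop.1 hev
  refine ⟨K, hK0, max (max N0 N1) (max N2 3), fun N hN => ?_⟩
  have hNN0 : N0 ≤ N := (le_max_left _ _).trans ((le_max_left _ _).trans hN)
  have hNN1 : N1 ≤ N := (le_max_right _ _).trans ((le_max_left _ _).trans hN)
  have hNN2 : N2 ≤ N := (le_max_left _ _).trans ((le_max_right _ _).trans hN)
  have hN3 : 3 ≤ N := (le_max_right _ _).trans ((le_max_right _ _).trans hN)
  have hNr : (3 : ℝ) ≤ N := by exact_mod_cast hN3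
  have hlog := hN2 N hNN2
  set L := Real.log N with hL
  have hL1 : 1 ≤ L := by
    have : 0 ≤ (2 * (K + 2) / δ) ^ 2 := by positivity
    linarith
  have hL0 : 0 < L := by linarith
  set k := ⌊δ / 2 * L⌋₊ with hk
  have hkle : (k : ℝ) ≤ δ / 2 * L := Nat.floor_le (by positivity)
  have hkge : δ / 2 * L < k + 1 := Nat.lt_floor_add_one _
  have hT : (2 : ℝ) ^ k ≤ (N : ℝ) ^ δ := by
    apply two_pow_le (by omega)
    have : 0 < δ * L := by positivity
    linarith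
  have hsq : √ L * √ L = L := Real.mul_self_sqrt hL0.le
  have hsL1 : 1 ≤ √ L := Real.one_le_sqrt.2 hL1
  have hsL : 0 < √ L := by linarith
  -- the number of steps
  set u := ⌊K * √ L⌋₊ with hu
  have hule : (u : ℝ) ≤ K * √ L := Nat.floor_le (by positivity)
  have huge : K * √ L < u + 1 := Nat.lt_floor_add_one _
  have hK2 : 2 ≤ K := by
    rw [hK]
    have : 0 < 8 * δ / η := by positivity
    linarith
  have hu2 : K / 2 * √ L ≤ u := by nlinarith
  have hu0 : (0 : ℝ) < u := lt_of_lt_of_le (by positivity) hu2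
  have hu1 : 1 ≤ u := by exact_mod_cast hu0
  have huk : u ≤ k := by
    have h5 : 2 * (K + 2) / δ ≤ √ L := by
      apply Real.le_sqrt_of_sq_le
      linarith
    rw [div_le_iff₀ hδ] at h5
    have h6 : (K + 2) * √ L ≤ δ / 2 * L := by
      calc (K + 2) * √ L = (2 * (K + 2)) / 2 * √ L := by ring
        _ ≤ (√ L * δ) / 2 * √ L := by
            apply mul_le_mul_of_nonneg_right _ hsL.le
            linarith
        _ = δ / 2 * (√ L * √ L) := by ring
        _ = δ / 2 * L := by rw [hsq]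
    have h7 : (u : ℝ) < k + 1 := by nlinarith
    have : u < k + 1 := by exact_mod_cast h7
    omega
  obtain ⟨k', hk'⟩ : ∃ k', k = u + k' := ⟨k - u, by omega⟩
  have hav : av k (same u) ≤ η := by
    rw [hk']
    refine (av_same hu1).trans ?_
    rw [div_le_iff₀ (by positivity)]
    have h5 : ((u : ℝ) + k') = k := by rw [hk']; push_cast; ring
    rw [h5]
    have h6 : (K / 2 * √ L) ^ 2 ≤ (u : ℝ) ^ 2 := pow_le_pow_left₀ (by positivity) hu2 2
    have h7 : (K / 2 * √ L) ^ 2 = (K / 2) ^ 2 * L := by rw [mul_pow, sq (√ L), hsq]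
    rw [h7] at h6
    have h8 : 2 * δ / η ≤ (K / 2) ^ 2 := by
      have h9 : 1 ≤ K / 2 := by linarith
      have h10 : K / 2 = 1 + 4 * δ / η := by rw [hK]; ring
      have h11 : 0 < δ / η := by positivity
      have h12 : 4 * δ / η = 4 * (δ / η) := by ring
      have h13 : 2 * δ / η = 2 * (δ / η) := by ring
      rw [h10, h12, h13]
      nlinarith
    rw [div_le_iff₀ hη] at h8
    calc 4 * (k : ℝ) ≤ 4 * (δ / 2 * L) := by linarith
      _ = 2 * δ * L := by ring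
      _ ≤ (K / 2) ^ 2 * η * L := mul_le_mul_of_nonneg_right h8 hL0.le
      _ = η * ((K / 2) ^ 2 * L) := by ring
      _ ≤ η * (u : ℝ) ^ 2 := mul_le_mul_of_nonneg_left h6 hη.le
  have h2 := h1 N hNN0 k hT (same u) (same_nonneg u) (fun l => same_one) hav
  have h3 := hN1 N hNN1
  have hsub : ({n ∈ Icc 1 N | ¬ ∃ r : ℕ, (r : ℝ) ≤ Real.exp (K * √ L) ∧
        ∀ t : ℕ, t ≤ k → (Tz 1)^[t] (x n + r) ≠ (Tz 1)^[t] (x n)} : Finset ℕ) ⊆
      {n ∈ Icc 1 N | same u (cb k (x n)) ≠ 0} ∪ {n ∈ Icc 1 N | ¬ (2 ^ k ≤ x n ∨ x n < -2 ^ k)} := by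
    intro n hn
    rw [mem_filter] at hn
    obtain ⟨hn1, hn2⟩ := hn
    rw [mem_union, mem_filter, mem_filter]
    by_contra hcon
    rw [not_or] at hcon
    obtain ⟨h4, h5⟩ := hcon
    have h4' : same u (cb k (x n)) = 0 := by
      by_contra h6
      exact h4 ⟨hn1, h6⟩
    have h5' : 2 ^ k ≤ x n ∨ x n < -2 ^ k := by
      by_contra h6
      exact h5 ⟨hn1, h6⟩
    apply hn2
    set l := cb k (x n) with hl
    have hlen : l.length = k := length_cb _ _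
    have hb0 := bv_nonneg (l.take u)
    have hb1 := bv_lt (l.take u)
    have hlt : (l.take u).length = u := by rw [List.length_take, hlen]; omega
    rw [hlt] at hb1
    obtain ⟨r, hh⟩ : ∃ h : ℕ, (h : ℤ) = 2 ^ u - bv (l.take u) :=
      ⟨(2 ^ u - bv (l.take u)).toNat, Int.toNat_of_nonneg (by linarith)⟩
    refine ⟨r, ?_, fun t ht heq => ?_⟩
    · have h1 : (r : ℝ) ≤ 2 ^ u := by
        have : (r : ℤ) ≤ 2 ^ u := by linarith
        exact_mod_cast this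
      refine h1.trans ?_
      calc (2 : ℝ) ^ u ≤ Real.exp 1 ^ u := by
            apply pow_le_pow_left₀ (by norm_num)
            have := Real.exp_one_gt_d9
            linarith
        _ = Real.exp u := by rw [← Real.exp_nat_mul, mul_one]
        _ ≤ _ := Real.exp_le_exp.2 hule
    · have hne : (fl l (0, 0)).1 ≠ (fl l (0, (r : ℤ))).1 := by
        intro h9
        unfold same at h4'
        rw [hh] at h9
        rw [if_pos h9] at h4'
        norm_num at h4'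
      have e1 : ∀ y : ℤ, ev ((0, (r : ℤ)) : ℕ × ℤ) y = y + r := fun y => by unfold ev; simp
      have hbl0 := bv_nonneg l
      have h4 : bv l = bv (l.take u) + 2 ^ u * bv (l.drop u) := by
        have h5 := bv_append (l.take u) (l.drop u)
        rw [List.take_append_drop, hlt] at h5
        exact h5
      have h6 := bv_lt (l.drop u)
      have h7 : (l.drop u).length = k' := by rw [List.length_drop, hlen]; omega
      rw [h7] at h6
      have h8 : bv l + r ≤ 2 ^ k := by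
        rw [h4, hh, hk', pow_add]
        have h2u : (0 : ℤ) < 2 ^ u := by positivity
        nlinarith
      refine nmz h5' (A := (0, (r : ℤ))) (by rw [e1, ← hl]; positivity) ?_ hne ?_
      · rw [e1, ← hl]
        linarith
      · rw [e1]
        exact persist heq ht
  have h4 := (card_le_card hsub).trans (card_union_le _ _)
  have h5 : (#({n ∈ Icc 1 N | ¬ ∃ r : ℕ, (r : ℝ) ≤ Real.exp (K * √ L) ∧
        ∀ t : ℕ, t ≤ k → (Tz 1)^[t] (x n + r) ≠ (Tz 1)^[t] (x n)} : Finset ℕ) : ℝ) ≤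
      (#{n ∈ Icc 1 N | same u (cb k (x n)) ≠ 0} : ℝ) + #{n ∈ Icc 1 N | ¬ (2 ^ k ≤ x n ∨ x n < -2 ^ k)} := by
    exact_mod_cast h4
  linarith

end Pool.Agent.Y967.CM
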