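import Pool.Agent.W38.AH
import Pool.Agent.Y967.CM.V

/-! Heights and stopping times along spread sequences. -/

set_option autoImplicit false

namespace Pool.Agent.Y967.CM

open Finset Filter Topology Pool.Agent.H499R2.CO Pool.Agent.W38.CR

open Pool.Agent.H499R2.ND (Tn IsHt)
open Pool.Agent.H499R2.LT (odn)
open Pool.Agent.H499R2.HL (H iter_upper iter_lower odn_add pow_le_of_hit ht_H)
open Pool.Agent.W38.AF (Tz_Tn odn_link H_after)

/-- The data at `n`. -/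
def Dat (κ : ℝ) (x : ℕ → ℕ) (n : ℕ) : Prop :=
  ∃ T : ℕ, (T : ℝ) ≤ κ * Real.log n ∧
    (∀ i : ℕ, (i : ℝ) ≤ kap n → (3 : ℝ) ^ i * 2 ^ T + 3 * Real.exp (kap n) ≤ x n) ∧
    ∀ (i : ℕ) (r : ℤ), (i : ℝ) ≤ kap n → |(r : ℝ)| ≤ Real.exp (kap n) →
      (Tz 1)^[T] (3 ^ i * (x n : ℤ) + r) = (Tz 1)^[T] (x n : ℤ)

theorem kap_nonneg {n : ℕ} (hn : 1 ≤ Real.log (Real.log n)) : 0 ≤ kap n := by
  unfold kap
  have : 0 < Real.log (Real.log n) := by linarith
  positivity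

theorem kap_le {n : ℕ} (hn : 1 ≤ Real.log (Real.log n)) : kap n ≤ √ (Real.log n) := by
  unfold kap
  exact div_le_self (Real.sqrt_nonneg _) (one_le_pow₀ hn)

theorem size_aux {δ : ℝ} (hδ : 0 < δ) : ∀ᶠ N : ℕ in atTop, ∀ (n T i : ℕ), √ (N : ℝ) ≤ n → n ≤ N →
    (T : ℝ) ≤ δ / 8 * Real.log N → (i : ℝ) ≤ kap n →
    (3 : ℝ) ^ i * 2 ^ T + 3 * Real.exp (kap n) ≤ 2 ^ ⌊δ / 2 * Real.log N⌋₊ := by
  have hll : Tendsto (fun N : ℕ => Real.log (Real.log N)) atTop atTop :=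
    Real.tendsto_log_atTop.comp log_nat_tendsto
  filter_upwards [log_nat_tendsto.eventually_ge_atTop 16, log_nat_tendsto.eventually_ge_atTop ((40 / δ) ^ 2),
    log_nat_tendsto.eventually_ge_atTop (80 / δ), hll.eventually_ge_atTop 2] with N h1 h2 h3 h4
  intro n T i hn1 hn2 hT hi
  set L := Real.log N with hL
  have hN0 : (0 : ℝ) < N := by
    by_contra hcon
    have hN0' : (N : ℝ) = 0 := le_antisymm (not_lt.1 hcon) (Nat.cast_nonneg N)
    rw [hL, hN0', Real.log_zero] at h1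
    norm_num at h1
  have hn0 : (0 : ℝ) < n := lt_of_lt_of_le (Real.sqrt_pos.2 hN0) hn1
  have hlogn1 : L / 2 ≤ Real.log n := by
    have := Real.log_le_log (Real.sqrt_pos.2 hN0) hn1
    rw [Real.log_sqrt hN0.le] at this
    exact this
  have hlogn2 : Real.log n ≤ L := Real.log_le_log hn0 (by exact_mod_cast hn2)
  have hll1 : 1 ≤ Real.log (Real.log n) := by
    have h8 : √ L ≤ Real.log n := by
      refine le_trans ?_ hlogn1
      rw [Real.sqrt_le_left (by linarith)]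
      nlinarith
    have h9 := Real.log_le_log (Real.sqrt_pos.2 (by linarith)) h8
    rw [Real.log_sqrt (by linarith)] at h9
    linarith
  have hk0 := kap_nonneg hll1
  have hk1 : kap n ≤ √ L := (kap_le hll1).trans (Real.sqrt_le_sqrt hlogn2)
  have hsq : √ L * √ L = L := Real.mul_self_sqrt (by linarith)
  have hs40 : 40 / δ ≤ √ L := Real.le_sqrt_of_sq_le h2
  have hs0 : 0 ≤ √ L := Real.sqrt_nonneg _
  -- `40 √ L ≤ δ L`
  have h40 : 40 * √ L ≤ δ * L := by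
    rw [div_le_iff₀ hδ] at hs40
    calc 40 * √ L ≤ (√ L * δ) * √ L := mul_le_mul_of_nonneg_right hs40 hs0
      _ = δ * (√ L * √ L) := by ring
      _ = δ * L := by rw [hsq]
  have h80 : 80 ≤ δ * L := by
    rw [div_le_iff₀ hδ] at h3
    linarith
  have e3 : (3 : ℝ) ^ i ≤ Real.exp (2 * kap n) := by
    have h5 : (3 : ℝ) ≤ Real.exp 2 := by
      have h6 := Real.exp_one_gt_d9
      have h7 : Real.exp 2 = Real.exp 1 * Real.exp 1 := by rw [← Real.exp_add]; norm_num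
      rw [h7]; nlinarith
    calc (3 : ℝ) ^ i ≤ Real.exp 2 ^ i := pow_le_pow_left₀ (by norm_num) h5 i
      _ = Real.exp (i * 2) := (Real.exp_nat_mul 2 i).symm
      _ ≤ Real.exp (2 * kap n) := Real.exp_le_exp.2 (by linarith)
  have e2 : (2 : ℝ) ^ T ≤ Real.exp (δ / 8 * L) := by
    calc (2 : ℝ) ^ T ≤ Real.exp 1 ^ T :=
          pow_le_pow_left₀ (by norm_num) (by have := Real.exp_one_gt_d9; linarith) T
      _ = Real.exp T := by rw [← Real.exp_nat_mul, mul_one]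
      _ ≤ _ := Real.exp_le_exp.2 hT
  have hfl : δ / 2 * L < ⌊δ / 2 * L⌋₊ + 1 := Nat.lt_floor_add_one _
  have l2 := Real.log_two_gt_d9
  have hR : Real.exp ((δ / 2 * L - 1) * Real.log 2) ≤ 2 ^ ⌊δ / 2 * L⌋₊ := by
    have e : (2 : ℝ) ^ ⌊δ / 2 * L⌋₊ = Real.exp ((⌊δ / 2 * L⌋₊ : ℝ) * Real.log 2) := by
      rw [Real.exp_nat_mul, Real.exp_log (by norm_num)]
    rw [e]
    apply Real.exp_le_exp.2
    apply mul_le_mul_of_nonneg_right _ (by linarith)
    linarith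
  refine le_trans ?_ hR
  have g1 : (3 : ℝ) ^ i * 2 ^ T ≤ Real.exp (2 * √ L + δ / 8 * L) := by
    rw [Real.exp_add]
    apply mul_le_mul _ e2 (by positivity) (Real.exp_pos _).le
    exact e3.trans (Real.exp_le_exp.2 (by linarith))
  have g2 : 3 * Real.exp (kap n) ≤ 3 * Real.exp (2 * √ L + δ / 8 * L) := by
    apply mul_le_mul_of_nonneg_left _ (by norm_num)
    apply Real.exp_le_exp.2
    have : 0 ≤ δ / 8 * L := by positivity
    linarith
  have g3 : (4 : ℝ) ≤ Real.exp 2 := by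
    have h6 := Real.exp_one_gt_d9
    have h7 : Real.exp 2 = Real.exp 1 * Real.exp 1 := by rw [← Real.exp_add]; norm_num
    rw [h7]; nlinarith
  calc (3 : ℝ) ^ i * 2 ^ T + 3 * Real.exp (kap n) ≤ 4 * Real.exp (2 * √ L + δ / 8 * L) := by linarith
    _ ≤ Real.exp 2 * Real.exp (2 * √ L + δ / 8 * L) :=
        mul_le_mul_of_nonneg_right g3 (Real.exp_pos _).le
    _ = Real.exp (2 + (2 * √ L + δ / 8 * L)) := (Real.exp_add _ _).symm
    _ ≤ Real.exp ((δ / 2 * L - 1) * Real.log 2) := by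
        apply Real.exp_le_exp.2
        nlinarith

open Classical in
theorem dat_small {δ : ℝ} (hδ : 0 < δ) {x : ℕ → ℕ} (h : Spr δ (fun n => (x n : ℤ))) {κ : ℝ} (hκ : 0 < κ)
    {ε : ℝ} (hε : 0 < ε) : ∀ᶠ N : ℕ in atTop, (#{n ∈ Icc 1 N | ¬ Dat κ x n} : ℝ) ≤ ε * N := by
  set κ' : ℝ := min κ (δ / 8) with hκ'
  have hκ'0 : 0 < κ' := lt_min hκ (by positivity)
  filter_upwards [all_forms hδ h hκ'0 (show 0 < ε / 3 by positivity), h.large hδ (show 0 < ε / 3 by positivity),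
    sqrt_small (show 0 < ε / 3 by positivity), size_aux hδ, eventually_ge_atTop 1] with N h1 h2 h3 h4 h5
  have hL : 0 ≤ Real.log N := Real.log_nonneg (by exact_mod_cast h5)
  have hsub : ({n ∈ Icc 1 N | ¬ Dat κ x n} : Finset ℕ) ⊆
      ({n ∈ Icc 1 N | ¬ ∀ (i : ℕ) (r : ℤ), (i : ℝ) ≤ kap n → |(r : ℝ)| ≤ Real.exp (kap n) →
        (Tz 1)^[⌊κ' * Real.log n⌋₊] (3 ^ i * (x n : ℤ) + r) = (Tz 1)^[⌊κ' * Real.log n⌋₊] (x n : ℤ)} ∪
      {n ∈ Icc 1 N | ¬ (2 ^ ⌊δ / 2 * Real.log N⌋₊ ≤ (x n : ℤ) ∨ (x n : ℤ) < -2 ^ ⌊δ / 2 * Real.log N⌋₊)}) ∪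
      {n ∈ Icc 1 N | ((n : ℕ) : ℝ) < √ (N : ℝ)} := by
    intro n hn
    rw [mem_filter] at hn
    rw [mem_union, mem_union, mem_filter, mem_filter, mem_filter]
    by_contra hcon
    rw [not_or, not_or] at hcon
    obtain ⟨⟨g1, g2⟩, g3⟩ := hcon
    have g1' : ∀ (i : ℕ) (r : ℤ), (i : ℝ) ≤ kap n → |(r : ℝ)| ≤ Real.exp (kap n) →
        (Tz 1)^[⌊κ' * Real.log n⌋₊] (3 ^ i * (x n : ℤ) + r) = (Tz 1)^[⌊κ' * Real.log n⌋₊] (x n : ℤ) := by
      by_contra hh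
      exact g1 ⟨hn.1, hh⟩
    have g2' : 2 ^ ⌊δ / 2 * Real.log N⌋₊ ≤ (x n : ℤ) ∨ (x n : ℤ) < -2 ^ ⌊δ / 2 * Real.log N⌋₊ := by
      by_contra hh
      exact g2 ⟨hn.1, hh⟩
    have g3' : √ (N : ℝ) ≤ n := by
      by_contra hh
      exact g3 ⟨hn.1, not_le.1 hh⟩
    have hnN : n ≤ N := (mem_Icc.1 hn.1).2
    have hn1 : 1 ≤ n := (mem_Icc.1 hn.1).1
    have hln : 0 ≤ Real.log n := Real.log_nonneg (by exact_mod_cast hn1)
    have hlnN : Real.log n ≤ Real.log N :=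
      Real.log_le_log (by exact_mod_cast hn1) (by exact_mod_cast hnN)
    have hTle : (⌊κ' * Real.log n⌋₊ : ℝ) ≤ κ' * Real.log n := Nat.floor_le (by positivity)
    apply hn.2
    refine ⟨⌊κ' * Real.log n⌋₊, hTle.trans (mul_le_mul_of_nonneg_right (min_le_left _ _) hln), ?_, g1'⟩
    intro i hi
    have g4 := h4 n ⌊κ' * Real.log n⌋₊ i g3' hnN (by
      refine hTle.trans ?_
      calc κ' * Real.log n ≤ δ / 8 * Real.log n := mul_le_mul_of_nonneg_right (min_le_right _ _) hln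
        _ ≤ δ / 8 * Real.log N := mul_le_mul_of_nonneg_left hlnN (by positivity)) hi
    refine g4.trans ?_
    have g5 : (2 : ℤ) ^ ⌊δ / 2 * Real.log N⌋₊ ≤ (x n : ℤ) := by
      rcases g2' with g | g
      · exact g
      · exfalso
        have : (0 : ℤ) < 2 ^ ⌊δ / 2 * Real.log N⌋₊ := by positivity
        have : (0 : ℤ) ≤ (x n : ℤ) := Int.natCast_nonneg _
        linarith
    exact_mod_cast g5
  have h6 := ((card_le_card hsub).trans (card_union_le _ _)).trans (Nat.add_le_add_right (card_union_le _ _) _)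
  have h7 : (#({n ∈ Icc 1 N | ¬ Dat κ x n} : Finset ℕ) : ℝ) ≤
      ((#{n ∈ Icc 1 N | ¬ ∀ (i : ℕ) (r : ℤ), (i : ℝ) ≤ kap n → |(r : ℝ)| ≤ Real.exp (kap n) →
        (Tz 1)^[⌊κ' * Real.log n⌋₊] (3 ^ i * (x n : ℤ) + r) = (Tz 1)^[⌊κ' * Real.log n⌋₊] (x n : ℤ)} : ℝ) +
      #{n ∈ Icc 1 N | ¬ (2 ^ ⌊δ / 2 * Real.log N⌋₊ ≤ (x n : ℤ) ∨ (x n : ℤ) < -2 ^ ⌊δ / 2 * Real.log N⌋₊)}) +
      #{n ∈ Icc 1 N | ((n : ℕ) : ℝ) < √ (N : ℝ)} := by exact_mod_cast h6
  have h8 := small_card N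
  linarith

theorem one_orbit (j : ℕ) : Tn^[j] 1 ≤ 2 := by
  have h : ∀ j : ℕ, Tn^[j] 1 = 1 ∨ Tn^[j] 1 = 2 := by
    intro j
    induction j with
    | zero => left; rfl
    | succ j ih =>
      rw [Function.iterate_succ_apply']
      rcases ih with h | h
      · right; rw [h]; rfl
      · left; rw [h]; rfl
  rcases h j with h | h <;> omega

theorem H_pass {k z z' : ℕ} (h : Tn^[k] z = z') (h2 : 2 < z') (m : ℕ) :
    H m z ↔ ∃ j, m = k + j ∧ H j z' := by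
  have hlt : ∀ i, i < k → Tn^[i] z ≠ 1 := by
    intro i hi h5
    obtain ⟨d, rfl⟩ : ∃ d, k = d + i := ⟨k - i, by omega⟩
    rw [Function.iterate_add_apply, h5] at h
    have := one_orbit d
    omega
  constructor
  · intro hk
    have htk : k ≤ m := by
      by_contra hc
      exact hlt m (by omega) hk.1
    obtain ⟨j, rfl⟩ := Nat.exists_eq_add_of_le htk
    refine ⟨j, rfl, ?_, ?_⟩
    · have h5 := hk.1
      rw [Nat.add_comm, Function.iterate_add_apply, h] at h5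
      exact h5
    · intro i hi
      have h6 := hk.2 (k + i) (by omega)
      rw [Nat.add_comm, Function.iterate_add_apply, h] at h6
      exact h6
  · rintro ⟨j, rfl, hj⟩
    refine ⟨?_, ?_⟩
    · rw [Nat.add_comm, Function.iterate_add_apply, h]
      exact hj.1
    · intro i hi
      rcases Nat.lt_or_ge i k with h5 | h5
      · exact hlt i h5
      · obtain ⟨l, rfl⟩ := Nat.exists_eq_add_of_le h5
        rw [Nat.add_comm, Function.iterate_add_apply, h]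
        exact hj.2 l (by omega)

/-- What the data give for a trajectory which passes near `3 ^ i x n`. -/
theorem dat_pass {κ : ℝ} {x : ℕ → ℕ} {n : ℕ} (hD : Dat κ x n) (hk : 0 ≤ kap n) {z k i : ℕ}
    (hi : (i : ℝ) ≤ kap n)
    (hz : |(((Tn^[k] z : ℕ) : ℤ) - 3 ^ i * (x n : ℤ) : ℝ)| ≤ Real.exp (kap n)) :
    ∃ T : ℕ, (T : ℝ) ≤ κ * Real.log n ∧ Tn^[T] (Tn^[k] z) = Tn^[T] (x n) ∧
      2 ^ T < x n ∧ 2 ^ T < Tn^[k] z ∧ Tn^[k] z ≤ 3 ^ i * x n + ⌊Real.exp (kap n)⌋₊ ∧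
      odn T (Tn^[k] z) + i = odn T (x n) ∧
      (∀ m, H m z ↔ ∃ j, m = k + (T + j) ∧ H j (Tn^[T] (x n))) ∧
      (∀ m, H m (x n) ↔ ∃ j, m = T + j ∧ H j (Tn^[T] (x n))) := by
  obtain ⟨T, hT, hsize, hmerge⟩ := hD
  set z' := Tn^[k] z with hz'
  set E := ⌊Real.exp (kap n)⌋₊ with hE
  have hE1 : (E : ℝ) ≤ Real.exp (kap n) := Nat.floor_le (Real.exp_pos _).le
  have hEpos : 1 ≤ E := Nat.le_floor (by exact_mod_cast Real.one_le_exp hk)
  -- the difference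
  have hr : |(((z' : ℤ) - 3 ^ i * (x n : ℤ) : ℤ) : ℝ)| ≤ Real.exp (kap n) := by
    push_cast at hz ⊢
    exact hz
  have hrE : |(z' : ℤ) - 3 ^ i * (x n : ℤ)| ≤ E := by
    have h2 : ((z' : ℤ) - 3 ^ i * (x n : ℤ)).natAbs ≤ E := by
      apply Nat.le_floor
      rw [Nat.cast_natAbs, Int.cast_abs]
      exact hr
    rw [Int.abs_eq_natAbs]
    exact_mod_cast h2
  rw [abs_le] at hrE
  have hl1 : z' ≤ 3 ^ i * x n + E := by
    have : ((z' : ℕ) : ℤ) ≤ ((3 ^ i * x n + E : ℕ) : ℤ) := by push_cast; linarith [hrE.2]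
    exact_mod_cast this
  have hl2 : 3 ^ i * x n ≤ z' + E := by
    have : ((3 ^ i * x n : ℕ) : ℤ) ≤ ((z' + E : ℕ) : ℤ) := by push_cast; linarith [hrE.1]
    exact_mod_cast this
  -- sizes
  have hs : ∀ j : ℕ, (j : ℝ) ≤ kap n → 3 ^ j * 2 ^ T + 3 * E ≤ x n := by
    intro j hj
    have h1 := hsize j hj
    have h2 : ((3 ^ j * 2 ^ T + 3 * E : ℕ) : ℝ) ≤ ((x n : ℕ) : ℝ) := by
      push_cast
      linarith
    exact_mod_cast h2
  have hs0 := hs 0 (by rw [Nat.cast_zero]; exact hk)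
  have hsi := hs i hi
  rw [pow_zero, one_mul] at hs0
  have hp3 : 1 ≤ 3 ^ i := Nat.one_le_pow _ _ (by norm_num)
  have hxz : x n ≤ z' + E := by
    have : x n ≤ 3 ^ i * x n := Nat.le_mul_of_pos_left _ (by positivity)
    omega
  have h2T : 1 ≤ 2 ^ T := Nat.one_le_two_pow
  have hx2 : 2 ^ T < x n := by omega
  have hz2 : 2 ^ T < z' := by omega
  have hz3 : 2 < z' := by omega
  -- merging
  have hm1 : Tn^[T] z' = Tn^[T] (x n) := by
    have h1 := hmerge i ((z' : ℤ) - 3 ^ i * (x n : ℤ)) hi hr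
    have e : 3 ^ i * (x n : ℤ) + ((z' : ℤ) - 3 ^ i * (x n : ℤ)) = (z' : ℤ) := by ring
    rw [e, Tz_Tn, Tz_Tn] at h1
    exact_mod_cast h1
  have hod : odn (T + 0) z' + i = odn (T + 0) (x n) + 0 := by
    apply odn_link (t := T) (a := 0) (a' := 0) (b := 0) (b' := i) (m := z') (n := x n)
      (X := Tn^[T] (x n)) (E := E) hm1 rfl
    · rw [pow_zero, pow_zero, one_mul, one_mul, one_mul]; exact hl1
    · rw [pow_zero, pow_zero, one_mul, one_mul, one_mul]; exact hl2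
    · rw [pow_zero, one_mul]; exact hs0
    · exact hsi
  refine ⟨T, hT, hm1, hx2, hz2, hl1, by simpa using hod, fun m => ?_, fun m => ?_⟩
  · rw [H_pass (z' := z') rfl hz3]
    constructor
    · rintro ⟨j, rfl, hj⟩
      obtain ⟨j', rfl, hj'⟩ := (H_after hm1 hz2.le (by omega) j).1 hj
      exact ⟨j', rfl, hj'⟩
    · rintro ⟨j, rfl, hj⟩
      exact ⟨T + j, rfl, (H_after hm1 hz2.le (by omega) _).2 ⟨j, rfl, hj⟩⟩
  · exact H_after rfl hx2.le (by omega) m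

end Pool.Agent.Y967.CM
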