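import Pool.Agent.Y967.CM.S

/-! Exponentials of spread sequences. -/

set_option autoImplicit false

namespace Pool.Agent.Y967.CM

open Finset

theorem pow_two_pow {b : ℤ} (hb : b % 2 = 1) (T : ℕ) : (2 : ℤ) ^ T ∣ b ^ 2 ^ T - 1 := by
  induction T with
  | zero => simp
  | succ T ih =>
    have e : b ^ 2 ^ (T + 1) - 1 = (b ^ 2 ^ T - 1) * (b ^ 2 ^ T + 1) := by
      rw [pow_succ 2 T, pow_mul]; ring
    have h2 : (2 : ℤ) ∣ b ^ 2 ^ T + 1 := by
      have h3 : Odd b := Int.odd_iff.2 hb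
      have h4 : Odd (b ^ 2 ^ T) := h3.pow
      obtain ⟨c, hc⟩ := h4
      exact ⟨c + 1, by rw [hc]; ring⟩
    rw [e, pow_succ]
    exact mul_dvd_mul ih h2

theorem pow_shift {b : ℤ} (hb : b % 2 = 1) (T q : ℕ) : (2 : ℤ) ^ T ∣ b ^ (2 ^ T * q) - 1 := by
  rw [pow_mul]
  have h1 := sub_dvd_pow_sub_pow (b ^ 2 ^ T) 1 q
  rw [one_pow] at h1
  exact (pow_two_pow hb T).trans h1

theorem pow_mod_T {a b : ℤ} (hb : b % 2 = 1) (T e : ℕ) :
    ∃ m : ℤ, a * b ^ e = a * b ^ (e % 2 ^ T) + m * 2 ^ T := by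
  obtain ⟨c, hc⟩ := pow_shift hb T (e / 2 ^ T)
  refine ⟨a * b ^ (e % 2 ^ T) * c, ?_⟩
  have h1 : b ^ e = b ^ (e % 2 ^ T) * b ^ (2 ^ T * (e / 2 ^ T)) := by
    rw [← pow_add, Nat.mod_add_div]
  rw [h1]
  have h2 : b ^ (2 ^ T * (e / 2 ^ T)) = 1 + 2 ^ T * c := by linear_combination hc
  rw [h2]; ring

open Classical in
/-- If the exponents are spread, then so are the powers. -/
theorem spr_exp {δ : ℝ} {e : ℕ → ℕ} (h : Spr δ (fun n => (e n : ℤ))) {a b : ℤ} (ha : a ≠ 0)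
    (hb : b % 2 = 1) (hb1 : b ^ 2 ≠ 1) : Spr δ (fun n => a * b ^ (e n)) := by
  obtain ⟨C, hC, hpc⟩ := pow_count ha hb hb1
  intro ε hε
  obtain ⟨η, hη, N0, h1⟩ := h ε hε
  refine ⟨η / C, by positivity, N0, fun N hN T hT P hP hc => ?_⟩
  have h2T : (0 : ℤ) < 2 ^ T := by positivity
  have h2Tr : (0 : ℝ) < 2 ^ T := by positivity
  have key : ∀ k : ℕ, P (a * b ^ k) ↔ P (a * b ^ (k % 2 ^ T)) := by
    intro k
    obtain ⟨m, hm⟩ := pow_mod_T (a := a) hb T k
    rw [hm]; exact hP _ _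
  have h2 := h1 N hN T hT (fun z : ℤ => P (a * b ^ (z % 2 ^ T).toNat)) (fun y m => by
    rw [Int.add_mul_emod_self_right]) (by
    -- the number of exponents
    have h3 : #{c ∈ range (2 ^ T) | P (a * b ^ (((c : ℕ) : ℤ) % 2 ^ T).toNat)} ≤
        #{n ∈ Icc 1 (2 ^ T) | P (a * b ^ n)} := by
      apply card_le_card_of_injOn (fun c => if c = 0 then 2 ^ T else c)
      · intro c hc
        rw [mem_coe, mem_filter, mem_range] at hc
        obtain ⟨hc1, hc2⟩ := hc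
        have e1 : (((c : ℕ) : ℤ) % 2 ^ T).toNat = c := by
          rw [Int.emod_eq_of_lt (by positivity) (by exact_mod_cast hc1), Int.toNat_natCast]
        rw [e1] at hc2
        rw [mem_coe, mem_filter, mem_Icc]
        simp only
        split_ifs with h0
        · refine ⟨⟨Nat.one_le_two_pow, le_rfl⟩, ?_⟩
          rw [key, Nat.mod_self]
          rwa [h0] at hc2
        · exact ⟨⟨by omega, hc1.le⟩, hc2⟩
      · intro c hc d hd hcd
        rw [mem_coe, mem_filter, mem_range] at hc hd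
        simp only at hcd
        split_ifs at hcd <;> omega
    have h4 := periodic_count (fun n => a * b ^ n) (Icc 1 (2 ^ T)) (T := T) (B := C) (fun c => by
      have h5 := hpc (2 ^ T) T c le_rfl
      have e2 : C * (((2 ^ T : ℕ) : ℝ) / 2 ^ T) = C := by
        push_cast
        rw [div_self h2Tr.ne', mul_one]
      rw [e2] at h5
      exact h5) P hP
    have h5 : (#{c ∈ range (2 ^ T) | P (a * b ^ (((c : ℕ) : ℤ) % 2 ^ T).toNat)} : ℝ) ≤
        #{n ∈ Icc 1 (2 ^ T) | P (a * b ^ n)} := by exact_mod_cast h3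
    refine h5.trans (h4.trans ?_)
    calc C * (#{c ∈ range (2 ^ T) | P ((c : ℕ) : ℤ)} : ℝ) ≤ C * (η / C * 2 ^ T) :=
          mul_le_mul_of_nonneg_left hc hC.le
      _ = η * 2 ^ T := by field_simp)
  refine le_trans (le_of_eq ?_) h2
  congr 2
  ext n
  rw [mem_filter, mem_filter]
  have e3 : ((e n : ℤ) % 2 ^ T).toNat = e n % 2 ^ T := by
    have : (e n : ℤ) % 2 ^ T = ((e n % 2 ^ T : ℕ) : ℤ) := by push_cast; rfl
    rw [this, Int.toNat_natCast]
  simp only [e3, key (e n)]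

end Pool.Agent.Y967.CM
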