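import Pool.Agent.Y967.CM.D
import Pool.Agent.Y967.CM.E

/-! The total stopping time of the Collatz function along spread sequences. -/

set_option autoImplicit false

namespace Pool.Agent.Y967.CM.L

open Finset Filter Topology Pool.Agent.Y967.CM

open Pool.Agent.H499R2.ND (Tn)
open Pool.Agent.H499R2.LT (odn)
open Pool.Agent.H499R2.HL (H odn_add)

/-- the Collatz function -/
def C (n : ℕ) : ℕ := if n % 2 = 0 then n / 2 else 3 * n + 1

/-- `k` is the total stopping time -/
def HC (k n : ℕ) : Prop := C^[k] n = 1 ∧ ∀ i < k, C^[i] n ≠ 1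

/-- the total stopping time -/
noncomputable def l (n : ℕ) : ℕ∞ := sInf {k : ℕ∞ | ∃ j : ℕ, C^[j] n = 1 ∧ k = j}

theorem HC_succ {k n : ℕ} (h1 : n ≠ 1) (h : HC k (C n)) : HC (k + 1) n := by
  refine ⟨?_, ?_⟩
  · rw [Function.iterate_succ_apply]; exact h.1
  · intro i hi
    rcases i with _ | i
    · exact h1
    · rw [Function.iterate_succ_apply]; exact h.2 i (by omega)

theorem odn_one (n : ℕ) : odn 1 n = if n % 2 = 1 then 1 else 0 := by
  unfold odn
  rw [Finset.range_one, Finset.filter_singleton, Function.iterate_zero, id]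
  split_ifs <;> rfl

theorem HC_of_H (m : ℕ) : ∀ n : ℕ, 1 ≤ n → H m n → HC (m + odn m n) n := by
  induction m with
  | zero =>
    intro n _ h
    have e : odn 0 n = 0 := rfl
    rw [e]
    exact ⟨h.1, fun i hi => by omega⟩
  | succ m ih =>
    intro n hn h
    have h1 : n ≠ 1 := h.2 0 (by omega)
    have h2 : H m (Tn n) := by
      refine ⟨?_, fun i hi => ?_⟩
      · have := h.1
        rw [Function.iterate_succ_apply] at this
        exact this
      · have := h.2 (i + 1) (by omega)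
        rw [Function.iterate_succ_apply] at this
        exact this
    have e : odn (m + 1) n = odn 1 n + odn m (Tn n) := by
      rw [Nat.add_comm m 1, odn_add, Function.iterate_one]
    rcases Nat.mod_two_eq_zero_or_one n with h0 | h0
    · have e1 : C n = Tn n := by unfold C Tn; rw [if_pos h0, if_pos h0]
      have hT : 1 ≤ Tn n := by unfold Tn; rw [if_pos h0]; omega
      have h3 := ih (Tn n) hT h2
      rw [← e1] at h3
      have h4 := HC_succ h1 h3
      rw [e, odn_one, if_neg (by omega)]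
      have e2 : m + 1 + (0 + odn m (Tn n)) = m + odn m (C n) + 1 := by rw [e1]; ring
      rw [e2]; exact h4
    · have e1 : C (C n) = Tn n := by
        unfold C Tn
        rw [if_neg (by omega : ¬ n % 2 = 0), if_pos (by omega : (3 * n + 1) % 2 = 0),
          if_neg (by omega : ¬ n % 2 = 0)]
      have hT : 1 ≤ Tn n := by unfold Tn; rw [if_neg (by omega)]; omega
      have h3 := ih (Tn n) hT h2
      rw [← e1] at h3
      have h5 : C n ≠ 1 := by unfold C; rw [if_neg (by omega)]; omega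
      have h4 := HC_succ h1 (HC_succ h5 h3)
      rw [e, odn_one, if_pos h0]
      have e2 : m + 1 + (1 + odn m (Tn n)) = m + odn m (C (C n)) + 1 + 1 := by rw [e1]; ring
      rw [e2]; exact h4

theorem exists_Tn (k : ℕ) : ∀ n : ℕ, 1 ≤ n → C^[k] n = 1 → ∃ m, Tn^[m] n = 1 := by
  induction k using Nat.strong_induction_on with
  | _ k ih =>
    intro n hn h
    rcases k with _ | k
    · exact ⟨0, h⟩
    · rcases Nat.mod_two_eq_zero_or_one n with h0 | h0
      · rw [Function.iterate_succ_apply] at h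
        have e1 : C n = Tn n := by unfold C Tn; rw [if_pos h0, if_pos h0]
        have hT : 1 ≤ Tn n := by unfold Tn; rw [if_pos h0]; omega
        rw [e1] at h
        obtain ⟨m, hm⟩ := ih k (by omega) (Tn n) hT h
        exact ⟨m + 1, by rw [Function.iterate_succ_apply]; exact hm⟩
      · rcases k with _ | k
        · rw [Function.iterate_one] at h
          unfold C at h
          rw [if_neg (by omega)] at h
          omega
        · rw [Function.iterate_succ_apply, Function.iterate_succ_apply] at h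
          have e1 : C (C n) = Tn n := by
            unfold C Tn
            rw [if_neg (by omega : ¬ n % 2 = 0), if_pos (by omega : (3 * n + 1) % 2 = 0),
              if_neg (by omega : ¬ n % 2 = 0)]
          have hT : 1 ≤ Tn n := by unfold Tn; rw [if_neg (by omega)]; omega
          rw [e1] at h
          obtain ⟨m, hm⟩ := ih k (by omega) (Tn n) hT h
          exact ⟨m + 1, by rw [Function.iterate_succ_apply]; exact hm⟩

theorem exists_H {n k : ℕ} (hn : 1 ≤ n) (h : C^[k] n = 1) : ∃ m, H m n := by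
  classical
  have hex := exists_Tn k n hn h
  exact ⟨Nat.find hex, Nat.find_spec hex, fun i hi h1 => Nat.find_min hex hi h1⟩

theorem l_of_HC {x k : ℕ} (h : HC k x) : l x = k := by
  unfold l
  apply le_antisymm
  · exact sInf_le ⟨k, h.1, rfl⟩
  · refine le_sInf ?_
    rintro m ⟨j, hj, rfl⟩
    have : k ≤ j := by
      by_contra hlt
      exact h.2 j (by omega) hj
    exact_mod_cast this

theorem exists_HC {x j : ℕ} (h : C^[j] x = 1) : ∃ k, HC k x := by
  classical
  have hex : ∃ k, C^[k] x = 1 := ⟨j, h⟩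
  exact ⟨Nat.find hex, Nat.find_spec hex, fun i hi h1 => Nat.find_min hex hi h1⟩

theorem l_top {x : ℕ} (h : ¬ ∃ k, HC k x) : l x = ⊤ := by
  unfold l
  have : {k : ℕ∞ | ∃ j : ℕ, C^[j] x = 1 ∧ k = j} = ∅ := by
    rw [Set.eq_empty_iff_forall_notMem]
    rintro k ⟨j, hj1, _⟩
    exact h (exists_HC hj1)
  rw [this, sInf_empty]

theorem l_cases (x : ℕ) : (∃ k, HC k x ∧ l x = k) ∨ ((¬ ∃ k, HC k x) ∧ l x = ⊤) := by
  by_cases h : ∃ k, HC k x
  · left
    obtain ⟨k, hk⟩ := h
    exact ⟨k, hk, l_of_HC hk⟩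
  · right
    exact ⟨h, l_top h⟩

theorem l_eq_nat {x k : ℕ} (h : l x = k) : HC k x := by
  rcases l_cases x with ⟨k', h1, h2⟩ | ⟨h1, h2⟩
  · rw [h] at h2
    have : k = k' := by exact_mod_cast h2
    rw [this]; exact h1
  · rw [h] at h2
    exact absurd h2 (ENat.natCast_ne_top k)

theorem one_orbit (j : ℕ) : C^[j] 1 ≤ 4 := by
  have h : ∀ j : ℕ, C^[j] 1 = 1 ∨ C^[j] 1 = 2 ∨ C^[j] 1 = 4 := by
    intro j
    induction j with
    | zero => left; rfl
    | succ j ih =>
      rw [Function.iterate_succ_apply']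
      rcases ih with h | h | h
      · right; right; rw [h]; rfl
      · left; rw [h]; rfl
      · right; left; rw [h]; rfl
  rcases h j with h | h | h <;> omega

theorem l_pass {k z z' : ℕ} (h : C^[k] z = z') (h4 : 4 < z') : l z = k + l z' := by
  have hlt : ∀ i, i < k → C^[i] z ≠ 1 := by
    intro i hi h5
    obtain ⟨d, rfl⟩ : ∃ d, k = d + i := ⟨k - i, by omega⟩
    rw [Function.iterate_add_apply, h5] at h
    have := one_orbit d
    omega
  rcases l_cases z' with ⟨j, h1, h2⟩ | ⟨h1, h2⟩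
  · rw [h2]
    have h3 : HC (k + j) z := by
      refine ⟨?_, fun i hi => ?_⟩
      · rw [Nat.add_comm, Function.iterate_add_apply, h]; exact h1.1
      · rcases Nat.lt_or_ge i k with h5 | h5
        · exact hlt i h5
        · obtain ⟨l, rfl⟩ := Nat.exists_eq_add_of_le h5
          rw [Nat.add_comm, Function.iterate_add_apply, h]
          exact h1.2 l (by omega)
    rw [l_of_HC h3]
    push_cast
    rfl
  · rw [h2, add_top]
    apply l_top
    rintro ⟨m, hm⟩
    have htk : k ≤ m := by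
      by_contra hc
      exact hlt m (by omega) hm.1
    obtain ⟨j, rfl⟩ := Nat.exists_eq_add_of_le htk
    have h5 := hm.1
    rw [Nat.add_comm, Function.iterate_add_apply, h] at h5
    exact h1 (exists_HC h5)

/-- near `3 ^ i x n` -/
theorem l_near {κ : ℝ} {x : ℕ → ℕ} {n : ℕ} (hD : Dat κ x n) (hk : 1 ≤ kap n) {z i : ℕ}
    (hi : (i : ℝ) ≤ kap n) (hz : |(z : ℝ) - 3 ^ i * (x n : ℝ)| ≤ Real.exp (kap n)) :
    l z + i = l (x n) ∧ 4 < z ∧ 4 < x n := by
  have hk0 : 0 ≤ kap n := by linarith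
  have hz' : |(((Tn^[0] z : ℕ) : ℤ) - 3 ^ i * (x n : ℤ) : ℝ)| ≤ Real.exp (kap n) := by
    rw [Function.iterate_zero, id]
    push_cast
    exact hz
  have hE : (2 : ℝ) < Real.exp (kap n) := by
    have h1 : (2.7 : ℝ) < Real.exp 1 := by have := Real.exp_one_gt_d9; linarith
    have h2 := Real.exp_le_exp.2 hk
    linarith
  obtain ⟨T, -, hm, hx2, hz2, -, hod, h1, h2⟩ := dat_pass hD hk0 (z := z) (k := 0) hi hz'
  rw [Function.iterate_zero, id] at hm hz2 hod
  obtain ⟨T', -, hsize, -⟩ := hD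
  have hs := hsize i hi
  have hs0 := hsize 0 (by rw [Nat.cast_zero]; exact hk0)
  have hx5 : (4 : ℝ) < x n := by
    have h3 : (0 : ℝ) < 3 ^ 0 * 2 ^ T' := by positivity
    linarith
  have hz5 : (4 : ℝ) < z := by
    have h3 : (0 : ℝ) < 3 ^ 0 * 2 ^ T' := by positivity
    have h4 : (x n : ℝ) ≤ 3 ^ i * x n := by
      have h5 : (1 : ℝ) ≤ 3 ^ i := one_le_pow₀ (by norm_num)
      nlinarith
    have h6 := (abs_le.1 hz).1
    linarith
  refine ⟨?_, by exact_mod_cast hz5, by exact_mod_cast hx5⟩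
  have hz1 : 1 ≤ z := by
    have : 4 < z := by exact_mod_cast hz5
    omega
  have hx1 : 1 ≤ x n := by
    have : 4 < x n := by exact_mod_cast hx5
    omega
  by_cases hX : ∃ j, H j (Tn^[T] (x n))
  · obtain ⟨j, hj⟩ := hX
    have g1 := HC_of_H _ z hz1 ((h1 _).2 ⟨j, rfl, hj⟩)
    have g2 := HC_of_H _ (x n) hx1 ((h2 _).2 ⟨j, rfl, hj⟩)
    rw [l_of_HC g1, l_of_HC g2]
    have e1 : odn (0 + (T + j)) z = odn T z + odn j (Tn^[T] (x n)) := by
      rw [Nat.zero_add, odn_add, hm]
    have e2 : odn (T + j) (x n) = odn T (x n) + odn j (Tn^[T] (x n)) := by rw [odn_add]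
    rw [e1, e2]
    have : 0 + (T + j) + (odn T z + odn j (Tn^[T] (x n))) + i =
      T + j + (odn T (x n) + odn j (Tn^[T] (x n))) := by omega
    exact_mod_cast this
  · have g1 : ¬ ∃ m, HC m z := by
      rintro ⟨m, hm'⟩
      obtain ⟨m', hm''⟩ := exists_H hz1 hm'.1
      obtain ⟨j, -, hj⟩ := (h1 m').1 hm''
      exact hX ⟨j, hj⟩
    have g2 : ¬ ∃ m, HC m (x n) := by
      rintro ⟨m, hm'⟩
      obtain ⟨m', hm''⟩ := exists_H hx1 hm'.1
      obtain ⟨j, -, hj⟩ := (h2 m').1 hm''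
      exact hX ⟨j, hj⟩
    rw [l_top g1, l_top g2, top_add]

/-- the beginning of the trajectory of `2 ^ m a - 1` -/
theorem iter_mers (a : ℕ) (ha : 1 ≤ a) (m : ℕ) : ∀ j l : ℕ,
    C^[2 * j] (3 ^ l * 2 ^ (m + j) * a - 1) = 3 ^ (l + j) * 2 ^ m * a - 1 := by
  intro j
  induction j with
  | zero => intro l; rfl
  | succ j ih =>
    intro l
    have e : C (C (3 ^ l * 2 ^ (m + (j + 1)) * a - 1)) = 3 ^ (l + 1) * 2 ^ (m + j) * a - 1 := by
      have h1 : 1 ≤ 3 ^ l * 2 ^ (m + j) * a := Nat.one_le_iff_ne_zero.2 (by positivity)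
      have h2 : 3 ^ l * 2 ^ (m + (j + 1)) * a = 2 * (3 ^ l * 2 ^ (m + j) * a) := by ring
      have h3 : 3 ^ (l + 1) * 2 ^ (m + j) * a = 3 * (3 ^ l * 2 ^ (m + j) * a) := by ring
      rw [h2, h3]
      set A := 3 ^ l * 2 ^ (m + j) * a with hA
      have h4 : C (2 * A - 1) = 3 * (2 * A - 1) + 1 := by
        unfold C; rw [if_neg (by omega)]
      rw [h4]
      unfold C
      rw [if_pos (by omega)]
      omega
    have e2 : 2 * (j + 1) = 2 * j + 1 + 1 := by ring
    rw [e2, Function.iterate_succ_apply, Function.iterate_succ_apply, e, ih (l + 1),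
      show l + 1 + j = l + (j + 1) by omega]

theorem mers_pass {a : ℕ} (ha : 1 ≤ a) (m : ℕ) : C^[2 * m] (2 ^ m * a - 1) = 3 ^ m * a - 1 := by
  have h := iter_mers a ha 0 m 0
  simpa using h

/-- Mersenne type numbers -/
theorem mers_l {κ : ℝ} {a : ℕ} (ha : 1 ≤ a) {e : ℕ → ℕ} {n : ℕ} (hD : Dat κ (fun n => 3 ^ e n * a) n)
    (hk : 1 ≤ kap n) {j : ℕ} (hj : (j : ℝ) ≤ kap n) :
    l (3 ^ (e n + j) * a) + j = l (3 ^ e n * a) ∧
    l (2 ^ (e n + j) * a - 1) = 2 * e n + j + l (3 ^ e n * a) := by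
  have hE : (1 : ℝ) ≤ Real.exp (kap n) := Real.one_le_exp (by linarith)
  have h1 : l (3 ^ (e n + j) * a) + j = l (3 ^ e n * a) := by
    refine (l_near (x := fun n => 3 ^ e n * a) hD hk hj ?_).1
    push_cast
    have : (3 : ℝ) ^ (e n + j) * a - 3 ^ j * (3 ^ e n * a) = 0 := by rw [pow_add]; ring
    rw [this, abs_zero]
    linarith
  have h2 : l (3 ^ (e n + j) * a - 1) + j = l (3 ^ e n * a) ∧ 4 < 3 ^ (e n + j) * a - 1 := by
    have hge : 1 ≤ 3 ^ (e n + j) * a := Nat.one_le_iff_ne_zero.2 (by positivity)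
    obtain ⟨g1, g2, -⟩ := l_near (x := fun n => 3 ^ e n * a) (z := 3 ^ (e n + j) * a - 1) hD hk hj (by
      push_cast [Nat.cast_sub hge]
      have : (3 : ℝ) ^ (e n + j) * a - 1 - 3 ^ j * (3 ^ e n * a) = -1 := by rw [pow_add]; ring
      rw [this, abs_neg, abs_one]
      exact hE)
    exact ⟨g1, g2⟩
  refine ⟨h1, ?_⟩
  have h3 := l_pass (mers_pass ha (e n + j)) h2.2
  rw [h3]
  have h4 := h2.1
  rw [← h4]
  push_cast
  ring

/-! ### windows -/

theorem win : ∀ᶠ N : ℕ in atTop, ∀ n : ℕ, √ (N : ℝ) ≤ n → n ≤ N → kap N / 2 ≤ kap n ∧ kap n ≤ 2 * kap N := by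
  have hll : Tendsto (fun N : ℕ => Real.log (Real.log N)) atTop atTop :=
    Real.tendsto_log_atTop.comp log_nat_tendsto
  filter_upwards [hll.eventually_ge_atTop 100, log_nat_tendsto.eventually_ge_atTop 2,
    eventually_ge_atTop 1] with N h1 h2 h3 n hn1 hn2
  have hN0 : (0 : ℝ) < N := by exact_mod_cast h3
  have hn0 : (0 : ℝ) < n := lt_of_lt_of_le (Real.sqrt_pos.2 hN0) hn1
  set L := Real.log N with hL
  have a1 : L / 2 ≤ Real.log n := by
    have := Real.log_le_log (Real.sqrt_pos.2 hN0) hn1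
    rw [Real.log_sqrt hN0.le] at this
    exact this
  have a2 : Real.log n ≤ L := Real.log_le_log hn0 (by exact_mod_cast hn2)
  have a3 : Real.log L - 1 ≤ Real.log (Real.log n) := by
    have h4 := Real.log_le_log (by linarith) a1
    rw [Real.log_div (by linarith) (by norm_num)] at h4
    have := Real.log_two_lt_d9
    linarith
  have a4 : Real.log (Real.log n) ≤ Real.log L := Real.log_le_log (by linarith) a2
  set y := Real.log L with hy
  set x := Real.log (Real.log n) with hx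
  have hx0 : 0 < x := by linarith
  have hy0 : 0 < y := by linarith
  have b1 : √ L / 2 ≤ √ (Real.log n) := by
    apply Real.le_sqrt_of_sq_le
    rw [div_pow, Real.sq_sqrt (by linarith)]
    linarith
  have b2 : √ (Real.log n) ≤ √ L := Real.sqrt_le_sqrt a2
  unfold kap
  constructor
  · rw [div_div, div_le_div_iff₀ (by positivity) (by positivity)]
    have h5 : x ^ 17 ≤ y ^ 17 := pow_le_pow_left₀ hx0.le a4 17
    have h6 : 0 ≤ √ L := Real.sqrt_nonneg _
    calc √ L * x ^ 17 ≤ √ L * y ^ 17 := mul_le_mul_of_nonneg_left h5 h6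
      _ = (√ L / 2) * (y ^ 17 * 2) := by ring
      _ ≤ √ (Real.log n) * (y ^ 17 * 2) := mul_le_mul_of_nonneg_right b1 (by positivity)
  · have h5 : y ^ 17 ≤ 2 * x ^ 17 := by
      have h6 : (1 / 2 : ℝ) ≤ (1 - 1 / y) ^ 17 := by
        have h7 : (-2 : ℝ) ≤ -(1 / y) := by
          have : 1 / y ≤ 1 := by rw [div_le_one hy0]; linarith
          linarith
        have h8 := one_add_mul_le_pow h7 17
        have h9 : 1 / y ≤ 1 / 100 := by
          apply one_div_le_one_div_of_le (by norm_num) h1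
        push_cast at h8
        have e : 1 + -(1 / y) = 1 - 1 / y := by ring
        rw [e] at h8
        linarith
      have h10 : y * (1 - 1 / y) = y - 1 := by field_simp
      have h11 : (y - 1) ^ 17 ≤ x ^ 17 := pow_le_pow_left₀ (by linarith) a3 17
      have h12 : (y - 1) ^ 17 = y ^ 17 * (1 - 1 / y) ^ 17 := by rw [← mul_pow, h10]
      have h13 : 0 ≤ y ^ 17 := by positivity
      nlinarith
    rw [← mul_div_assoc, div_le_div_iff₀ (by positivity) (by positivity)]
    calc √ (Real.log n) * y ^ 17 ≤ √ L * (2 * x ^ 17) :=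
          mul_le_mul b2 h5 (by positivity) (Real.sqrt_nonneg _)
      _ = 2 * √ L * x ^ 17 := by ring

open Classical in
/-- A set which has few elements near each of its elements is small. -/
theorem blocks (B : Finset ℕ) (N U c : ℕ) (hU : 1 ≤ U) (hB : ∀ m ∈ B, m ≤ N)
    (h : ∀ m ∈ B, ∀ m' ∈ B, m ≤ m' → m' < m + U → m' < m + c) : #B * U ≤ c * (N + U) := by
  have h1 : #B = ∑ q ∈ range (N / U + 1), #{m ∈ B | m / U = q} := by
    apply Finset.card_eq_sum_card_fiberwise
    intro m hm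
    rw [Finset.mem_coe] at hm
    rw [Finset.mem_coe, mem_range]
    have h2 := Nat.div_le_div_right (c := U) (hB m hm)
    show m / U < N / U + 1
    exact Nat.lt_succ_of_le h2
  have h2 : ∀ q ∈ range (N / U + 1), #{m ∈ B | m / U = q} ≤ c := by
    intro q _
    rcases ({m ∈ B | m / U = q} : Finset ℕ).eq_empty_or_nonempty with h0 | h0
    · rw [h0]; simp
    · set m0 := ({m ∈ B | m / U = q} : Finset ℕ).min' h0 with hm0
      have hmem : m0 ∈ ({m ∈ B | m / U = q} : Finset ℕ) := Finset.min'_mem _ _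
      rw [mem_filter] at hmem
      have hsub : ({m ∈ B | m / U = q} : Finset ℕ) ⊆ Finset.Ico m0 (m0 + c) := by
        intro m hm
        have h3 : m0 ≤ m := Finset.min'_le _ _ hm
        rw [mem_filter] at hm
        rw [Finset.mem_Ico]
        refine ⟨h3, h m0 hmem.1 m hm.1 h3 ?_⟩
        have e1 := Nat.div_add_mod m U
        have e2 := Nat.div_add_mod m0 U
        have e3 := Nat.mod_lt m (by omega : U > 0)
        rw [hm.2] at e1
        rw [hmem.2] at e2
        omega
      have h4 := card_le_card hsub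
      rw [Nat.card_Ico] at h4
      omega
  have h3 : #B ≤ (N / U + 1) * c := by
    rw [h1]
    refine (sum_le_sum h2).trans ?_
    rw [sum_const, card_range, smul_eq_mul]
  have h4 : N / U * U ≤ N := Nat.div_mul_le_self N U
  calc #B * U ≤ (N / U + 1) * c * U := Nat.mul_le_mul_right _ h3
    _ = c * (N / U * U + U) := by ring
    _ ≤ c * (N + U) := Nat.mul_le_mul_left _ (by omega)

theorem kap_tendsto : Tendsto kap atTop atTop := by
  have hll : Tendsto (fun N : ℕ => Real.log (Real.log N)) atTop atTop :=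
    Real.tendsto_log_atTop.comp log_nat_tendsto
  have h1 : Tendsto (fun y : ℝ => Real.exp (y / 2) / (y / 2) ^ 17 * (1 / 2 ^ 17)) atTop atTop := by
    apply Tendsto.atTop_mul_const (by positivity)
    exact (Real.tendsto_exp_div_pow_atTop 17).comp (tendsto_id.atTop_div_const (by norm_num))
  refine (h1.comp hll).congr' ?_
  filter_upwards [log_nat_tendsto.eventually_ge_atTop 2] with N h2
  simp only [Function.comp]
  unfold kap
  set L := Real.log N with hL
  have hL0 : 0 < L := by linarith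
  have e1 : Real.exp (Real.log L / 2) = √ L := by
    rw [Real.sqrt_eq_rpow, Real.rpow_def_of_pos hL0]
    congr 1
    ring
  rw [e1, div_pow, div_div_eq_mul_div]
  ring

open Classical in
theorem gap {u : ℕ → ℕ∞} {G : ℕ → ℝ} {η : ℝ} (hη : 0 < η) (hG : ∀ᶠ m in atTop, G m + (1 + η) ≤ G (m + 1))
    {v : ℕ → ℕ} (hv : ∀ ε : ℝ, 0 < ε → ∀ᶠ m in atTop, (v m : ℝ) ≤ ε * kap m)
    (hu : ∀ ε : ℝ, 0 < ε → ∀ᶠ N : ℕ in atTop,
      (#{m ∈ Icc 1 N | ¬ ∀ j : ℕ, (j : ℝ) ≤ kap m → u (m + j) ≤ u m + j} : ℝ) ≤ ε * N)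
    {ε : ℝ} (hε : 0 < ε) : ∀ᶠ N : ℕ in atTop,
      (#{m ∈ Icc 1 N | ∃ k : ℕ, u m = k ∧ G m < k ∧ (k : ℝ) ≤ G (m + v m)} : ℝ) ≤ ε * N := by
  obtain ⟨m₀, hm₀⟩ := eventually_atTop.1 hG
  set ε₁ : ℝ := ε * η / (256 * (1 + η)) with hε₁
  have hε₁0 : 0 < ε₁ := by positivity
  obtain ⟨m₁, hm₁⟩ := eventually_atTop.1 (hv ε₁ hε₁0)
  have hGj : ∀ m, m₀ ≤ m → ∀ i : ℕ, G m + (1 + η) * i ≤ G (m + i) := by
    intro m hm i
    induction i with
    | zero => simp
    | succ i ih =>
      have := hm₀ (m + i) (by omega)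
      rw [← Nat.add_assoc]
      push_cast
      linarith
  have hsq : ∀ᶠ N : ℕ in atTop, ((max m₀ m₁ : ℕ) : ℝ) ≤ √ (N : ℝ) :=
    (Real.tendsto_sqrt_atTop.comp tendsto_natCast_atTop_atTop).eventually_ge_atTop _
  have hll : Tendsto (fun N : ℕ => Real.log (Real.log N)) atTop atTop :=
    Real.tendsto_log_atTop.comp log_nat_tendsto
  filter_upwards [hu (ε / 4) (by positivity), win, kap_tendsto.eventually_ge_atTop (max 8 (256 / ε)),
    sqrt_small (show 0 < ε / 4 by positivity), hsq, eventually_ge_atTop 1,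
    log_nat_tendsto.eventually_ge_atTop 1, hll.eventually_ge_atTop 1] with N h1 h2 h3 h4 h5 h6 h7 h8'
  set Kp := kap N with hKp
  have hK8 : 8 ≤ Kp := (le_max_left _ _).trans h3
  have hKε : 256 / ε ≤ Kp := (le_max_right _ _).trans h3
  set U := ⌊Kp / 2⌋₊ with hU
  have hU1 : (U : ℝ) ≤ Kp / 2 := Nat.floor_le (by linarith)
  have hU2 : Kp / 4 ≤ U := by
    have := Nat.lt_floor_add_one (Kp / 2)
    linarith
  have hU0 : 1 ≤ U := by
    have : (0 : ℝ) < U := by linarith
    exact_mod_cast this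
  have hUN : U ≤ N := by
    have a1 : Kp ≤ √ (Real.log N) * 1 := by
      rw [hKp]
      unfold kap
      rw [mul_one]
      exact div_le_self (Real.sqrt_nonneg _) (one_le_pow₀ h8')
    have a2 : √ (Real.log N) ≤ Real.log N := by
      rw [Real.sqrt_le_left (by linarith)]
      nlinarith
    have a3 : Real.log N ≤ N := (Real.log_le_sub_one_of_pos (by exact_mod_cast h6)).trans (by linarith)
    have a4 : (U : ℝ) ≤ N := by linarith
    exact_mod_cast a4
  set B : Finset ℕ := {m ∈ Icc 1 N | (∃ k : ℕ, u m = k ∧ G m < k ∧ (k : ℝ) ≤ G (m + v m)) ∧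
    (∀ j : ℕ, (j : ℝ) ≤ kap m → u (m + j) ≤ u m + j) ∧ √ (N : ℝ) ≤ m} with hBdef
  set c := ⌊(1 + η) / η * (2 * ε₁ * Kp)⌋₊ + 1 with hc
  have hcr : (c : ℝ) ≤ (1 + η) / η * (2 * ε₁ * Kp) + 1 := by
    rw [hc]; push_cast
    have := Nat.floor_le (show 0 ≤ (1 + η) / η * (2 * ε₁ * Kp) by positivity)
    linarith
  have hblocks := blocks B N U c hU0 (fun m hm => by
      rw [hBdef, mem_filter, mem_Icc] at hm; exact hm.1.2) (by
    intro m hm m' hm' hmm hlt
    rw [hBdef, mem_filter, mem_Icc] at hm hm'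
    obtain ⟨⟨_, hmN⟩, ⟨k, k1, k2, k3⟩, hgood, hms⟩ := hm
    obtain ⟨_, ⟨k', k1', k2', _⟩, _, _⟩ := hm'
    obtain ⟨j, rfl⟩ := Nat.exists_eq_add_of_le hmm
    obtain ⟨w1, w2⟩ := h2 m hms hmN
    have hj : (j : ℝ) ≤ kap m := by
      have : (j : ℝ) ≤ U := by exact_mod_cast (by omega : j ≤ U)
      linarith
    have h8 := hgood j hj
    rw [k1, k1'] at h8
    have h9 : k' ≤ k + j := by exact_mod_cast h8
    have h9' : (k' : ℝ) ≤ k + j := by exact_mod_cast h9
    have hmax : ((max m₀ m₁ : ℕ) : ℝ) ≤ m := h5.trans hms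
    have hmax' : max m₀ m₁ ≤ m := by exact_mod_cast hmax
    have hmm0 : m₀ ≤ m := (le_max_left _ _).trans hmax'
    have hmm1 : m₁ ≤ m := (le_max_right _ _).trans hmax'
    have hvm : (v m : ℝ) ≤ 2 * ε₁ * Kp := by
      calc (v m : ℝ) ≤ ε₁ * kap m := hm₁ m hmm1
        _ ≤ ε₁ * (2 * Kp) := mul_le_mul_of_nonneg_left w2 hε₁0.le
        _ = _ := by ring
    have hjc : (j : ℝ) ≤ (1 + η) / η * (2 * ε₁ * Kp) := by
      have hone : 1 ≤ (1 + η) / η := by rw [le_div_iff₀ hη]; linarith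
      rcases Nat.lt_or_ge (v m) j with hvj | hvj
      · obtain ⟨i, rfl⟩ := Nat.exists_eq_add_of_le hvj.le
        have h10 := hGj (m + v m) (by omega) i
        rw [← Nat.add_assoc] at k2'
        push_cast at h9' k2' ⊢
        have h11 : (1 + η) * i ≤ v m + i := by linarith
        have h12 : η * i ≤ v m := by linarith
        have h13 : (i : ℝ) ≤ v m / η := by rw [le_div_iff₀ hη]; linarith
        calc (v m : ℝ) + i ≤ v m + v m / η := by linarith
          _ = (1 + η) / η * v m := by field_simp; ring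
          _ ≤ (1 + η) / η * (2 * ε₁ * Kp) := by gcongr
      · have h14 : (j : ℝ) ≤ v m := by exact_mod_cast hvj
        have h15 : 0 ≤ 2 * ε₁ * Kp := by positivity
        nlinarith
    have h16 : j ≤ ⌊(1 + η) / η * (2 * ε₁ * Kp)⌋₊ := Nat.le_floor hjc
    omega)
  have hBr : (#B : ℝ) ≤ ε / 4 * N := by
    have h8 : (#B : ℝ) * U ≤ c * (N + U) := by exact_mod_cast hblocks
    have h9 : (U : ℝ) ≤ N := by exact_mod_cast hUN
    have h10 : (c : ℝ) ≤ ε / 8 * U := by
      have e1 : (1 + η) / η * (2 * ε₁ * Kp) = ε / 128 * Kp := by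
        rw [hε₁]; field_simp; ring
      rw [e1] at hcr
      have h11 : 1 ≤ ε / 256 * Kp := by
        rw [div_le_iff₀ hε] at hKε
        linarith
      have h12 : ε / 8 * (Kp / 4) ≤ ε / 8 * U := mul_le_mul_of_nonneg_left hU2 (by positivity)
      linarith
    have hUr : (0 : ℝ) < U := by exact_mod_cast hU0
    have h13 : (#B : ℝ) * U ≤ ε / 4 * N * U := by
      calc (#B : ℝ) * U ≤ c * (N + U) := h8
        _ ≤ c * (2 * N) := mul_le_mul_of_nonneg_left (by linarith) (Nat.cast_nonneg c)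
        _ ≤ ε / 8 * U * (2 * N) := mul_le_mul_of_nonneg_right h10 (by positivity)
        _ = ε / 4 * N * U := by ring
    exact le_of_mul_le_mul_right h13 hUr
  have hsub : ({m ∈ Icc 1 N | ∃ k : ℕ, u m = k ∧ G m < k ∧ (k : ℝ) ≤ G (m + v m)} : Finset ℕ) ⊆
      ({m ∈ Icc 1 N | ¬ ∀ j : ℕ, (j : ℝ) ≤ kap m → u (m + j) ≤ u m + j} ∪
      {m ∈ Icc 1 N | ((m : ℕ) : ℝ) < √ (N : ℝ)}) ∪ B := by
    intro m hm
    rw [mem_filter] at hm
    rw [mem_union, mem_union, mem_filter, mem_filter, hBdef, mem_filter]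
    by_cases h8 : ∀ j : ℕ, (j : ℝ) ≤ kap m → u (m + j) ≤ u m + j
    · by_cases h9 : √ (N : ℝ) ≤ m
      · right; exact ⟨hm.1, hm.2, h8, h9⟩
      · left; right; exact ⟨hm.1, not_le.1 h9⟩
    · left; left; exact ⟨hm.1, h8⟩
  have h8 := ((card_le_card hsub).trans (card_union_le _ _)).trans (Nat.add_le_add_right (card_union_le _ _) _)
  have h9 : (#({m ∈ Icc 1 N | ∃ k : ℕ, u m = k ∧ G m < k ∧ (k : ℝ) ≤ G (m + v m)} : Finset ℕ) : ℝ) ≤
      ((#{m ∈ Icc 1 N | ¬ ∀ j : ℕ, (j : ℝ) ≤ kap m → u (m + j) ≤ u m + j} : ℝ) +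
      #{m ∈ Icc 1 N | ((m : ℕ) : ℝ) < √ (N : ℝ)}) + #B := by exact_mod_cast h8
  have h10 := small_card N
  linarith

end Pool.Agent.Y967.CM.L
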