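import Pool.Agent.H499R2.CO.R2
import Pool.Agent.H499R2.CO.E
import Pool.Agent.Y967.CM.P

/-! The trajectories of `a * 3 ^ n`: the rate. -/

set_option autoImplicit false

namespace Pool.Agent.Y967.CM

open Finset Pool.Agent.H499R2.CO

theorem persist {α : Type*} {f : α → α} {a b : α} {t k : ℕ} (h : f^[t] a = f^[t] b) (htk : t ≤ k) :
    f^[k] a = f^[k] b := by
  obtain ⟨d, rfl⟩ : ∃ d, k = d + t := ⟨k - t, by omega⟩
  rw [Function.iterate_add_apply, Function.iterate_add_apply, h]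

open Classical in
theorem card_surv (T : ℕ) (s : ℕ × ℤ) :
    (#{c ∈ range (2 ^ T) | surv 1 T s ((c : ℕ) : ℤ)} : ℝ) = 2 ^ T * q step (0, 0) T s := by
  rw [← count_surv (d := 1) (by norm_num) T s, card_filter]
  push_cast
  rfl

open Classical in
/-- The pair `x`, `3 ^ i x + r` at `x = a b ^ n`. -/
theorem pair_rate {a b : ℤ} (ha : a ≠ 0) (hb : b % 2 = 1) (hb1 : b ^ 2 ≠ 1) : ∃ C : ℝ, 0 < C ∧
    ∀ N T : ℕ, 1 ≤ T → 2 ^ T ≤ N → ∀ (i u : ℕ) (r : ℤ), |(r : ℝ)| ≤ 4 ^ u →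
      (#{n ∈ Icc 1 N | surv 1 T (i, r) (a * b ^ n)} : ℝ) ≤ C * √ (1 + (i : ℝ) ^ 2 + u) * rho T * N := by
  obtain ⟨C0, hC0, h0⟩ := pow_count ha hb hb1
  obtain ⟨C1, hC1, h1⟩ := q_rate
  refine ⟨C0 * C1, by positivity, fun N T hT hN i u r hr => ?_⟩
  have h2 := periodic_count (fun n => a * b ^ n) (Icc 1 N) (T := T) (B := C0 * (N / 2 ^ T))
    (fun c => h0 N T c hN) (surv 1 T (i, r)) (fun y m => surv_periodic (by norm_num) T (i, r) y m)
  rw [card_surv] at h2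
  have h3 := h1 T hT i u r hr
  have h2T : (0 : ℝ) < 2 ^ T := by positivity
  calc (#{n ∈ Icc 1 N | surv 1 T (i, r) (a * b ^ n)} : ℝ)
      ≤ C0 * (N / 2 ^ T) * (2 ^ T * q step (0, 0) T (i, r)) := h2
    _ = C0 * N * q step (0, 0) T (i, r) := by field_simp
    _ ≤ C0 * N * (C1 * √ (1 + (i : ℝ) ^ 2 + u) * rho T) := mul_le_mul_of_nonneg_left h3 (by positivity)
    _ = _ := by ring

/-- After `T` steps the integers `3 ^ m a + r`, `|r| ≤ W`, and `3 ^ (m + 1) a` are at one point. -/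
def Good (a : ℤ) (T W m : ℕ) : Prop :=
  (Tz 1)^[T] (a * 3 ^ (m + 1)) = (Tz 1)^[T] (a * 3 ^ m) ∧
  ∀ r : ℤ, |r| ≤ W → (Tz 1)^[T] (a * 3 ^ m + r) = (Tz 1)^[T] (a * 3 ^ m)

theorem coal_T {T i : ℕ} {r x : ℤ} (h : ¬ surv 1 T (i, r) x) :
    (Tz 1)^[T] (3 ^ i * x + r) = (Tz 1)^[T] x := by
  obtain ⟨t, ht, h1⟩ := coal (d := 1) (by norm_num) T i r x h
  rw [one_mul] at h1
  exact (persist h1 ht).symm

theorem good_of {a : ℤ} {T W m : ℕ} (h1 : ¬ surv 1 T (1, 0) (a * 3 ^ m))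
    (h2 : ∀ r : ℤ, |r| ≤ W → ¬ surv 1 T (0, r) (a * 3 ^ m)) : Good a T W m := by
  refine ⟨?_, fun r hr => ?_⟩
  · have h3 := coal_T h1
    have e : (3 : ℤ) ^ 1 * (a * 3 ^ m) + 0 = a * 3 ^ (m + 1) := by rw [pow_succ]; ring
    rwa [e] at h3
  · have h3 := coal_T (h2 r hr)
    rwa [pow_zero, one_mul] at h3

open Classical in
theorem bad_count {a : ℤ} (ha : a ≠ 0) : ∃ C : ℝ, 0 < C ∧
    ∀ N T W u : ℕ, 1 ≤ T → 2 ^ T ≤ N → W ≤ 4 ^ u →
      (#{m ∈ Icc 1 N | ¬ Good a T W m} : ℝ) ≤ C * (W + 1) * √ (2 + u) * rho T * N := by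
  obtain ⟨C, hC, h⟩ := pair_rate (b := 3) ha (by norm_num) (by norm_num)
  refine ⟨2 * C, by positivity, fun N T W u hT hN hu => ?_⟩
  have hsub : ({m ∈ Icc 1 N | ¬ Good a T W m} : Finset ℕ) ⊆
      ({m ∈ Icc 1 N | surv 1 T (1, 0) (a * 3 ^ m)} : Finset ℕ) ∪
        (Icc (-(W : ℤ)) W).biUnion (fun r => {m ∈ Icc 1 N | surv 1 T (0, r) (a * 3 ^ m)}) := by
    intro m hm
    rw [mem_filter] at hm
    rw [mem_union, mem_filter, mem_biUnion]
    by_contra hcon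
    rw [not_or] at hcon
    obtain ⟨h1, h2⟩ := hcon
    apply hm.2
    apply good_of
    · intro h3; exact h1 ⟨hm.1, h3⟩
    · intro r hr h3
      apply h2
      refine ⟨r, ?_, ?_⟩
      · rw [mem_Icc]; exact abs_le.1 hr
      · rw [mem_filter]; exact ⟨hm.1, h3⟩
  have hrho := rho_nonneg T
  have h1 : (#({m ∈ Icc 1 N | surv 1 T (1, 0) (a * 3 ^ m)} : Finset ℕ) : ℝ) ≤ C * √ (2 + u) * rho T * N := by
    refine (h N T hT hN 1 u 0 ?_).trans (le_of_eq ?_)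
    · simp
    · congr 3; norm_num
  have h2 : ∀ r ∈ Icc (-(W : ℤ)) W,
      (#({m ∈ Icc 1 N | surv 1 T (0, r) (a * 3 ^ m)} : Finset ℕ) : ℝ) ≤ C * √ (2 + u) * rho T * N := by
    intro r hr
    rw [mem_Icc] at hr
    have hr1 : |r| ≤ (W : ℤ) := abs_le.2 hr
    have hr2 : |(r : ℝ)| ≤ (W : ℝ) := by exact_mod_cast hr1
    have hu' : (W : ℝ) ≤ 4 ^ u := by exact_mod_cast hu
    refine (h N T hT hN 0 u r (hr2.trans hu')).trans ?_
    have h3 : √ (1 + ((0 : ℕ) : ℝ) ^ 2 + u) ≤ √ (2 + (u : ℝ)) := Real.sqrt_le_sqrt (by norm_num)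
    gcongr
  have h3 : (#{m ∈ Icc 1 N | ¬ Good a T W m} : ℝ) ≤ C * √ (2 + u) * rho T * N +
      ∑ r ∈ Icc (-(W : ℤ)) W, (C * √ (2 + u) * rho T * N) := by
    calc (#{m ∈ Icc 1 N | ¬ Good a T W m} : ℝ) ≤ (#({m ∈ Icc 1 N | surv 1 T (1, 0) (a * 3 ^ m)} : Finset ℕ) : ℝ) +
        ∑ r ∈ Icc (-(W : ℤ)) W, (#({m ∈ Icc 1 N | surv 1 T (0, r) (a * 3 ^ m)} : Finset ℕ) : ℝ) := by
          exact_mod_cast ((card_le_card hsub).trans (card_union_le _ _)).trans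
            (Nat.add_le_add_left card_biUnion_le _)
      _ ≤ _ := add_le_add h1 (sum_le_sum h2)
  rw [sum_const, Int.card_Icc, nsmul_eq_mul] at h3
  have e : (((W : ℤ) + 1 - -(W : ℤ)).toNat : ℝ) = 2 * W + 1 := by
    have : ((W : ℤ) + 1 - -(W : ℤ)).toNat = 2 * W + 1 := by omega
    rw [this]; push_cast; ring
  rw [e] at h3
  refine h3.trans (le_of_eq ?_)
  ring

open Classical in
/-- The windows. -/
theorem window_count {a : ℤ} (ha : a ≠ 0) : ∃ C : ℝ, 0 < C ∧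
    ∀ N T W u J : ℕ, 1 ≤ T → 2 ^ T ≤ N → W ≤ 4 ^ u → J ≤ N →
      (#{n ∈ Icc 1 N | ¬ ∀ m, n ≤ m → m ≤ n + J → Good a T W m} : ℝ) ≤
        C * (J + 1) * (W + 1) * √ (2 + u) * rho T * N := by
  obtain ⟨C, hC, h⟩ := bad_count ha
  refine ⟨2 * C, by positivity, fun N T W u J hT hN hu hJ => ?_⟩
  have hrho := rho_nonneg T
  have hsub : ({n ∈ Icc 1 N | ¬ ∀ m, n ≤ m → m ≤ n + J → Good a T W m} : Finset ℕ) ⊆
      (range (J + 1)).biUnion (fun j => {n ∈ Icc 1 N | ¬ Good a T W (n + j)}) := by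
    intro n hn
    rw [mem_filter] at hn
    obtain ⟨hn1, hn2⟩ := hn
    push Not at hn2
    obtain ⟨m, h1, h2, h3⟩ := hn2
    rw [mem_biUnion]
    refine ⟨m - n, ?_, ?_⟩
    · rw [mem_range]; omega
    · rw [mem_filter, show n + (m - n) = m by omega]
      exact ⟨hn1, h3⟩
  have h1 : ∀ j ∈ range (J + 1), (#({n ∈ Icc 1 N | ¬ Good a T W (n + j)} : Finset ℕ) : ℝ) ≤
      C * (W + 1) * √ (2 + u) * rho T * (2 * N) := by
    intro j hj
    rw [mem_range] at hj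
    have h2 : #({n ∈ Icc 1 N | ¬ Good a T W (n + j)} : Finset ℕ) ≤
        #({m ∈ Icc 1 (2 * N) | ¬ Good a T W m} : Finset ℕ) := by
      apply card_le_card_of_injOn (fun n => n + j)
      · intro n hn
        rw [mem_coe, mem_filter, mem_Icc] at hn
        rw [mem_coe, mem_filter, mem_Icc]
        beta_reduce
        refine ⟨⟨by omega, by omega⟩, hn.2⟩
      · intro n _ n' _ h
        simp only at h
        omega
    have h3 := h (2 * N) T W u hT (by omega) hu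
    push_cast at h3
    have h4 : (#({n ∈ Icc 1 N | ¬ Good a T W (n + j)} : Finset ℕ) : ℝ) ≤
        #({m ∈ Icc 1 (2 * N) | ¬ Good a T W m} : Finset ℕ) := by exact_mod_cast h2
    exact h4.trans h3
  calc (#{n ∈ Icc 1 N | ¬ ∀ m, n ≤ m → m ≤ n + J → Good a T W m} : ℝ)
      ≤ ∑ j ∈ range (J + 1), (#({n ∈ Icc 1 N | ¬ Good a T W (n + j)} : Finset ℕ) : ℝ) := by
        exact_mod_cast (card_le_card hsub).trans card_biUnion_le
    _ ≤ ∑ j ∈ range (J + 1), C * (W + 1) * √ (2 + u) * rho T * (2 * N) := sum_le_sum h1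
    _ = 2 * C * (J + 1) * (W + 1) * √ (2 + u) * rho T * N := by
        rw [sum_const, card_range, nsmul_eq_mul]; push_cast; ring

theorem log_small {δ : ℝ} (hδ : 0 < δ) (hδ1 : δ ≤ 1) {L : ℝ} (hL : 1 ≤ L) :
    3 + Real.log (1 + L) ≤ (3 + 4 / δ) * L ^ (δ / 2) := by
  have h1 : (1 : ℝ) ≤ L ^ (δ / 2) := Real.one_le_rpow hL (by positivity)
  have h2 := Real.log_le_rpow_div (x := 1 + L) (ε := δ / 2) (by linarith) (by positivity)
  have h3 : (1 + L) ^ (δ / 2) ≤ 2 * L ^ (δ / 2) := by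
    calc (1 + L) ^ (δ / 2) ≤ (2 * L) ^ (δ / 2) := Real.rpow_le_rpow (by linarith) (by linarith) (by positivity)
      _ = 2 ^ (δ / 2) * L ^ (δ / 2) := Real.mul_rpow (by norm_num) (by linarith)
      _ ≤ 2 ^ (1 : ℝ) * L ^ (δ / 2) := by
          apply mul_le_mul_of_nonneg_right _ (by positivity)
          exact Real.rpow_le_rpow_of_exponent_le (by norm_num) (by linarith)
      _ = 2 * L ^ (δ / 2) := by rw [Real.rpow_one]
  have h4 : (1 + L) ^ (δ / 2) / (δ / 2) ≤ 2 * L ^ (δ / 2) / (δ / 2) :=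
    div_le_div_of_nonneg_right h3 (by positivity)
  have h5 : 2 * L ^ (δ / 2) / (δ / 2) = 4 / δ * L ^ (δ / 2) := by field_simp; ring
  rw [h5] at h4
  nlinarith

theorem rho_L {N : ℕ} (hN : 10 ≤ Real.log N) : 1 ≤ Nat.log 4 N ∧ (4 : ℝ) ^ Nat.log 4 N ≤ N ∧
    rho (Nat.log 4 N) ≤ √ (2 * Real.log (1 + Real.log N) / Real.log N) := by
  set L := Real.log N with hL
  have hN0 : N ≠ 0 := by
    rintro rfl
    rw [hL] at hN
    norm_num at hN
  set k := Nat.log 4 N with hk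
  have h1 : 4 ^ k ≤ N := Nat.pow_log_le_self 4 hN0
  have h2 : N < 4 ^ (k + 1) := Nat.lt_pow_succ_log_self (by norm_num) N
  have h1r : (4 : ℝ) ^ k ≤ N := by exact_mod_cast h1
  have h2r : (N : ℝ) ≤ 4 ^ (k + 1) := by exact_mod_cast h2.le
  have hNr : (0 : ℝ) < N := by positivity
  have l2 := Real.log_two_gt_d9
  have l2' := Real.log_two_lt_d9
  have l4 : Real.log 4 = 2 * Real.log 2 := by
    rw [show (4 : ℝ) = 2 ^ 2 by norm_num, Real.log_pow]; norm_num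
  have h3 : (k : ℝ) * (2 * Real.log 2) ≤ L := by
    have := Real.log_le_log (by positivity) h1r
    rwa [Real.log_pow, l4] at this
  have h4 : L ≤ ((k : ℝ) + 1) * (2 * Real.log 2) := by
    have := Real.log_le_log hNr h2r
    rw [Real.log_pow, l4] at this
    push_cast at this
    exact this
  have hk5 : (5 : ℝ) < k := by nlinarith
  have hk1 : 1 ≤ k := by
    have : (1 : ℝ) ≤ k := by linarith
    exact_mod_cast this
  refine ⟨hk1, h1r, ?_⟩
  have h6 : L ≤ 2 * k := by nlinarith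
  have h7 : (k : ℝ) ≤ L := by nlinarith
  unfold rho
  apply Real.sqrt_le_sqrt
  rw [div_le_div_iff₀ (by linarith) (by linarith)]
  have h8 : Real.log ((k : ℝ) + 1) ≤ Real.log (1 + L) := Real.log_le_log (by positivity) (by linarith)
  have h9 : 0 ≤ Real.log (1 + L) := Real.log_nonneg (by linarith)
  nlinarith

end Pool.Agent.Y967.CM
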