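import Pool.Agent.W38.PRa
import Pool.Agent.Y967.CM.Q
import Pool.Agent.Y967.CM.S

/-! Pairs at spread sequences. -/

set_option autoImplicit false

namespace Pool.Agent.Y967.CM

open Finset Filter Pool.Agent.H499R2.CO

theorem theta_small {C η : ℝ} (hC : 1 ≤ C) (hη : 0 < η) : ∃ θ : ℝ, 0 < θ ∧ θ ≤ 1 ∧
    C * √ (θ * (1 + Real.log (1 / θ))) ≤ η := by
  set s : ℝ := min 1 ((η / C) ^ 2 / 2) with hs
  have hC0 : 0 < C := by linarith
  have hs0 : 0 < s := lt_min one_pos (by positivity)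
  have hs1 : s ≤ 1 := min_le_left _ _
  have hs2 : s ≤ (η / C) ^ 2 / 2 := min_le_right _ _
  refine ⟨s ^ 2, by positivity, pow_le_one₀ hs0.le hs1, ?_⟩
  have h1 : Real.log (1 / s ^ 2) ≤ 2 / s - 2 := by
    have e : 1 / s ^ 2 = (1 / s) ^ 2 := by rw [one_div_pow]
    rw [e, Real.log_pow]
    have := Real.log_le_sub_one_of_pos (show (0 : ℝ) < 1 / s by positivity)
    have e2 : 2 / s = 2 * (1 / s) := by ring
    rw [e2]
    push_cast
    linarith
  have h2 : s ^ 2 * (1 + Real.log (1 / s ^ 2)) ≤ 2 * s := by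
    calc s ^ 2 * (1 + Real.log (1 / s ^ 2)) ≤ s ^ 2 * (2 / s) := by
          apply mul_le_mul_of_nonneg_left _ (by positivity)
          linarith
      _ = 2 * s := by field_simp
  have h3 : √ (s ^ 2 * (1 + Real.log (1 / s ^ 2))) ≤ η / C := by
    rw [Real.sqrt_le_left (by positivity)]
    linarith
  calc C * √ (s ^ 2 * (1 + Real.log (1 / s ^ 2))) ≤ C * (η / C) := mul_le_mul_of_nonneg_left h3 hC0.le
    _ = η := by field_simp

theorem log_nat_tendsto : Tendsto (fun N : ℕ => Real.log N) atTop atTop :=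
  Real.tendsto_log_atTop.comp tendsto_natCast_atTop_atTop

theorem two_pow_le {N : ℕ} (hN : 1 ≤ N) {T : ℕ} {δ : ℝ} (hT : (T : ℝ) ≤ δ * Real.log N) :
    (2 : ℝ) ^ T ≤ (N : ℝ) ^ δ := by
  have hNr : (0 : ℝ) < N := by exact_mod_cast hN
  calc (2 : ℝ) ^ T ≤ Real.exp 1 ^ T :=
        pow_le_pow_left₀ (by norm_num) (by have := Real.exp_one_gt_d9; linarith) T
    _ = Real.exp T := by rw [← Real.exp_nat_mul, mul_one]
    _ ≤ Real.exp (δ * Real.log N) := Real.exp_le_exp.2 hT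
    _ = (N : ℝ) ^ δ := by rw [Real.rpow_def_of_pos hNr, mul_comm]

open Classical in
/-- Pairs `x`, `3 ^ i x + r` with `i` up to `√ (θ log N)` and `r` up to `N ^ θ`. -/
theorem pair_small {δ : ℝ} (hδ : 0 < δ) {x : ℕ → ℤ} (h : Spr δ x) {κ : ℝ} (hκ : 0 < κ) {ε : ℝ} (hε : 0 < ε) :
    ∃ θ : ℝ, 0 < θ ∧ ∃ N₀ : ℕ, ∀ N : ℕ, N₀ ≤ N → ∀ (i : ℕ) (r : ℤ), (i : ℝ) ^ 2 ≤ θ * Real.log N →
      |(r : ℝ)| ≤ (N : ℝ) ^ θ →
      (#{n ∈ Icc 1 N | (Tz 1)^[⌊κ * Real.log N⌋₊] (3 ^ i * x n + r) ≠ (Tz 1)^[⌊κ * Real.log N⌋₊] (x n)} : ℝ)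
        ≤ ε * N := by
  obtain ⟨η, hη, N0, h1⟩ := h ε hε
  obtain ⟨C, hC, hq⟩ := Pool.Agent.W38.PR.q_theta
  obtain ⟨θ, hθ, hθ1, hθη⟩ := theta_small hC hη
  set δ' : ℝ := min δ κ with hδ'
  have hδ'0 : 0 < δ' := lt_min hδ hκ
  have hev : ∀ᶠ N : ℕ in atTop, 2 / δ' + 2 * C / (δ' * θ) ≤ Real.log N := log_nat_tendsto.eventually_ge_atTop _
  obtain ⟨N1, hN1⟩ := eventually_atTop.1 hev
  refine ⟨θ * δ' / 4, by positivity, max (max N0 N1) 1, fun N hN i r hi hr => ?_⟩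
  have hNN0 : N0 ≤ N := (le_max_left _ _).trans ((le_max_left _ _).trans hN)
  have hNN1 : N1 ≤ N := (le_max_right _ _).trans ((le_max_left _ _).trans hN)
  have hNN2 : 1 ≤ N := (le_max_right _ _).trans hN
  have hlog := hN1 N hNN1
  have hNr : (0 : ℝ) < N := by exact_mod_cast hNN2
  set L := Real.log N with hL
  have hLp : 0 < L := lt_of_lt_of_le (by positivity) hlog
  set T := ⌊δ' * L⌋₊ with hT
  have hTle : (T : ℝ) ≤ δ' * L := Nat.floor_le (by positivity)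
  have hTge : δ' * L / 2 ≤ T := by
    have h2 : δ' * L < T + 1 := Nat.lt_floor_add_one _
    have h3 : 2 ≤ δ' * L := by
      have h4 : 2 / δ' ≤ L := by
        have : 0 ≤ 2 * C / (δ' * θ) := by positivity
        linarith
      rw [div_le_iff₀ hδ'0] at h4
      linarith
    linarith
  have hCT : C ≤ θ * T := by
    have h4 : 2 * C / (δ' * θ) ≤ L := by
      have : 0 ≤ 2 / δ' := by positivity
      linarith
    rw [div_le_iff₀ (by positivity)] at h4
    have h5 : θ * (δ' * L / 2) ≤ θ * T := mul_le_mul_of_nonneg_left hTge hθ.le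
    nlinarith
  have hi' : (i : ℝ) ^ 2 ≤ θ * T := by
    have h5 : θ * (δ' * L / 2) ≤ θ * T := mul_le_mul_of_nonneg_left hTge hθ.le
    have h6 : 0 < θ * δ' * L := by positivity
    nlinarith
  have hr' : |(r : ℝ)| ≤ (2 : ℝ) ^ (θ * T) := by
    refine hr.trans ?_
    rw [Real.rpow_def_of_pos hNr, Real.rpow_def_of_pos (by norm_num : (0 : ℝ) < 2)]
    apply Real.exp_le_exp.2
    have l2 := Real.log_two_gt_d9
    have h5 : θ * (δ' * L / 2) ≤ θ * T := mul_le_mul_of_nonneg_left hTge hθ.le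
    have h6 : 0 < θ * δ' * L := by positivity
    calc L * (θ * δ' / 4) = (1 / 2) * (θ * (δ' * L / 2)) := by ring
      _ ≤ (1 / 2) * (θ * T) := by linarith
      _ ≤ Real.log 2 * (θ * T) := by
          apply mul_le_mul_of_nonneg_right (by linarith)
          positivity
  have hqq := (hq θ hθ hθ1 T hCT i r hi' hr').trans hθη
  have h2T : (2 : ℝ) ^ T ≤ (N : ℝ) ^ δ := by
    apply two_pow_le hNN2
    exact hTle.trans (mul_le_mul_of_nonneg_right (min_le_left _ _) hLp.le)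
  have h3 := h1 N hNN0 T h2T (surv 1 T (i, r)) (fun y m => surv_periodic (by norm_num) T (i, r) y m) (by
    rw [card_surv, mul_comm]
    exact mul_le_mul_of_nonneg_right hqq (by positivity))
  refine le_trans ?_ h3
  have h4 : ({n ∈ Icc 1 N | (Tz 1)^[⌊κ * L⌋₊] (3 ^ i * x n + r) ≠ (Tz 1)^[⌊κ * L⌋₊] (x n)} : Finset ℕ) ⊆
      {n ∈ Icc 1 N | surv 1 T (i, r) (x n)} := by
    intro n hn
    rw [mem_filter] at hn ⊢
    refine ⟨hn.1, ?_⟩
    by_contra hcon
    apply hn.2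
    refine persist (coal_T hcon) ?_
    exact Nat.floor_le_floor (mul_le_mul_of_nonneg_right (min_le_right _ _) hLp.le)
  exact_mod_cast card_le_card h4

end Pool.Agent.Y967.CM
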