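import Pool.Agent.W38.CRf
import Pool.Agent.Y967.CM.G

/-! Windows at spread sequences. -/

set_option autoImplicit false

namespace Pool.Agent.Y967.CM

open Finset Filter Topology Pool.Agent.H499R2.CO Pool.Agent.W38.CR

/-- the bits of the class of `y` -/
def cb (T : ℕ) (y : ℤ) : List Bool := bits T (y % 2 ^ T).toNat

/-- the window above `y` does not merge -/
def WB (T m : ℕ) (y : ℤ) : Prop := bad (fl (cb T y) (0, 0)) (im (cb T y) (Q0 (2 ^ m))) ≠ 0

theorem cb_periodic (T : ℕ) (y k : ℤ) : cb T (y + k * 2 ^ T) = cb T y := by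
  unfold cb
  rw [Int.add_mul_emod_self_right]

theorem WB_periodic (T m : ℕ) (y k : ℤ) : WB T m (y + k * 2 ^ T) ↔ WB T m y := by
  unfold WB
  rw [cb_periodic]

theorem cb_nat {T c : ℕ} (hc : c < 2 ^ T) : cb T ((c : ℕ) : ℤ) = bits T c := by
  unfold cb
  have h : ((c : ℕ) : ℤ) % 2 ^ T = c := Int.emod_eq_of_lt (by positivity) (by exact_mod_cast hc)
  rw [h, Int.toNat_natCast]

open Classical in
theorem WB_count (T m : ℕ) {a : ℤ} (ha : a % 2 = 1) (b : ℤ) :
    (#{c ∈ range (2 ^ T) | WB T m (a * ((c : ℕ) : ℤ) + b)} : ℝ) =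
      2 ^ T * av T (fun l => bad (fl l (0, 0)) (im l (Q0 (2 ^ m)))) := by
  have h1 := sum_affine T (fun y : ℤ => bad (fl (cb T y) (0, 0)) (im (cb T y) (Q0 (2 ^ m))))
    (fun y k => by simp only [cb_periodic]) ha b
  have h2 : ∑ u ∈ range (2 ^ T), (fun y : ℤ => bad (fl (cb T y) (0, 0)) (im (cb T y) (Q0 (2 ^ m)))) ((u : ℕ) : ℤ) =
      ∑ u ∈ range (2 ^ T), (fun l => bad (fl l (0, 0)) (im l (Q0 (2 ^ m)))) (bits T u) := by
    apply sum_congr rfl
    intro u hu
    rw [mem_range] at hu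
    simp only
    rw [cb_nat hu]
  have h3 := h1.trans (h2.trans (sum_bits T (fun l => bad (fl l (0, 0)) (im l (Q0 (2 ^ m))))))
  rw [← h3, card_filter]
  push_cast
  apply sum_congr rfl
  intro u _
  by_cases h : WB T m (a * (u : ℤ) + b)
  · rw [if_pos h]
    have h5 : ¬ ∀ A ∈ im (cb T (a * (u : ℤ) + b)) (Q0 (2 ^ m)), A = fl (cb T (a * (u : ℤ) + b)) (0, 0) := by
      intro h4
      exact h (bad_zero h4)
    rw [bad_one h5]
  · rw [if_neg h]
    unfold WB at h
    push Not at h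
    exact h.symm

theorem WB_spec {T m : ℕ} {y : ℤ} (h : ¬ WB T m y) (k : ℕ) (hk : k < 2 ^ 2 ^ m) :
    (Tz 1)^[T] (y + k) = (Tz 1)^[T] y := by
  have h2T : (0 : ℤ) < 2 ^ T := by positivity
  have hall : ∀ A ∈ im (cb T y) (Q0 (2 ^ m)), A = fl (cb T y) (0, 0) := by
    by_contra hcon
    apply h
    unfold WB
    rw [bad_one hcon]
    norm_num
  have h1 := hall (fl (cb T y) (0, (k : ℤ))) (by
    unfold im Q0
    apply mem_image_of_mem
    rw [mem_image]
    exact ⟨k, mem_range.2 hk, rfl⟩)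
  set c := (y % 2 ^ T).toNat with hc
  have hcval : ((c : ℕ) : ℤ) = y % 2 ^ T := Int.toNat_of_nonneg (Int.emod_nonneg _ h2T.ne')
  have hclt : c < 2 ^ T := by
    have h3 := Int.emod_lt_of_pos y h2T
    rw [← hcval] at h3
    exact_mod_cast h3
  have hbv := bv_bits T c
  rw [Nat.div_eq_of_lt hclt] at hbv
  simp only [Nat.cast_zero, mul_zero, zero_add] at hbv
  have hlen : (cb T y).length = T := length_bits _ _
  have hbv' : bv (cb T y) = (c : ℤ) := hbv
  have e : y = 2 ^ T * (y / 2 ^ T) + bv (cb T y) := by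
    rw [hbv', hcval]
    exact (Int.mul_ediv_add_emod y (2 ^ T)).symm
  have h3 := Tz_ev_iter (cb T y) (0, (k : ℤ)) (y / 2 ^ T)
  have h4 := Tz_ev_iter (cb T y) (0, 0) (y / 2 ^ T)
  rw [hlen, ← e] at h3 h4
  have e3 : ev (0, (k : ℤ)) y = y + k := by unfold ev; simp
  have e4 : ev (0, 0) y = y := by unfold ev; simp
  rw [e3] at h3
  rw [e4] at h4
  rw [h3, h4, h1]

/-- both sides -/
theorem WB_both {T m : ℕ} {y : ℤ} (h : ¬ WB T m (y - 2 ^ (2 ^ m - 1))) {r : ℤ} (hr : |r| < 2 ^ (2 ^ m - 1)) :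
    (Tz 1)^[T] (y + r) = (Tz 1)^[T] y := by
  have hm : 2 ^ m = (2 ^ m - 1) + 1 := by
    have : 0 < 2 ^ m := by positivity
    omega
  have h2 : (2 : ℕ) ^ 2 ^ m = 2 * 2 ^ (2 ^ m - 1) := by
    conv_lhs => rw [hm]
    rw [pow_succ]; ring
  have hr1 := abs_lt.1 hr
  have hHpos : (0 : ℤ) < 2 ^ (2 ^ m - 1) := by positivity
  have key : ∀ s : ℤ, |s| < 2 ^ (2 ^ m - 1) → (Tz 1)^[T] (y + s) = (Tz 1)^[T] (y - 2 ^ (2 ^ m - 1)) := by
    intro s hs
    have hs1 := abs_lt.1 hs
    have h3 := WB_spec h (2 ^ (2 ^ m - 1) + s).toNat (by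
      rw [h2]
      have h4 : (((2 ^ (2 ^ m - 1) + s).toNat : ℕ) : ℤ) < ((2 * 2 ^ (2 ^ m - 1) : ℕ) : ℤ) := by
        rw [Int.toNat_of_nonneg (by linarith)]
        push_cast
        linarith
      exact_mod_cast h4)
    rw [Int.toNat_of_nonneg (by linarith)] at h3
    rw [← h3]
    congr 1
    ring
  have h3 := key 0 (by rw [abs_zero]; exact hHpos)
  rw [add_zero] at h3
  rw [key r hr, h3]

/-- The length of the windows. -/
noncomputable def RR (n : ℕ) : ℝ := Real.exp (√ (Real.log n) / (Real.log (Real.log n)) ^ 17)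

/-- The parameter for the windows. -/
theorem choose_RR {κ : ℝ} (hκ : 0 < κ) (m0 : ℕ) : ∀ᶠ N : ℕ in atTop, ∃ m ≥ m0,
    ((2 * (4 ^ m * m ^ 30) : ℕ) : ℝ) ≤ κ * Real.log N ∧
    ∀ n : ℕ, √ (N : ℝ) ≤ n → n ≤ N → RR n < 2 ^ (2 ^ m - 1) := by
  -- the parameter `s`
  have hs : Tendsto (fun N : ℕ => ⌊4 * κ * Real.log N⌋₊) atTop atTop :=
    tendsto_nat_floor_atTop.comp (log_nat_tendsto.const_mul_atTop (by positivity))
  have hll : Tendsto (fun N : ℕ => Real.log (Real.log N)) atTop atTop :=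
    Real.tendsto_log_atTop.comp log_nat_tendsto
  set B : ℝ := 2 ^ 36 * (1 + 1 / √ κ) with hB
  have hsκ : 0 < √ κ := Real.sqrt_pos.2 hκ
  filter_upwards [hs.eventually (choose_m (max m0 1)), hs.eventually_ge_atTop 100,
    hll.eventually_ge_atTop (B + 2), log_nat_tendsto.eventually_ge_atTop 16,
    log_nat_tendsto.eventually_ge_atTop (4 * κ), log_nat_tendsto.eventually_ge_atTop (4 * κ + 4),
    hll.eventually_ge_atTop (2 * Real.log (4 * κ + 4) + 4)] with N h1 h2 h3 h4 h5 h6 h7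
  set L := Real.log N with hL
  set s := ⌊4 * κ * L⌋₊ with hsdef
  obtain ⟨m, hm, hm1, hm2⟩ := h1
  have hmm0 : m0 ≤ m := (le_max_left _ _).trans hm
  have hm1' : 1 ≤ m := (le_max_right _ _).trans hm
  have hsr : (100 : ℝ) ≤ s := by exact_mod_cast h2
  have hsle : (s : ℝ) ≤ 4 * κ * L := Nat.floor_le (by positivity)
  have hsge : 4 * κ * L < s + 1 := Nat.lt_floor_add_one _
  refine ⟨m, hmm0, ?_, ?_⟩
  · have h8 : ((2 * (4 ^ m * m ^ 30) : ℕ) : ℝ) ≤ ((s / 4 : ℕ) : ℝ) := by exact_mod_cast hm1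
    have h9 : ((s / 4 : ℕ) : ℝ) ≤ (s : ℝ) / 4 := by
      have := Nat.cast_div_le (α := ℝ) (m := s) (n := 4)
      push_cast at this
      exact this
    linarith
  · intro n hn1 hn2
    have hN0 : (0 : ℝ) < N := by
      by_contra hcon
      have hN0' : (N : ℝ) = 0 := le_antisymm (not_lt.1 hcon) (Nat.cast_nonneg N)
      rw [hL, hN0', Real.log_zero] at h4
      norm_num at h4
    have hn0 : (0 : ℝ) < n := lt_of_lt_of_le (Real.sqrt_pos.2 hN0) hn1
    have hlogn1 : L / 2 ≤ Real.log n := by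
      have := Real.log_le_log (Real.sqrt_pos.2 hN0) hn1
      rw [Real.log_sqrt hN0.le] at this
      exact this
    have hlogn2 : Real.log n ≤ L := Real.log_le_log hn0 (by exact_mod_cast hn2)
    -- iterated logarithms
    have hllN : Real.log L / 2 ≤ Real.log (Real.log n) := by
      have h8 : √ L ≤ Real.log n := by
        refine le_trans ?_ hlogn1
        rw [Real.sqrt_le_left (by linarith)]
        nlinarith
      have h9 := Real.log_le_log (Real.sqrt_pos.2 (by linarith)) h8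
      rwa [Real.log_sqrt (by linarith)] at h9
    have hB1 : B / 2 ≤ Real.log (Real.log n) := by linarith
    have hB0 : 0 < B := by rw [hB]; positivity
    have hspos : (0 : ℝ) < s := by linarith
    -- `log s ≤ 4 log log n`
    have hlogs : Real.log s ≤ 4 * Real.log (Real.log n) := by
      have h8 : (s : ℝ) ≤ (4 * κ + 4) * L := by nlinarith
      have h9 := Real.log_le_log hspos h8
      rw [Real.log_mul (by positivity) (by linarith)] at h9
      linarith
    have h8 := hm2 s s hspos.le le_rfl (by linarith)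
    have hlogs0 : 0 < Real.log s := Real.log_pos (by linarith)
    set ℓ := Real.log (Real.log n) with hℓ
    have hℓ0 : 0 < ℓ := lt_of_lt_of_le (by positivity) hB1
    -- compare
    have h9 : √ (Real.log n) ≤ (1 / √ κ) * √ s := by
      have h10 : Real.log n ≤ s / κ := by
        rw [le_div_iff₀ hκ]
        nlinarith
      calc √ (Real.log n) ≤ √ (s / κ) := Real.sqrt_le_sqrt h10
        _ = (1 / √ κ) * √ s := by rw [Real.sqrt_div hspos.le]; ring
    have h10 : √ (Real.log n) / ℓ ^ 17 ≤ (1 / 8) * (√ s / Real.log s ^ 16) := by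
      have h11 : Real.log s ^ 16 ≤ (4 * ℓ) ^ 16 := pow_le_pow_left₀ hlogs0.le hlogs 16
      have h11' : Real.log s ^ 16 ≤ 2 ^ 32 * ℓ ^ 16 := by
        refine h11.trans (le_of_eq ?_)
        rw [mul_pow]; norm_num
      have h12 : √ s / (2 ^ 32 * ℓ ^ 16) ≤ √ s / Real.log s ^ 16 :=
        div_le_div_of_nonneg_left (Real.sqrt_nonneg _) (by positivity) h11'
      have h13 : √ (Real.log n) / ℓ ^ 17 ≤ (1 / √ κ) * √ s / ℓ ^ 17 :=
        div_le_div_of_nonneg_right h9 (by positivity)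
      have h14 : 2 ^ 35 * (1 / √ κ) ≤ ℓ := by
        have : 0 < 1 / √ κ := by positivity
        rw [hB] at hB1
        linarith
      have h15 : (1 / √ κ) * √ s / ℓ ^ 17 ≤ (1 / 8) * (√ s / (2 ^ 32 * ℓ ^ 16)) := by
        have e : (1 / 8) * (√ s / (2 ^ 32 * ℓ ^ 16)) = (ℓ / 2 ^ 35) * √ s / ℓ ^ 17 := by
          field_simp
          norm_num
        rw [e]
        apply div_le_div_of_nonneg_right _ (by positivity)
        apply mul_le_mul_of_nonneg_right _ (Real.sqrt_nonneg _)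
        rw [le_div_iff₀ (by positivity)]
        linarith
      linarith
    have h11 : RR n < Real.exp ((1 / 8) * (2 ^ m * Real.log 2)) := by
      unfold RR
      apply Real.exp_lt_exp.2
      rw [← hℓ]
      linarith
    refine h11.trans_le ?_
    have h12 : (2 : ℝ) ^ (2 ^ m - 1) = Real.exp (((2 ^ m - 1 : ℕ) : ℝ) * Real.log 2) := by
      rw [Real.exp_nat_mul, Real.exp_log (by norm_num)]
    rw [h12]
    apply Real.exp_le_exp.2
    have l2 := Real.log_two_gt_d9
    have h13 : (2 : ℝ) ≤ 2 ^ m := by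
      calc (2 : ℝ) = 2 ^ 1 := by norm_num
        _ ≤ 2 ^ m := pow_le_pow_right₀ (by norm_num) hm1'
    have h14 : ((2 ^ m - 1 : ℕ) : ℝ) = 2 ^ m - 1 := by
      rw [Nat.cast_sub Nat.one_le_two_pow]; push_cast; ring
    rw [h14]
    nlinarith

end Pool.Agent.Y967.CM
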