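import Pool.Agent.Y967.CM.H

/-! The main theorem for spread sequences. -/

set_option autoImplicit false

namespace Pool.Agent.Y967.CM

open Finset Filter Topology Pool.Agent.H499R2.CO Pool.Agent.W38.CR

theorem sqrt_small {ε : ℝ} (hε : 0 < ε) : ∀ᶠ N : ℕ in atTop, (√ (N : ℝ) + 1 : ℝ) ≤ ε * N := by
  filter_upwards [tendsto_natCast_atTop_atTop.eventually_ge_atTop (4 / ε ^ 2 + 1)] with N hN
  have h1 : (1 : ℝ) ≤ N := by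
    have : 0 ≤ 4 / ε ^ 2 := by positivity
    linarith
  have h2 : 1 ≤ √ (N : ℝ) := Real.one_le_sqrt.2 h1
  have h3 : 2 / ε ≤ √ (N : ℝ) := by
    apply Real.le_sqrt_of_sq_le
    rw [div_pow]; norm_num; linarith
  have h4 : √ (N : ℝ) * √ (N : ℝ) = N := Real.mul_self_sqrt (by linarith)
  rw [div_le_iff₀ hε] at h3
  nlinarith

open Classical in
theorem small_card (N : ℕ) : (#{n ∈ Icc 1 N | ((n : ℕ) : ℝ) < √ (N : ℝ)} : ℝ) ≤ √ (N : ℝ) + 1 := by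
  have h1 : ({n ∈ Icc 1 N | ((n : ℕ) : ℝ) < √ (N : ℝ)} : Finset ℕ) ⊆ range (⌊√ (N : ℝ)⌋₊ + 1) := by
    intro n hn
    rw [mem_filter] at hn
    rw [mem_range]
    exact Nat.lt_succ_of_le (Nat.le_floor hn.2.le)
  have h2 := card_le_card h1
  rw [card_range] at h2
  have h3 : ((⌊√ (N : ℝ)⌋₊ + 1 : ℕ) : ℝ) ≤ √ (N : ℝ) + 1 := by
    push_cast
    have := Nat.floor_le (Real.sqrt_nonneg (N : ℝ))
    linarith
  exact (by exact_mod_cast h2 : (#{n ∈ Icc 1 N | ((n : ℕ) : ℝ) < √ (N : ℝ)} : ℝ) ≤ ((⌊√ (N : ℝ)⌋₊ + 1 : ℕ) : ℝ)).trans h3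

theorem log_sqrt_le {n N : ℕ} (hN : 1 ≤ N) (h : √ (N : ℝ) ≤ n) : Real.log N ≤ 2 * Real.log n := by
  have hN0 : (0 : ℝ) < N := by exact_mod_cast hN
  have := Real.log_le_log (Real.sqrt_pos.2 hN0) h
  rw [Real.log_sqrt hN0.le] at this
  linarith

open Classical in
theorem window_small {δ : ℝ} (hδ : 0 < δ) {x : ℕ → ℤ} (h : Spr δ x) {κ : ℝ} (hκ : 0 < κ) (i : ℕ)
    {ε : ℝ} (hε : 0 < ε) : ∀ᶠ N : ℕ in atTop,
      (#{n ∈ Icc 1 N | ¬ ∀ r : ℤ, |(r : ℝ)| ≤ RR n →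
        (Tz 1)^[⌊κ * Real.log n⌋₊] (3 ^ i * x n + r) = (Tz 1)^[⌊κ * Real.log n⌋₊] (3 ^ i * x n)} : ℝ) ≤ ε * N := by
  obtain ⟨η, hη, N0, h1⟩ := h (ε / 2) (by positivity)
  obtain ⟨m0, hm0⟩ := phase hη
  set κ1 : ℝ := min δ (κ / 2) with hκ1
  have hκ10 : 0 < κ1 := lt_min hδ (by positivity)
  filter_upwards [choose_RR hκ10 m0, sqrt_small (show 0 < ε / 2 by positivity), eventually_ge_atTop N0,
    eventually_ge_atTop 1] with N h2 h3 h4 h5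
  obtain ⟨m, hm, hm1, hm2⟩ := h2
  obtain ⟨T, hT, hav⟩ := hm0 m hm
  have hNr : (1 : ℝ) ≤ N := by exact_mod_cast h5
  have hL : 0 ≤ Real.log N := Real.log_nonneg hNr
  have hT1 : (T : ℝ) ≤ κ1 * Real.log N := by
    have : (T : ℝ) ≤ ((2 * (4 ^ m * m ^ 30) : ℕ) : ℝ) := by exact_mod_cast hT
    linarith
  have hT2 : (2 : ℝ) ^ T ≤ (N : ℝ) ^ δ := by
    apply two_pow_le h5
    exact hT1.trans (mul_le_mul_of_nonneg_right (min_le_left _ _) hL)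
  have h6 := h1 N h4 T hT2 (fun y => WB T m (3 ^ i * y + -2 ^ (2 ^ m - 1))) (by
    intro y k
    have e : 3 ^ i * (y + k * 2 ^ T) + -2 ^ (2 ^ m - 1) = (3 ^ i * y + -2 ^ (2 ^ m - 1)) + (3 ^ i * k) * 2 ^ T := by ring
    rw [e]
    exact WB_periodic _ _ _ _) (by
    rw [WB_count T m (odd3 i), mul_comm]
    exact mul_le_mul_of_nonneg_right hav (by positivity))
  have hsub : ({n ∈ Icc 1 N | ¬ ∀ r : ℤ, |(r : ℝ)| ≤ RR n →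
        (Tz 1)^[⌊κ * Real.log n⌋₊] (3 ^ i * x n + r) = (Tz 1)^[⌊κ * Real.log n⌋₊] (3 ^ i * x n)} : Finset ℕ) ⊆
      {n ∈ Icc 1 N | ((n : ℕ) : ℝ) < √ (N : ℝ)} ∪ {n ∈ Icc 1 N | WB T m (3 ^ i * x n + -2 ^ (2 ^ m - 1))} := by
    intro n hn
    rw [mem_filter] at hn
    rw [mem_union, mem_filter, mem_filter]
    by_contra hcon
    rw [not_or] at hcon
    obtain ⟨h7, h8⟩ := hcon
    have h9 : √ (N : ℝ) ≤ n := by
      by_contra h9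
      exact h7 ⟨hn.1, not_le.1 h9⟩
    have h10 : ¬ WB T m (3 ^ i * x n + -2 ^ (2 ^ m - 1)) := fun h11 => h8 ⟨hn.1, h11⟩
    apply hn.2
    intro r hr
    have hnN : n ≤ N := (mem_Icc.1 hn.1).2
    have h11 := hm2 n h9 hnN
    have h12 : |r| < 2 ^ (2 ^ m - 1) := by
      have : |(r : ℝ)| < 2 ^ (2 ^ m - 1) := hr.trans_lt h11
      exact_mod_cast this
    rw [← sub_eq_add_neg] at h10
    refine persist (WB_both h10 h12) ?_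
    apply Nat.le_floor
    have h13 := log_sqrt_le h5 h9
    calc (T : ℝ) ≤ κ1 * Real.log N := hT1
      _ ≤ κ / 2 * Real.log N := mul_le_mul_of_nonneg_right (min_le_right _ _) hL
      _ ≤ κ / 2 * (2 * Real.log n) := mul_le_mul_of_nonneg_left h13 (by positivity)
      _ = κ * Real.log n := by ring
  have h7 := (card_le_card hsub).trans (card_union_le _ _)
  have h8 : (#({n ∈ Icc 1 N | ¬ ∀ r : ℤ, |(r : ℝ)| ≤ RR n →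
        (Tz 1)^[⌊κ * Real.log n⌋₊] (3 ^ i * x n + r) = (Tz 1)^[⌊κ * Real.log n⌋₊] (3 ^ i * x n)} : Finset ℕ) : ℝ) ≤
      (#{n ∈ Icc 1 N | ((n : ℕ) : ℝ) < √ (N : ℝ)} : ℝ) + #{n ∈ Icc 1 N | WB T m (3 ^ i * x n + -2 ^ (2 ^ m - 1))} := by
    exact_mod_cast h7
  have h9 := small_card N
  linarith

open Classical in
theorem pair_ev {δ : ℝ} (hδ : 0 < δ) {x : ℕ → ℤ} (h : Spr δ x) {κ : ℝ} (hκ : 0 < κ) (i : ℕ)
    {ε : ℝ} (hε : 0 < ε) : ∀ᶠ N : ℕ in atTop,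
      (#{n ∈ Icc 1 N | (Tz 1)^[⌊κ * Real.log (n : ℕ)⌋₊] (3 ^ i * x n) ≠ (Tz 1)^[⌊κ * Real.log (n : ℕ)⌋₊] (x n)} : ℝ) ≤ ε * N := by
  obtain ⟨θ, hθ, N0, h1⟩ := pair_small hδ h (show 0 < κ / 2 by positivity) (show 0 < ε / 2 by positivity)
  filter_upwards [sqrt_small (show 0 < ε / 2 by positivity), eventually_ge_atTop N0,
    eventually_ge_atTop 1, log_nat_tendsto.eventually_ge_atTop ((i : ℝ) ^ 2 / θ)] with N h3 h4 h5 h6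
  rw [div_le_iff₀ hθ] at h6
  have h7 := h1 N h4 i 0 (by linarith) (by simp; positivity)
  have hsub : ({n ∈ Icc 1 N | (Tz 1)^[⌊κ * Real.log (n : ℕ)⌋₊] (3 ^ i * x n) ≠ (Tz 1)^[⌊κ * Real.log (n : ℕ)⌋₊] (x n)} : Finset ℕ) ⊆
      {n ∈ Icc 1 N | ((n : ℕ) : ℝ) < √ (N : ℝ)} ∪
      {n ∈ Icc 1 N | (Tz 1)^[⌊κ / 2 * Real.log N⌋₊] (3 ^ i * x n + 0) ≠ (Tz 1)^[⌊κ / 2 * Real.log N⌋₊] (x n)} := by
    intro n hn
    rw [mem_filter] at hn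
    rw [mem_union, mem_filter, mem_filter]
    by_contra hcon
    rw [not_or] at hcon
    obtain ⟨h8, h9⟩ := hcon
    have h10 : √ (N : ℝ) ≤ n := by
      by_contra h10
      exact h8 ⟨hn.1, not_le.1 h10⟩
    have h11 : (Tz 1)^[⌊κ / 2 * Real.log N⌋₊] (3 ^ i * x n + 0) = (Tz 1)^[⌊κ / 2 * Real.log N⌋₊] (x n) := by
      by_contra h11
      exact h9 ⟨hn.1, h11⟩
    rw [add_zero] at h11
    apply hn.2
    refine persist h11 (Nat.floor_le_floor ?_)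
    have h13 := log_sqrt_le h5 h10
    calc κ / 2 * Real.log N ≤ κ / 2 * (2 * Real.log n) := mul_le_mul_of_nonneg_left h13 (by positivity)
      _ = κ * Real.log n := by ring
  have h8 : (#({n ∈ Icc 1 N | (Tz 1)^[⌊κ * Real.log (n : ℕ)⌋₊] (3 ^ i * x n) ≠ (Tz 1)^[⌊κ * Real.log (n : ℕ)⌋₊] (x n)} : Finset ℕ) : ℝ) ≤
      (#{n ∈ Icc 1 N | ((n : ℕ) : ℝ) < √ (N : ℝ)} : ℝ) +
      #{n ∈ Icc 1 N | (Tz 1)^[⌊κ / 2 * Real.log N⌋₊] (3 ^ i * x n + 0) ≠ (Tz 1)^[⌊κ / 2 * Real.log N⌋₊] (x n)} := by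
    exact_mod_cast (card_le_card hsub).trans (card_union_le _ _)
  have h9 := small_card N
  linarith

open Classical in
/-- All the `3 ^ i x + r`, `i ≤ L`, `|r| ≤ RR n`. -/
theorem all_small {δ : ℝ} (hδ : 0 < δ) {x : ℕ → ℤ} (h : Spr δ x) {κ : ℝ} (hκ : 0 < κ) (L : ℕ)
    {ε : ℝ} (hε : 0 < ε) : ∀ᶠ N : ℕ in atTop,
      (#{n ∈ Icc 1 N | ¬ ∀ i : ℕ, i ≤ L → ∀ r : ℤ, |(r : ℝ)| ≤ RR n →
        (Tz 1)^[⌊κ * Real.log n⌋₊] (3 ^ i * x n + r) = (Tz 1)^[⌊κ * Real.log n⌋₊] (x n)} : ℝ) ≤ ε * N := by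
  have hε' : 0 < ε / (2 * (L + 1)) := by positivity
  have h1 : ∀ᶠ N : ℕ in atTop, ∀ i ∈ range (L + 1), (#{n ∈ Icc 1 N | ¬ ∀ r : ℤ, |(r : ℝ)| ≤ RR n →
        (Tz 1)^[⌊κ * Real.log n⌋₊] (3 ^ i * x n + r) = (Tz 1)^[⌊κ * Real.log n⌋₊] (3 ^ i * x n)} : ℝ) ≤
        ε / (2 * (L + 1)) * N := by
    rw [eventually_all_finset]
    intro i _
    exact window_small hδ h hκ i hε'
  have h2 : ∀ᶠ N : ℕ in atTop, ∀ i ∈ range (L + 1), (#{n ∈ Icc 1 N |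
        (Tz 1)^[⌊κ * Real.log (n : ℕ)⌋₊] (3 ^ i * x n) ≠ (Tz 1)^[⌊κ * Real.log (n : ℕ)⌋₊] (x n)} : ℝ) ≤
        ε / (2 * (L + 1)) * N := by
    rw [eventually_all_finset]
    intro i _
    exact pair_ev hδ h hκ i hε'
  filter_upwards [h1, h2] with N h1 h2
  have hsub : ({n ∈ Icc 1 N | ¬ ∀ i : ℕ, i ≤ L → ∀ r : ℤ, |(r : ℝ)| ≤ RR n →
        (Tz 1)^[⌊κ * Real.log n⌋₊] (3 ^ i * x n + r) = (Tz 1)^[⌊κ * Real.log n⌋₊] (x n)} : Finset ℕ) ⊆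
      (range (L + 1)).biUnion (fun i => {n ∈ Icc 1 N | ¬ ∀ r : ℤ, |(r : ℝ)| ≤ RR n →
        (Tz 1)^[⌊κ * Real.log n⌋₊] (3 ^ i * x n + r) = (Tz 1)^[⌊κ * Real.log n⌋₊] (3 ^ i * x n)} ∪
        {n ∈ Icc 1 N | (Tz 1)^[⌊κ * Real.log (n : ℕ)⌋₊] (3 ^ i * x n) ≠ (Tz 1)^[⌊κ * Real.log (n : ℕ)⌋₊] (x n)}) := by
    intro n hn
    rw [mem_filter] at hn
    obtain ⟨hn1, hn2⟩ := hn
    push Not at hn2
    obtain ⟨i, hi, r, hr, hne⟩ := hn2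
    rw [mem_biUnion]
    refine ⟨i, mem_range.2 (by omega), ?_⟩
    rw [mem_union, mem_filter, mem_filter]
    by_cases h3 : (Tz 1)^[⌊κ * Real.log n⌋₊] (3 ^ i * x n) = (Tz 1)^[⌊κ * Real.log n⌋₊] (x n)
    · left
      refine ⟨hn1, fun h4 => hne ?_⟩
      rw [h4 r hr, h3]
    · right
      exact ⟨hn1, h3⟩
  have h3 : (#({n ∈ Icc 1 N | ¬ ∀ i : ℕ, i ≤ L → ∀ r : ℤ, |(r : ℝ)| ≤ RR n →
        (Tz 1)^[⌊κ * Real.log n⌋₊] (3 ^ i * x n + r) = (Tz 1)^[⌊κ * Real.log n⌋₊] (x n)} : Finset ℕ) : ℝ) ≤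
      ∑ i ∈ range (L + 1), ((#{n ∈ Icc 1 N | ¬ ∀ r : ℤ, |(r : ℝ)| ≤ RR n →
        (Tz 1)^[⌊κ * Real.log n⌋₊] (3 ^ i * x n + r) = (Tz 1)^[⌊κ * Real.log n⌋₊] (3 ^ i * x n)} : ℝ) +
        #{n ∈ Icc 1 N | (Tz 1)^[⌊κ * Real.log (n : ℕ)⌋₊] (3 ^ i * x n) ≠ (Tz 1)^[⌊κ * Real.log (n : ℕ)⌋₊] (x n)}) := by
    have h4 := (card_le_card hsub).trans card_biUnion_le
    have h5 := h4.trans (sum_le_sum (fun i _ => card_union_le _ _))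
    exact_mod_cast h5
  refine h3.trans ?_
  calc _ ≤ ∑ i ∈ range (L + 1), (ε / (2 * (L + 1)) * N + ε / (2 * (L + 1)) * N) :=
        sum_le_sum (fun i hi => add_le_add (h1 i hi) (h2 i hi))
    _ = ε * N := by
        rw [sum_const, card_range, nsmul_eq_mul]
        push_cast
        field_simp
        ring

end Pool.Agent.Y967.CM
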