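import Pool.Agent.W38.AFd
import Pool.Agent.Y967.CM.K

/-! All affine neighbours of spread sequences. -/

set_option autoImplicit false

namespace Pool.Agent.Y967.CM

open Finset Filter Topology Pool.Agent.H499R2.CO Pool.Agent.W38.CR Pool.Agent.W38.AF

theorem cb_decomp (T : ℕ) (y : ℤ) : y = 2 ^ T * (y / 2 ^ T) + bv (cb T y) := by
  have h2T : (0 : ℤ) < 2 ^ T := by positivity
  set c := (y % 2 ^ T).toNat with hc
  have hcval : ((c : ℕ) : ℤ) = y % 2 ^ T := Int.toNat_of_nonneg (Int.emod_nonneg _ h2T.ne')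
  have hclt : c < 2 ^ T := by
    have h3 := Int.emod_lt_of_pos y h2T
    rw [← hcval] at h3
    exact_mod_cast h3
  have hbv := bv_bits T c
  rw [Nat.div_eq_of_lt hclt] at hbv
  simp only [Nat.cast_zero, mul_zero, zero_add] at hbv
  have hbv' : bv (cb T y) = (c : ℤ) := hbv
  rw [hbv', hcval]
  exact (Int.mul_ediv_add_emod y (2 ^ T)).symm

theorem length_cb (T : ℕ) (y : ℤ) : (cb T y).length = T := length_bits _ _

theorem iter_cb (T : ℕ) (y : ℤ) (A : ℕ × ℤ) :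
    (Tz 1)^[T] (ev A y) = ev (fl (cb T y) A) (y / 2 ^ T) := by
  have h3 := Tz_ev_iter (cb T y) A (y / 2 ^ T)
  rw [length_cb, ← cb_decomp] at h3
  exact h3

open Classical in
theorem cls_count {F : List Bool → ℝ} (hF : ∀ l, 0 ≤ F l) (hF1 : ∀ l, F l ≠ 0 → 1 ≤ F l) (T : ℕ) :
    (#{c ∈ range (2 ^ T) | F (cb T ((c : ℕ) : ℤ)) ≠ 0} : ℝ) ≤ 2 ^ T * av T F := by
  rw [← sum_bits T F, card_filter]
  push_cast
  apply sum_le_sum
  intro u hu
  rw [cb_nat (mem_range.1 hu)]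
  by_cases h : F (bits T u) = 0
  · rw [if_neg (not_not.2 h), h]
  · rw [if_pos h]; exact hF1 _ h

open Classical in
/-- Transfer of a bound for the average over all classes. -/
theorem Spr.tr {δ : ℝ} {x : ℕ → ℤ} (h : Spr δ x) {ε : ℝ} (hε : 0 < ε) : ∃ η : ℝ, 0 < η ∧ ∃ N₀ : ℕ,
    ∀ N : ℕ, N₀ ≤ N → ∀ T : ℕ, (2 : ℝ) ^ T ≤ (N : ℝ) ^ δ → ∀ F : List Bool → ℝ, (∀ l, 0 ≤ F l) →
      (∀ l, F l ≠ 0 → 1 ≤ F l) → av T F ≤ η → (#{n ∈ Icc 1 N | F (cb T (x n)) ≠ 0} : ℝ) ≤ ε * N := by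
  obtain ⟨η, hη, N0, h1⟩ := h ε hε
  refine ⟨η, hη, N0, fun N hN T hT F hF hF1 hav => ?_⟩
  have h2 := h1 N hN T hT (fun y => F (cb T y) ≠ 0) (fun y m => by rw [cb_periodic]) (by
    have h3 : (#{c ∈ range (2 ^ T) | F (cb T ((c : ℕ) : ℤ)) ≠ 0} : ℝ) ≤ η * 2 ^ T := by
      refine (cls_count hF hF1 T).trans ?_
      rw [mul_comm]
      exact mul_le_mul_of_nonneg_right hav (by positivity)
    refine le_trans (le_of_eq ?_) h3
    congr!)
  refine le_trans (le_of_eq ?_) h2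
  congr!

theorem FB_one {v : ℕ} {l : List Bool} (h : FB v l ≠ 0) : 1 ≤ FB v l := by
  unfold FB at h ⊢
  have h5 : ¬ ∀ A ∈ im l (Qg v), A = fl l (0, 0) := fun h4 => h (bad_zero h4)
  rw [bad_one h5]

theorem FB_spec {T v : ℕ} {y : ℤ} (h : FB v (cb T y) = 0) {A : ℕ × ℤ} (hA : A ∈ Qg v) :
    (Tz 1)^[T] (ev A y) = (Tz 1)^[T] y := by
  have hall : ∀ B ∈ im (cb T y) (Qg v), B = fl (cb T y) (0, 0) := by
    by_contra hcon
    have h5 : FB v (cb T y) = 1 := bad_one hcon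
    rw [h] at h5
    norm_num at h5
  have h1 := hall (fl (cb T y) A) (mem_image_of_mem _ hA)
  have h2 := iter_cb T y (0, 0)
  rw [ev_zero] at h2
  rw [iter_cb, h1, h2]

/-- The length of the windows. -/
noncomputable def kap (n : ℕ) : ℝ := √ (Real.log n) / (Real.log (Real.log n)) ^ 17

/-- The parameter for the windows. -/
theorem choose_RG {κ : ℝ} (hκ : 0 < κ) (m0 : ℕ) : ∀ᶠ N : ℕ in atTop, ∃ m ≥ m0,
    ((2 * (4 ^ m * m ^ 30) : ℕ) : ℝ) ≤ κ * Real.log N ∧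
    ∀ n : ℕ, √ (N : ℝ) ≤ n → n ≤ N → kap n ≤ 2 ^ (m - 3) * Real.log 2 := by
  -- the parameter `s`
  have hs : Tendsto (fun N : ℕ => ⌊4 * κ * Real.log N⌋₊) atTop atTop :=
    tendsto_nat_floor_atTop.comp (log_nat_tendsto.const_mul_atTop (by positivity))
  have hll : Tendsto (fun N : ℕ => Real.log (Real.log N)) atTop atTop :=
    Real.tendsto_log_atTop.comp log_nat_tendsto
  set B : ℝ := 2 ^ 36 * (1 + 1 / √ κ) with hB
  have hsκ : 0 < √ κ := Real.sqrt_pos.2 hκ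
  filter_upwards [hs.eventually (choose_m (max m0 3)), hs.eventually_ge_atTop 100,
    hll.eventually_ge_atTop (B + 2), log_nat_tendsto.eventually_ge_atTop 16,
    log_nat_tendsto.eventually_ge_atTop (4 * κ), log_nat_tendsto.eventually_ge_atTop (4 * κ + 4),
    hll.eventually_ge_atTop (2 * Real.log (4 * κ + 4) + 4)] with N h1 h2 h3 h4 h5 h6 h7
  set L := Real.log N with hL
  set s := ⌊4 * κ * L⌋₊ with hsdef
  obtain ⟨m, hm, hm1, hm2⟩ := h1
  have hmm0 : m0 ≤ m := (le_max_left _ _).trans hm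
  have hm1' : 3 ≤ m := (le_max_right _ _).trans hm
  have hsr : (100 : ℝ) ≤ s := by exact_mod_cast h2
  have hsle : (s : ℝ) ≤ 4 * κ * L := Nat.floor_le (by positivity)
  have hsge : 4 * κ * L < s + 1 := Nat.lt_floor_add_one _
  refine ⟨m, hmm0, ?_, ?_⟩
  · have h8 : ((2 * (4 ^ m * m ^ 30) : ℕ) : ℝ) ≤ ((s / 4 : ℕ) : ℝ) := by exact_mod_cast hm1
    have h9 : ((s / 4 : ℕ) : ℝ) ≤ (s : ℝ) / 4 := by
      have := Nat.cast_div_le (α := ℝ) (m := s) (n := 4)
      push_cast at this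
      exact this
    linarith
  · intro n hn1 hn2
    have hN0 : (0 : ℝ) < N := by
      by_contra hcon
      have hN0' : (N : ℝ) = 0 := le_antisymm (not_lt.1 hcon) (Nat.cast_nonneg N)
      rw [hL, hN0', Real.log_zero] at h4
      norm_num at h4
    have hn0 : (0 : ℝ) < n := lt_of_lt_of_le (Real.sqrt_pos.2 hN0) hn1
    have hlogn1 : L / 2 ≤ Real.log n := by
      have := Real.log_le_log (Real.sqrt_pos.2 hN0) hn1
      rw [Real.log_sqrt hN0.le] at this
      exact this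
    have hlogn2 : Real.log n ≤ L := Real.log_le_log hn0 (by exact_mod_cast hn2)
    -- iterated logarithms
    have hllN : Real.log L / 2 ≤ Real.log (Real.log n) := by
      have h8 : √ L ≤ Real.log n := by
        refine le_trans ?_ hlogn1
        rw [Real.sqrt_le_left (by linarith)]
        nlinarith
      have h9 := Real.log_le_log (Real.sqrt_pos.2 (by linarith)) h8
      rwa [Real.log_sqrt (by linarith)] at h9
    have hB1 : B / 2 ≤ Real.log (Real.log n) := by linarith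
    have hB0 : 0 < B := by rw [hB]; positivity
    have hspos : (0 : ℝ) < s := by linarith
    -- `log s ≤ 4 log log n`
    have hlogs : Real.log s ≤ 4 * Real.log (Real.log n) := by
      have h8 : (s : ℝ) ≤ (4 * κ + 4) * L := by nlinarith
      have h9 := Real.log_le_log hspos h8
      rw [Real.log_mul (by positivity) (by linarith)] at h9
      linarith
    have h8 := hm2 s s hspos.le le_rfl (by linarith)
    have hlogs0 : 0 < Real.log s := Real.log_pos (by linarith)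
    set ℓ := Real.log (Real.log n) with hℓ
    have hℓ0 : 0 < ℓ := lt_of_lt_of_le (by positivity) hB1
    -- compare
    have h9 : √ (Real.log n) ≤ (1 / √ κ) * √ s := by
      have h10 : Real.log n ≤ s / κ := by
        rw [le_div_iff₀ hκ]
        nlinarith
      calc √ (Real.log n) ≤ √ (s / κ) := Real.sqrt_le_sqrt h10
        _ = (1 / √ κ) * √ s := by rw [Real.sqrt_div hspos.le]; ring
    have h10 : √ (Real.log n) / ℓ ^ 17 ≤ (1 / 8) * (√ s / Real.log s ^ 16) := by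
      have h11 : Real.log s ^ 16 ≤ (4 * ℓ) ^ 16 := pow_le_pow_left₀ hlogs0.le hlogs 16
      have h11' : Real.log s ^ 16 ≤ 2 ^ 32 * ℓ ^ 16 := by
        refine h11.trans (le_of_eq ?_)
        rw [mul_pow]; norm_num
      have h12 : √ s / (2 ^ 32 * ℓ ^ 16) ≤ √ s / Real.log s ^ 16 :=
        div_le_div_of_nonneg_left (Real.sqrt_nonneg _) (by positivity) h11'
      have h13 : √ (Real.log n) / ℓ ^ 17 ≤ (1 / √ κ) * √ s / ℓ ^ 17 :=
        div_le_div_of_nonneg_right h9 (by positivity)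
      have h14 : 2 ^ 35 * (1 / √ κ) ≤ ℓ := by
        have : 0 < 1 / √ κ := by positivity
        rw [hB] at hB1
        linarith
      have h15 : (1 / √ κ) * √ s / ℓ ^ 17 ≤ (1 / 8) * (√ s / (2 ^ 32 * ℓ ^ 16)) := by
        have e : (1 / 8) * (√ s / (2 ^ 32 * ℓ ^ 16)) = (ℓ / 2 ^ 35) * √ s / ℓ ^ 17 := by
          field_simp
          norm_num
        rw [e]
        apply div_le_div_of_nonneg_right _ (by positivity)
        apply mul_le_mul_of_nonneg_right _ (Real.sqrt_nonneg _)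
        rw [le_div_iff₀ (by positivity)]
        linarith
      linarith
    have h16 : (2 : ℝ) ^ m = 8 * 2 ^ (m - 3) := by
      have e : m = (m - 3) + 3 := by omega
      conv_lhs => rw [e]
      rw [pow_add]; norm_num; ring
    unfold kap
    rw [← hℓ]
    rw [h16] at h8
    linarith

theorem kap_int {v : ℕ} {z : ℝ} (hz : z ≤ v * Real.log 2) {i : ℕ} {r : ℤ} (hi : (i : ℝ) ≤ z)
    (hr : |(r : ℝ)| ≤ Real.exp z) : (i, r) ∈ Qg v := by
  have l2 := Real.log_two_lt_d9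
  have l2' := Real.log_two_gt_d9
  rw [mem_Qg]
  refine ⟨?_, ?_⟩
  · have h1 : (i : ℝ) ≤ v := by
      have : (0 : ℝ) ≤ v := Nat.cast_nonneg v
      nlinarith
    exact_mod_cast h1
  · have h1 : |(r : ℝ)| ≤ 2 ^ v := by
      refine hr.trans ?_
      calc Real.exp z ≤ Real.exp (v * Real.log 2) := Real.exp_le_exp.2 hz
        _ = 2 ^ v := by rw [Real.exp_nat_mul, Real.exp_log (by norm_num)]
    exact_mod_cast h1

open Classical in
/-- All the `3 ^ i x + r`, `i ≤ kap n`, `|r| ≤ exp (kap n)`. -/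
theorem all_forms {δ : ℝ} (hδ : 0 < δ) {x : ℕ → ℤ} (h : Spr δ x) {κ : ℝ} (hκ : 0 < κ)
    {ε : ℝ} (hε : 0 < ε) : ∀ᶠ N : ℕ in atTop,
      (#{n ∈ Icc 1 N | ¬ ∀ (i : ℕ) (r : ℤ), (i : ℝ) ≤ kap n → |(r : ℝ)| ≤ Real.exp (kap n) →
        (Tz 1)^[⌊κ * Real.log n⌋₊] (3 ^ i * x n + r) = (Tz 1)^[⌊κ * Real.log n⌋₊] (x n)} : ℝ) ≤ ε * N := by
  obtain ⟨η, hη, N0, h1⟩ := h.tr (show 0 < ε / 2 by positivity)
  obtain ⟨m0, hm0⟩ := phaseG hη
  set κ1 : ℝ := min δ (κ / 2) with hκ1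
  have hκ10 : 0 < κ1 := lt_min hδ (by positivity)
  filter_upwards [choose_RG hκ10 m0, sqrt_small (show 0 < ε / 2 by positivity), eventually_ge_atTop N0,
    eventually_ge_atTop 1] with N h2 h3 h4 h5
  obtain ⟨m, hm, hm1, hm2⟩ := h2
  obtain ⟨T, hT, hav⟩ := hm0 m hm
  have hNr : (1 : ℝ) ≤ N := by exact_mod_cast h5
  have hL : 0 ≤ Real.log N := Real.log_nonneg hNr
  have hT1 : (T : ℝ) ≤ κ1 * Real.log N := by
    have : (T : ℝ) ≤ ((2 * (4 ^ m * m ^ 30) : ℕ) : ℝ) := by exact_mod_cast hT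
    linarith
  have hT2 : (2 : ℝ) ^ T ≤ (N : ℝ) ^ δ := by
    apply two_pow_le h5
    exact hT1.trans (mul_le_mul_of_nonneg_right (min_le_left _ _) hL)
  have h6 := h1 N h4 T hT2 (FB (2 ^ (m - 3))) (FB_nonneg _) (fun l => FB_one) hav
  have hsub : ({n ∈ Icc 1 N | ¬ ∀ (i : ℕ) (r : ℤ), (i : ℝ) ≤ kap n → |(r : ℝ)| ≤ Real.exp (kap n) →
        (Tz 1)^[⌊κ * Real.log n⌋₊] (3 ^ i * x n + r) = (Tz 1)^[⌊κ * Real.log n⌋₊] (x n)} : Finset ℕ) ⊆
      {n ∈ Icc 1 N | ((n : ℕ) : ℝ) < √ (N : ℝ)} ∪ {n ∈ Icc 1 N | FB (2 ^ (m - 3)) (cb T (x n)) ≠ 0} := by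
    intro n hn
    rw [mem_filter] at hn
    rw [mem_union, mem_filter, mem_filter]
    by_contra hcon
    rw [not_or] at hcon
    obtain ⟨h7, h8⟩ := hcon
    have h9 : √ (N : ℝ) ≤ n := by
      by_contra h9
      exact h7 ⟨hn.1, not_le.1 h9⟩
    have h10 : FB (2 ^ (m - 3)) (cb T (x n)) = 0 := by
      by_contra h11
      exact h8 ⟨hn.1, h11⟩
    apply hn.2
    intro i r hi hr
    have hnN : n ≤ N := (mem_Icc.1 hn.1).2
    have h11 := hm2 n h9 hnN
    have h12 : (i, r) ∈ Qg (2 ^ (m - 3)) := by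
      apply kap_int _ hi hr
      push_cast
      exact h11
    have h14 := FB_spec h10 h12
    have e : ev (i, r) (x n) = 3 ^ i * x n + r := rfl
    rw [e] at h14
    refine persist h14 ?_
    apply Nat.le_floor
    have h13 := log_sqrt_le h5 h9
    calc (T : ℝ) ≤ κ1 * Real.log N := hT1
      _ ≤ κ / 2 * Real.log N := mul_le_mul_of_nonneg_right (min_le_right _ _) hL
      _ ≤ κ / 2 * (2 * Real.log n) := mul_le_mul_of_nonneg_left h13 (by positivity)
      _ = κ * Real.log n := by ring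
  have h7 := (card_le_card hsub).trans (card_union_le _ _)
  have h8 : (#({n ∈ Icc 1 N | ¬ ∀ (i : ℕ) (r : ℤ), (i : ℝ) ≤ kap n → |(r : ℝ)| ≤ Real.exp (kap n) →
        (Tz 1)^[⌊κ * Real.log n⌋₊] (3 ^ i * x n + r) = (Tz 1)^[⌊κ * Real.log n⌋₊] (x n)} : Finset ℕ) : ℝ) ≤
      (#{n ∈ Icc 1 N | ((n : ℕ) : ℝ) < √ (N : ℝ)} : ℝ) + #{n ∈ Icc 1 N | FB (2 ^ (m - 3)) (cb T (x n)) ≠ 0} := by
    exact_mod_cast h7
  have h9 := small_card N
  linarith

end Pool.Agent.Y967.CM
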